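import Mathlib
import Pool.Agent.N740.HK.Trials

/-!
# Windows without members in adapted random sets
-/

set_option autoImplicit false
set_option linter.unusedSectionVars false

open MeasureTheory Filter Set
open scoped Topology ENNReal

namespace Pool.Agent.N417.SM

open Pool.Agent.R528.RM Pool.Agent.N740.HK

variable {Ω : Type} {m0 : MeasurableSpace Ω} {μ : Measure Ω} [IsProbabilityMeasure μ]
  {ℱ : Filtration ℕ m0} {A : ℕ → Set Ω}

/-- no member in `(t, t + g]` -/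
def NE (A : ℕ → Set Ω) (t g : ℕ) : Set Ω := {ω | ∀ r, t < r → r ≤ t + g → ω ∉ A r}

/-- a violation at an index in `[t, t + g)` -/
def VX (V : ℕ → Set Ω) (t g : ℕ) : Set Ω := {ω | ∃ n, t ≤ n ∧ n < t + g ∧ ω ∈ V n}

lemma NE_meas (hA : ∀ n, MeasurableSet[ℱ n] (A n)) (t g : ℕ) : MeasurableSet[ℱ (t + g)] (NE A t g) := by
  have h : NE A t g = ⋂ r ∈ {r : ℕ | t < r ∧ r ≤ t + g}, (A r)ᶜ := by
    ext ω
    simp only [mem_iInter, mem_compl_iff]
    constructor
    · intro h r hr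
      exact h r hr.1 hr.2
    · intro h r h1 h2
      exact h r ⟨h1, h2⟩
  rw [h]
  refine MeasurableSet.biInter (to_countable _) fun r hr => ?_
  exact (ℱ.mono hr.2 _ (hA r)).compl

lemma VX_meas {V : ℕ → Set Ω} (hV : ∀ n, MeasurableSet[ℱ n] (V n)) (t g : ℕ) : MeasurableSet[ℱ (t + g)] (VX V t (g + 1)) := by
  have h : VX V t (g + 1) = ⋃ n ∈ {n : ℕ | t ≤ n ∧ n < t + (g + 1)}, V n := by
    ext ω
    simp only [mem_iUnion]
    constructor
    · rintro ⟨n, h1, h2, h3⟩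
      exact ⟨n, ⟨h1, h2⟩, h3⟩
    · rintro ⟨n, ⟨h1, h2⟩, h3⟩
      exact ⟨n, h1, h2, h3⟩
  rw [h]
  refine MeasurableSet.biUnion (to_countable _) fun n hn => ?_
  exact ℱ.mono (by have := hn.2; omega) _ (hV n)

lemma VX_meas' {V : ℕ → Set Ω} (hV : ∀ n, MeasurableSet[ℱ n] (V n)) (t g : ℕ) : MeasurableSet[ℱ (t + g)] (VX V t g) := by
  cases g with
  | zero =>
    have : VX V t 0 = ∅ := by
      ext ω
      simp only [mem_empty_iff_false, iff_false]
      rintro ⟨n, h1, h2, _⟩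
      omega
    rw [this]
    exact @MeasurableSet.empty _ (ℱ (t + 0))
  | succ g => exact ℱ.mono (by omega) _ (VX_meas hV t g)

lemma NE_succ (t g : ℕ) : NE A t (g + 1) = NE A t g \ A (t + g + 1) := by
  ext ω
  constructor
  · intro h
    exact ⟨fun r h1 h2 => h r h1 (by omega), h _ (by omega) (by omega)⟩
  · rintro ⟨h1, h2⟩ r h3 h4
    rcases Nat.lt_or_ge (t + g) r with h | h
    · obtain rfl : r = t + g + 1 := by omega
      exact h2
    · exact h1 r h3 h

lemma VX_succ {V : ℕ → Set Ω} (t g : ℕ) : VX V t (g + 1) = VX V t g ∪ V (t + g) := by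
  ext ω
  constructor
  · rintro ⟨n, h1, h2, h3⟩
    rcases Nat.lt_or_ge n (t + g) with h | h
    · exact Or.inl ⟨n, h1, h, h3⟩
    · obtain rfl : n = t + g := by omega
      exact Or.inr h3
  · rintro (⟨n, h1, h2, h3⟩ | h)
    · exact ⟨n, h1, by omega, h3⟩
    · exact ⟨t + g, by omega, by omega, h⟩

/-- upper bound -/
theorem ne_le (hA : ∀ n, MeasurableSet[ℱ n] (A n)) {lam : ℕ → ℝ} (h1 : ∀ n, lam n ≤ 1) {V : ℕ → Set Ω}
    (hV : ∀ n, MeasurableSet[ℱ n] (V n)) (hVb : ∀ n ω, ω ∉ V n → lam n ≤ dens μ ℱ A n ω) (t g : ℕ)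
    {C : Set Ω} (hC : MeasurableSet[ℱ t] C) :
    μ.real ((C ∩ NE A t g) \ VX V t g) ≤ (∏ i ∈ Finset.range g, (1 - lam (t + i))) * μ.real C := by
  induction g with
  | zero =>
    rw [Finset.prod_range_zero, one_mul]
    exact measureReal_mono (fun ω h => h.1.1)
  | succ g ih =>
    set B : Set Ω := (C ∩ NE A t g) \ VX V t g with hB
    have hBm : MeasurableSet[ℱ (t + g)] B :=
      ((ℱ.mono (by omega) _ hC).inter (NE_meas hA t g)).diff (VX_meas' hV t g)
    have hBV : MeasurableSet[ℱ (t + g)] (B \ V (t + g)) := hBm.diff (hV _)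
    have hlow := lower_meas (μ := μ) hA (t + g) hBV (l := lam (t + g)) (fun ω hω => hVb _ _ hω.2)
    have hA' : MeasurableSet (A (t + g + 1)) := ℱ.le _ _ (hA _)
    have h2 : (C ∩ NE A t (g + 1)) \ VX V t (g + 1) = (B \ V (t + g)) \ A (t + g + 1) := by
      rw [NE_succ, VX_succ]
      ext ω
      simp only [hB, Set.mem_sdiff, mem_inter_iff, mem_union, not_or]
      tauto
    rw [h2, Finset.prod_range_succ]
    have h3 := measureReal_inter_add_sdiff (μ := μ) (s := B \ V (t + g)) hA'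
    have h4 : μ.real (B \ V (t + g)) ≤ μ.real B := measureReal_mono sdiff_subset
    have h5 : 0 ≤ 1 - lam (t + g) := by linarith [h1 (t + g)]
    have h6 : (1 - lam (t + g)) * μ.real (B \ V (t + g)) ≤ (1 - lam (t + g)) * μ.real B :=
      mul_le_mul_of_nonneg_left h4 h5
    have h7 : (1 - lam (t + g)) * μ.real B ≤
        (1 - lam (t + g)) * ((∏ i ∈ Finset.range g, (1 - lam (t + i))) * μ.real C) :=
      mul_le_mul_of_nonneg_left ih h5
    calc μ.real ((B \ V (t + g)) \ A (t + g + 1)) ≤ (1 - lam (t + g)) * μ.real (B \ V (t + g)) := by linarith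
      _ ≤ (1 - lam (t + g)) * ((∏ i ∈ Finset.range g, (1 - lam (t + i))) * μ.real C) := h6.trans h7
      _ = _ := by ring

/-- lower bound -/
theorem ne_ge (hA : ∀ n, MeasurableSet[ℱ n] (A n)) {lam : ℕ → ℝ} (h0 : ∀ n, 0 ≤ lam n) (h1 : ∀ n, lam n ≤ 1)
    {V : ℕ → Set Ω} (hV : ∀ n, MeasurableSet[ℱ n] (V n)) (hVb : ∀ n ω, ω ∉ V n → dens μ ℱ A n ω ≤ lam n) (t g : ℕ)
    {C : Set Ω} (hC : MeasurableSet[ℱ t] C) :
    (∏ i ∈ Finset.range g, (1 - lam (t + i))) * μ.real C ≤ μ.real (C ∩ (NE A t g ∪ VX V t g)) := by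
  induction g with
  | zero =>
    rw [Finset.prod_range_zero, one_mul]
    refine measureReal_mono (fun ω h => ⟨h, Or.inl fun r hr1 hr2 => absurd hr1 (by omega)⟩)
  | succ g ih =>
    set H : Set Ω := (C ∩ NE A t g) \ VX V t (g + 1) with hH
    set W : Set Ω := C ∩ VX V t (g + 1) with hW
    have hCm : MeasurableSet[ℱ (t + g)] C := ℱ.mono (by omega) _ hC
    have hHm : MeasurableSet[ℱ (t + g)] H := (hCm.inter (NE_meas hA t g)).diff (VX_meas hV t g)
    have hWm : MeasurableSet[ℱ (t + g)] W := hCm.inter (VX_meas hV t g)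
    have hup := upper_meas (μ := μ) hA (t + g) hHm (u := lam (t + g)) (fun ω hω => hVb _ _ (fun hv => hω.2
      ⟨t + g, by omega, by omega, hv⟩))
    have hA' : MeasurableSet (A (t + g + 1)) := ℱ.le _ _ (hA _)
    have h3 := measureReal_inter_add_sdiff (μ := μ) (s := H) hA'
    have hsub1 : C ∩ (NE A t g ∪ VX V t g) ⊆ H ∪ W := by
      rintro ω ⟨hc, h | h⟩
      · by_cases hv : ω ∈ VX V t (g + 1)
        · exact Or.inr ⟨hc, hv⟩
        · exact Or.inl ⟨⟨hc, h⟩, hv⟩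
      · refine Or.inr ⟨hc, ?_⟩
        rw [VX_succ]
        exact Or.inl h
    have hsub2 : (H \ A (t + g + 1)) ∪ W ⊆ C ∩ (NE A t (g + 1) ∪ VX V t (g + 1)) := by
      rintro ω (⟨⟨⟨hc, h⟩, _⟩, hna⟩ | ⟨hc, h⟩)
      · refine ⟨hc, Or.inl ?_⟩
        rw [NE_succ]
        exact ⟨h, hna⟩
      · exact ⟨hc, Or.inr h⟩
    have hdis : Disjoint (H \ A (t + g + 1)) W := by
      rw [Set.disjoint_left]
      rintro ω ⟨h, _⟩ ⟨_, h'⟩
      exact h.2 h'
    have h4 : μ.real ((H \ A (t + g + 1)) ∪ W) = μ.real (H \ A (t + g + 1)) + μ.real W :=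
      measureReal_union hdis (ℱ.le _ _ hWm)
    have h5 := measureReal_mono (μ := μ) hsub2
    have h6 := (measureReal_mono (μ := μ) hsub1).trans (measureReal_union_le _ _)
    have h7 : 0 ≤ 1 - lam (t + g) := by linarith [h1 (t + g)]
    have h8 : 0 ≤ μ.real W := measureReal_nonneg
    rw [Finset.prod_range_succ]
    calc (∏ i ∈ Finset.range g, (1 - lam (t + i))) * (1 - lam (t + g)) * μ.real C
        = (1 - lam (t + g)) * ((∏ i ∈ Finset.range g, (1 - lam (t + i))) * μ.real C) := by ring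
      _ ≤ (1 - lam (t + g)) * (μ.real H + μ.real W) := mul_le_mul_of_nonneg_left (ih.trans h6) h7
      _ ≤ μ.real (H \ A (t + g + 1)) + μ.real W := by nlinarith [h0 (t + g)]
      _ ≤ _ := by rw [← h4]; exact h5

/-- **windows of a convergent series contain members** -/
theorem win_fin (hA : ∀ n, MeasurableSet[ℱ n] (A n)) {lam : ℕ → ℝ} (h1 : ∀ n, lam n ≤ 1)
    (hge : ∀ᵐ ω ∂μ, ∀ᶠ n in atTop, lam n ≤ dens μ ℱ A n ω) {t g : ℕ → ℕ} (ht : Tendsto t atTop atTop)
    (hsum : Summable fun k => ∏ i ∈ Finset.range (g k), (1 - lam (t k + i))) :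
    ∀ᵐ ω ∂μ, ∀ᶠ k in atTop, ∃ r, t k < r ∧ r ≤ t k + g k ∧ ω ∈ A r := by
  set V : ℕ → Set Ω := fun n => {ω | ¬ lam n ≤ dens μ ℱ A n ω} with hVd
  have hV : ∀ n, MeasurableSet[ℱ n] (V n) := by
    intro n
    have : MeasurableSet {x : ℝ | ¬ lam n ≤ x} := measurableSet_Ici.compl
    exact (dens_meas (μ := μ) n).measurable this
  have hb : ∀ k, μ.real (NE A (t k) (g k) \ VX V (t k) (g k)) ≤ ∏ i ∈ Finset.range (g k), (1 - lam (t k + i)) := by
    intro k
    have h2 := ne_le (μ := μ) hA h1 hV (fun n ω h => not_not.1 h) (t k) (g k) (C := univ) (@MeasurableSet.univ _ (ℱ (t k)))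
    rw [univ_inter] at h2
    simpa using h2
  have h2 : Summable (fun k => μ.real (NE A (t k) (g k) \ VX V (t k) (g k))) :=
    Summable.of_nonneg_of_le (fun k => measureReal_nonneg) hb hsum
  have h3 : ∑' k, μ (NE A (t k) (g k) \ VX V (t k) (g k)) ≠ ∞ := by
    have h4 : ∀ k, μ (NE A (t k) (g k) \ VX V (t k) (g k)) =
        ENNReal.ofReal (μ.real (NE A (t k) (g k) \ VX V (t k) (g k))) := fun k => by
      rw [ofReal_measureReal (measure_ne_top _ _)]
    simp_rw [h4]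
    exact h2.tsum_ofReal_ne_top
  filter_upwards [ae_eventually_notMem h3, hge] with ω h4 h5
  obtain ⟨n₀, hn₀⟩ := eventually_atTop.1 h5
  filter_upwards [h4, ht.eventually_ge_atTop n₀] with k hk1 hk2
  by_contra hcon
  push Not at hcon
  apply hk1
  refine ⟨fun r hr1 hr2 => hcon r hr1 hr2, ?_⟩
  rintro ⟨n, hn1, _, hn3⟩
  exact hn3 (hn₀ n (by omega))

/-- **disjoint windows of a divergent series** -/
theorem win_io (hA : ∀ n, MeasurableSet[ℱ n] (A n)) {lam : ℕ → ℝ} (h0 : ∀ n, 0 ≤ lam n) (h1 : ∀ n, lam n ≤ 1)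
    (hle : ∀ᵐ ω ∂μ, ∀ᶠ n in atTop, dens μ ℱ A n ω ≤ lam n) {t g : ℕ → ℕ} (ht : Tendsto t atTop atTop)
    (hdis : ∀ k, t k + g k ≤ t (k + 1))
    (hsum : Tendsto (fun N => ∑ k ∈ Finset.range N, ∏ i ∈ Finset.range (g k), (1 - lam (t k + i))) atTop atTop) :
    ∀ᵐ ω ∂μ, ∃ᶠ k in atTop, ∀ r, t k < r → r ≤ t k + g k → ω ∉ A r := by
  set V : ℕ → Set Ω := fun n => {ω | ¬ dens μ ℱ A n ω ≤ lam n} with hVd
  have hV : ∀ n, MeasurableSet[ℱ n] (V n) := by
    intro n
    have : MeasurableSet {x : ℝ | ¬ x ≤ lam n} := measurableSet_Iic.compl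
    exact (dens_meas (μ := μ) n).measurable this
  have hmono : Monotone t := monotone_nat_of_le_succ fun k => by have := hdis k; omega
  have hio := trials_io (μ := μ) (ℱ := ℱ) (s := t) hmono (D := fun k => NE A (t k) (g k) ∪ VX V (t k) (g k))
    (fun k => ℱ.mono (hdis k) _ ((NE_meas hA _ _).union (VX_meas' hV _ _)))
    (p := fun k => ∏ i ∈ Finset.range (g k), (1 - lam (t k + i))) (k₀ := 0)
    (fun k _ C hC => ne_ge (μ := μ) hA h0 h1 hV (fun n ω h => not_not.1 h) (t k) (g k) hC) hsum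
  filter_upwards [hio, hle] with ω h2 h3
  obtain ⟨n₀, hn₀⟩ := eventually_atTop.1 h3
  obtain ⟨k₀, hk₀⟩ := eventually_atTop.1 (ht.eventually_ge_atTop n₀)
  rw [frequently_atTop]
  intro K
  obtain ⟨k, hk, h4⟩ := h2 (max K k₀)
  refine ⟨k, (le_max_left _ _).trans hk, ?_⟩
  rcases h4 with h4 | ⟨n, hn1, _, hn3⟩
  · exact h4
  · exact absurd (hn₀ n ((hk₀ k ((le_max_right _ _).trans hk)).trans hn1)) hn3

end Pool.Agent.N417.SM
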