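import Mathlib
import Pool.Agent.N417.SM.Win
import Pool.Agent.N740.HK.Sch

/-!
# Members in the intervals of Oppermann
-/

set_option autoImplicit false
set_option linter.unusedSectionVars false

open MeasureTheory Filter Set ProbabilityTheory
open scoped Topology ENNReal

namespace Pool.Agent.N417.SM

open Pool.Agent.R528.RM Pool.Agent.N740.HK

variable {Ω : Type} {m0 : MeasurableSpace Ω} {μ : Measure Ω} [IsProbabilityMeasure μ]
  {ℱ : Filtration ℕ m0} {A : ℕ → Set Ω}

/-- both intervals contain a member -/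
def Opp (S : Set ℕ) (x : ℕ) : Prop :=
  (∃ q ∈ S, x ^ 2 - x < q ∧ q < x ^ 2) ∧ ∃ q ∈ S, x ^ 2 < q ∧ q < x ^ 2 + x

/-- `∏ (1 - h r)` over the integers `a < r < b` -/
noncomputable def vo (h : ℕ → ℝ) (a b : ℕ) : ℝ := ∏ r ∈ Finset.Ico (a + 1) b, (1 - h r)

lemma vo_eq (h : ℕ → ℝ) (t g : ℕ) : vo h t (t + g + 1) = ∏ i ∈ Finset.range g, (1 - h (t + i + 1)) := by
  unfold vo
  rw [Finset.prod_Ico_eq_prod_range, show t + g + 1 - (t + 1) = g by omega]
  refine Finset.prod_congr rfl fun i _ => ?_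
  rw [show t + 1 + i = t + i + 1 by ring]

lemma vo_m (h : ℕ → ℝ) {x : ℕ} (hx : 1 ≤ x) : vo h (x ^ 2 - x) (x ^ 2) = ∏ i ∈ Finset.range (x - 1), (1 - h (x ^ 2 - x + i + 1)) := by
  rw [← vo_eq]
  congr 1
  have : x ≤ x ^ 2 := Nat.le_self_pow (by norm_num) x
  omega

lemma vo_p (h : ℕ → ℝ) {x : ℕ} (hx : 1 ≤ x) : vo h (x ^ 2) (x ^ 2 + x) = ∏ i ∈ Finset.range (x - 1), (1 - h (x ^ 2 + i + 1)) := by
  rw [← vo_eq]
  congr 1
  omega

lemma sq_sub_top : Tendsto (fun x : ℕ => x ^ 2 - x) atTop atTop := by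
  refine tendsto_atTop_mono' atTop ?_ (tendsto_sub_atTop_nat 1)
  filter_upwards [eventually_ge_atTop 1] with x hx
  have h1 : (x - 1) + x ≤ x ^ 2 := by
    obtain ⟨y, rfl⟩ : ∃ y, x = y + 1 := ⟨x - 1, by omega⟩
    rw [Nat.add_sub_cancel]
    nlinarith
  show x - 1 ≤ x ^ 2 - x
  omega

lemma sq_top : Tendsto (fun x : ℕ => x ^ 2) atTop atTop := tendsto_pow_atTop (by norm_num)

/-- convergence -/
theorem opp_fin (hA : ∀ n, MeasurableSet[ℱ n] (A n)) {h : ℕ → ℝ} (h1 : ∀ n, h n ≤ 1)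
    (hge : ∀ᵐ ω ∂μ, ∀ᶠ n in atTop, h (n + 1) ≤ dens μ ℱ A n ω)
    (hsum : Summable fun x : ℕ => vo h (x ^ 2 - x) (x ^ 2) + vo h (x ^ 2) (x ^ 2 + x)) :
    ∀ᵐ ω ∂μ, ∀ᶠ x in atTop, Opp {k | ω ∈ A k} x := by
  have hv0 : ∀ a b, 0 ≤ vo h a b := fun a b => Finset.prod_nonneg fun r _ => by linarith [h1 r]
  have hs1 : Summable fun x : ℕ => vo h (x ^ 2 - x) (x ^ 2) :=
    Summable.of_nonneg_of_le (fun x => hv0 _ _) (fun x => by linarith [hv0 (x ^ 2) (x ^ 2 + x)]) hsum
  have hs2 : Summable fun x : ℕ => vo h (x ^ 2) (x ^ 2 + x) :=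
    Summable.of_nonneg_of_le (fun x => hv0 _ _) (fun x => by linarith [hv0 (x ^ 2 - x) (x ^ 2)]) hsum
  have hp0 : ∀ (t : ℕ → ℕ) (x : ℕ), 0 ≤ ∏ i ∈ Finset.range (x - 1), (1 - h (t x + i + 1)) := fun t x =>
    Finset.prod_nonneg fun r _ => by linarith [h1 (t x + r + 1)]
  have e1 := win_fin (μ := μ) hA (lam := fun n => h (n + 1)) (fun n => h1 _) hge (t := fun x => x ^ 2 - x)
    (g := fun x => x - 1) sq_sub_top (by
      refine Summable.of_norm_bounded_eventually_nat hs1 ?_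
      filter_upwards [eventually_ge_atTop 1] with x hx
      rw [Real.norm_of_nonneg (hp0 (fun x => x ^ 2 - x) x), vo_m h hx])
  have e2 := win_fin (μ := μ) hA (lam := fun n => h (n + 1)) (fun n => h1 _) hge (t := fun x => x ^ 2)
    (g := fun x => x - 1) sq_top (by
      refine Summable.of_norm_bounded_eventually_nat hs2 ?_
      filter_upwards [eventually_ge_atTop 1] with x hx
      rw [Real.norm_of_nonneg (hp0 (fun x => x ^ 2) x), vo_p h hx])
  filter_upwards [e1, e2] with ω h2 h3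
  filter_upwards [h2, h3, eventually_ge_atTop 1] with x h4 h5 hx
  have h6 : x ≤ x ^ 2 := Nat.le_self_pow (by norm_num) x
  obtain ⟨r, r1, r2, r3⟩ := h4
  obtain ⟨s, s1, s2, s3⟩ := h5
  exact ⟨⟨r, r3, r1, by omega⟩, ⟨s, s3, s1, by omega⟩⟩

/-- divergence -/
theorem opp_io (hA : ∀ n, MeasurableSet[ℱ n] (A n)) {h : ℕ → ℝ} (h0 : ∀ n, 0 ≤ h n) (h1 : ∀ n, h n ≤ 1)
    (hle : ∀ᵐ ω ∂μ, ∀ᶠ n in atTop, dens μ ℱ A n ω ≤ h (n + 1))
    (hsum : ¬ Summable fun x : ℕ => vo h (x ^ 2 - x) (x ^ 2) + vo h (x ^ 2) (x ^ 2 + x)) :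
    ∀ᵐ ω ∂μ, ∃ᶠ x in atTop, ¬ Opp {k | ω ∈ A k} x := by
  have hp0 : ∀ (t : ℕ → ℕ) (x : ℕ), 0 ≤ ∏ i ∈ Finset.range (x - 1), (1 - h (t x + i + 1)) := fun t x =>
    Finset.prod_nonneg fun r _ => by linarith [h1 (t x + r + 1)]
  have hor : ¬ Summable (fun x : ℕ => vo h (x ^ 2 - x) (x ^ 2)) ∨ ¬ Summable (fun x : ℕ => vo h (x ^ 2) (x ^ 2 + x)) := by
    by_contra hcon
    push Not at hcon
    exact hsum (hcon.1.add hcon.2)
  rcases hor with hs | hs
  · have e1 := win_io (μ := μ) hA (lam := fun n => h (n + 1)) (fun n => h0 _) (fun n => h1 _) hle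
      (t := fun x => x ^ 2 - x) (g := fun x => x - 1) sq_sub_top (fun k => by
        have h2 : k ≤ k ^ 2 := Nat.le_self_pow (by norm_num) k
        have h3 : (k + 1) ^ 2 = k ^ 2 + 2 * k + 1 := by ring
        show k ^ 2 - k + (k - 1) ≤ (k + 1) ^ 2 - (k + 1)
        omega) (by
        rw [← not_summable_iff_tendsto_nat_atTop_of_nonneg (hp0 fun x => x ^ 2 - x)]
        intro hcon
        apply hs
        refine Summable.of_norm_bounded_eventually_nat hcon ?_
        filter_upwards [eventually_ge_atTop 1] with x hx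
        rw [vo_m h hx, Real.norm_of_nonneg (hp0 (fun x => x ^ 2 - x) x)])
    filter_upwards [e1] with ω hω
    refine (hω.and_eventually (eventually_ge_atTop 1)).mono fun x hx => ?_
    rintro ⟨⟨q, q1, q2, q3⟩, _⟩
    have h6 : x ≤ x ^ 2 := Nat.le_self_pow (by norm_num) x
    have hx1 := hx.2
    exact hx.1 q q2 (by omega) q1
  · have e1 := win_io (μ := μ) hA (lam := fun n => h (n + 1)) (fun n => h0 _) (fun n => h1 _) hle
      (t := fun x => x ^ 2) (g := fun x => x - 1) sq_top (fun k => by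
        have h3 : (k + 1) ^ 2 = k ^ 2 + 2 * k + 1 := by ring
        show k ^ 2 + (k - 1) ≤ (k + 1) ^ 2
        omega) (by
        rw [← not_summable_iff_tendsto_nat_atTop_of_nonneg (hp0 fun x => x ^ 2)]
        intro hcon
        apply hs
        refine Summable.of_norm_bounded_eventually_nat hcon ?_
        filter_upwards [eventually_ge_atTop 1] with x hx
        rw [vo_p h hx, Real.norm_of_nonneg (hp0 (fun x => x ^ 2) x)])
    filter_upwards [e1] with ω hω
    refine (hω.and_eventually (eventually_ge_atTop 1)).mono fun x hx => ?_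
    rintro ⟨_, ⟨q, q1, q2, q3⟩⟩
    have hx1 := hx.2
    exact hx.1 q q2 (by omega) q1

/-! ## two series -/

lemma ser_conv {s : ℝ} (hs : 1 < s) : Summable (fun n : ℕ => 1 / ((n : ℝ) * Real.log ((n : ℝ) + 1) ^ s)) := by
  rw [← summable_condensed_iff_of_nonneg]
  · have h1 : Summable (fun k : ℕ => (Real.log 2 ^ s)⁻¹ * (1 / (k : ℝ) ^ s)) :=
      (Real.summable_one_div_nat_rpow.2 hs).mul_left _
    refine Summable.of_norm_bounded_eventually_nat h1 ?_
    filter_upwards [eventually_gt_atTop 0] with k hk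
    have hk' : (0 : ℝ) < k := by exact_mod_cast hk
    have hl2 : 0 < Real.log 2 := Real.log_pos (by norm_num)
    have h2 : (k : ℝ) * Real.log 2 ≤ Real.log (((2 ^ k : ℕ) : ℝ) + 1) := by
      rw [← Real.log_pow]
      apply Real.log_le_log (by positivity)
      push_cast
      linarith
    have h3 : 0 < (k : ℝ) * Real.log 2 := by positivity
    have h4 : ((k : ℝ) * Real.log 2) ^ s ≤ Real.log (((2 ^ k : ℕ) : ℝ) + 1) ^ s :=
      Real.rpow_le_rpow h3.le h2 (by linarith)
    rw [Real.norm_of_nonneg (mul_nonneg (by positivity) (div_nonneg zero_le_one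
      (mul_nonneg (Nat.cast_nonneg _) (Real.rpow_nonneg (h3.le.trans h2) _))))]
    have e : (2 : ℝ) ^ k * (1 / (((2 ^ k : ℕ) : ℝ) * Real.log (((2 ^ k : ℕ) : ℝ) + 1) ^ s)) =
        1 / Real.log (((2 ^ k : ℕ) : ℝ) + 1) ^ s := by
      push_cast
      have : (2 : ℝ) ^ k ≠ 0 := by positivity
      field_simp
    rw [e]
    have e2 : (Real.log 2 ^ s)⁻¹ * (1 / (k : ℝ) ^ s) = 1 / ((k : ℝ) * Real.log 2) ^ s := by
      rw [Real.mul_rpow hk'.le hl2.le]
      field_simp
    rw [e2]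
    exact one_div_le_one_div_of_le (by positivity) h4
  · intro n
    have : 0 ≤ Real.log ((n : ℝ) + 1) := Real.log_nonneg (by have : (0 : ℝ) ≤ n := Nat.cast_nonneg n; linarith)
    positivity
  · intro m n hm hmn
    have hm' : (0 : ℝ) < m := by exact_mod_cast hm
    have hmn' : (m : ℝ) ≤ n := by exact_mod_cast hmn
    have h1 : 0 < Real.log ((m : ℝ) + 1) := Real.log_pos (by linarith)
    have h2 : Real.log ((m : ℝ) + 1) ≤ Real.log ((n : ℝ) + 1) := Real.log_le_log (by linarith) (by linarith)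
    have h3 : Real.log ((m : ℝ) + 1) ^ s ≤ Real.log ((n : ℝ) + 1) ^ s := Real.rpow_le_rpow h1.le h2 (by linarith)
    apply one_div_le_one_div_of_le (by positivity)
    exact mul_le_mul hmn' h3 (by positivity) (by linarith)

lemma ser_div : ¬ Summable (fun n : ℕ => 1 / ((n : ℝ) * Real.log ((n : ℝ) + 1))) := by
  rw [← summable_condensed_iff_of_nonneg]
  · intro h
    have h1 : Summable (fun k : ℕ => 1 / ((k : ℝ) + 1)) := by
      have h2 : Summable (fun k : ℕ => Real.log 2 * ((2 : ℝ) ^ k * (1 / (((2 ^ k : ℕ) : ℝ) * Real.log (((2 ^ k : ℕ) : ℝ) + 1))))) :=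
        h.mul_left _
      refine Summable.of_nonneg_of_le (fun k => by positivity) (fun k => ?_) h2
      have hl2 : 0 < Real.log 2 := Real.log_pos (by norm_num)
      have h3 : Real.log (((2 ^ k : ℕ) : ℝ) + 1) ≤ ((k : ℝ) + 1) * Real.log 2 := by
        have e : ((k : ℝ) + 1) * Real.log 2 = Real.log ((2 : ℝ) ^ (k + 1)) := by
          rw [Real.log_pow]
          push_cast
          ring
        rw [e]
        apply Real.log_le_log (by positivity)
        push_cast
        rw [pow_succ]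
        have : (1 : ℝ) ≤ 2 ^ k := one_le_pow₀ (by norm_num)
        linarith
      have h4 : 0 < Real.log (((2 ^ k : ℕ) : ℝ) + 1) := Real.log_pos (by
        push_cast
        have : (0 : ℝ) < 2 ^ k := by positivity
        linarith)
      have e : Real.log 2 * ((2 : ℝ) ^ k * (1 / (((2 ^ k : ℕ) : ℝ) * Real.log (((2 ^ k : ℕ) : ℝ) + 1)))) =
          Real.log 2 / Real.log (((2 ^ k : ℕ) : ℝ) + 1) := by
        push_cast
        have : (2 : ℝ) ^ k ≠ 0 := by positivity
        push_cast at h4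
        field_simp
      rw [e, div_le_div_iff₀ (by positivity) h4]
      linarith
    have h5 := (summable_nat_add_iff (f := fun k : ℕ => 1 / (k : ℝ)) 1).1 (by
      refine h1.congr fun k => ?_
      push_cast
      rfl)
    exact Real.not_summable_one_div_natCast h5
  · intro n
    have : 0 ≤ Real.log ((n : ℝ) + 1) := Real.log_nonneg (by have : (0 : ℝ) ≤ n := Nat.cast_nonneg n; linarith)
    positivity
  · intro m n hm hmn
    have hm' : (0 : ℝ) < m := by exact_mod_cast hm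
    have hmn' : (m : ℝ) ≤ n := by exact_mod_cast hmn
    have h1 : 0 < Real.log ((m : ℝ) + 1) := Real.log_pos (by linarith)
    have h2 : Real.log ((m : ℝ) + 1) ≤ Real.log ((n : ℝ) + 1) := Real.log_le_log (by linarith) (by linarith)
    apply one_div_le_one_div_of_le (by positivity)
    exact mul_le_mul hmn' h2 (by positivity) (by linarith)

/-! ## the explicit threshold -/

/-- the comparison sequence -/
noncomputable def lc (c : ℝ) (n : ℕ) : ℝ := min 1 (max 0 ((Real.log n + c * Real.log (Real.log n)) / (2 * √(n : ℝ))))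

lemma lc0 (c : ℝ) (n : ℕ) : 0 ≤ lc c n := le_min zero_le_one (le_max_left _ _)

lemma lc1 (c : ℝ) (n : ℕ) : lc c n ≤ 1 := min_le_left _ _

lemma tendsto_loglog : Tendsto (fun x : ℕ => Real.log (Real.log x)) atTop atTop :=
  Real.tendsto_log_atTop.comp tendsto_logN

lemma log_pow_small (a b : ℝ) : Tendsto (fun x : ℕ => (a * Real.log x + b) ^ 2 / (x : ℝ)) atTop (𝓝 0) := by
  have h1 : Tendsto (fun x : ℝ => (a * Real.log x + b) / x ^ (1 / 2 : ℝ)) atTop (𝓝 0) := by
    have h2 := ((isLittleO_log_rpow_atTop (show (0 : ℝ) < 1 / 2 by norm_num)).tendsto_div_nhds_zero).const_mul a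
    have h3 := (tendsto_const_nhds (x := b)).div_atTop (tendsto_rpow_atTop (show (0 : ℝ) < 1 / 2 by norm_num))
    have h4 := h2.add h3
    rw [mul_zero, add_zero] at h4
    refine h4.congr fun x => ?_
    rw [add_div, mul_div_assoc]
  have h2 := (h1.comp tendsto_natCast_atTop_atTop).pow 2
  rw [zero_pow (by norm_num)] at h2
  refine h2.congr' ?_
  filter_upwards [eventually_gt_atTop 0] with x hx
  have hx' : (0 : ℝ) < x := by exact_mod_cast hx
  simp only [Function.comp]
  rw [div_pow]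
  congr 1
  rw [← Real.rpow_natCast, ← Real.rpow_mul hx'.le]
  norm_num

/-- upper bound for the products -/
theorem opp_up {c : ℝ} (hc : 0 ≤ c) {t : ℕ → ℕ} (ht : ∀ᶠ x : ℕ in atTop, x ^ 2 - x ≤ t x ∧ t x ≤ x ^ 2) :
    ∀ᶠ x : ℕ in atTop, ∏ i ∈ Finset.range (x - 1), (1 - lc c (t x + i)) ≤
      Real.exp 1 * (1 / ((x : ℝ) * Real.log x ^ (c / 2))) := by
  have hl1 : Tendsto (fun x : ℕ => Real.log x / x) atTop (𝓝 0) :=
    (Real.isLittleO_log_id_atTop.tendsto_div_nhds_zero).comp tendsto_natCast_atTop_atTop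
  filter_upwards [ht, hl1.eventually_le_const (show 0 < 1 / (8 * (c + 1)) by positivity),
    tendsto_logN.eventually_ge_atTop 2, eventually_ge_atTop 3] with x hx1 hx2 hL hx3
  have hx' : (3 : ℝ) ≤ x := by exact_mod_cast hx3
  have hx0 : (0 : ℝ) < x := by linarith
  obtain ⟨L, hLd⟩ : ∃ L, L = Real.log (x : ℝ) := ⟨_, rfl⟩
  rw [← hLd] at hx2 hL ⊢
  have hLL0 : 0 < Real.log L := Real.log_pos (by linarith)
  have hLL : Real.log L ≤ L := (Real.log_le_sub_one_of_pos (by linarith)).trans (by linarith)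
  rw [div_le_iff₀ hx0, div_mul_eq_mul_div, one_mul, le_div_iff₀ (by positivity)] at hx2
  set v : ℝ := (2 * L - 1 + c * Real.log L) / (2 * ((x : ℝ) + 1)) with hv
  have hv0 : 0 ≤ v := by
    rw [hv]
    have : 0 ≤ c * Real.log L := by positivity
    exact div_nonneg (by linarith) (by positivity)
  have hcL : c * Real.log L ≤ c * L := mul_le_mul_of_nonneg_left hLL hc
  have hv1 : v ≤ 1 := by
    rw [hv, div_le_one (by positivity)]
    nlinarith
  have h4 : ∏ i ∈ Finset.range (x - 1), (1 - lc c (t x + i)) ≤ ∏ _i ∈ Finset.range (x - 1), Real.exp (-v) := by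
    refine Finset.prod_le_prod (fun i _ => by linarith [lc1 c (t x + i)]) fun i hi => ?_
    have hi' := Finset.mem_range.1 hi
    obtain ⟨n, hn⟩ : ∃ n, n = t x + i := ⟨_, rfl⟩
    rw [← hn]
    have hxx : x ≤ x ^ 2 := Nat.le_self_pow (by norm_num) x
    have hn1 : x ^ 2 ≤ n + x := by omega
    have hn2 : n ≤ x ^ 2 + x := by omega
    have hn1' : (x : ℝ) * (x - 1) ≤ n := by
      have : ((x ^ 2 : ℕ) : ℝ) ≤ ((n + x : ℕ) : ℝ) := by exact_mod_cast hn1
      push_cast at this
      nlinarith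
    have hlogn : 2 * L - 1 ≤ Real.log n := by
      have h1 : Real.log ((x : ℝ) * (x - 1)) ≤ Real.log n := Real.log_le_log (by nlinarith) hn1'
      rw [Real.log_mul (by linarith) (by linarith), ← hLd] at h1
      have h2 : L - Real.log ((x : ℝ) - 1) ≤ 1 := by
        rw [hLd, ← Real.log_div (by linarith) (by linarith)]
        have h3 := Real.log_le_sub_one_of_pos (show 0 < (x : ℝ) / (x - 1) by apply div_pos <;> linarith)
        have h4 : (x : ℝ) / (x - 1) - 1 ≤ 1 := by
          rw [sub_le_iff_le_add, div_le_iff₀ (by linarith)]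
          linarith
        linarith
      linarith
    have hllog : Real.log L ≤ Real.log (Real.log n) := Real.log_le_log (by linarith) (by linarith)
    have hsq : √(n : ℝ) ≤ (x : ℝ) + 1 := by
      rw [Real.sqrt_le_left (by positivity)]
      have : (n : ℝ) ≤ ((x ^ 2 + x : ℕ) : ℝ) := by exact_mod_cast hn2
      push_cast at this
      nlinarith
    have hsq0 : 0 < √(n : ℝ) := Real.sqrt_pos.2 (by nlinarith)
    have h5 : v ≤ lc c n := by
      refine le_min hv1 (le_max_of_le_right ?_)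
      rw [hv]
      have a1 : 2 * L - 1 + c * Real.log L ≤ Real.log n + c * Real.log (Real.log n) := by
        have := mul_le_mul_of_nonneg_left hllog hc
        linarith
      have a2 : 0 ≤ 2 * L - 1 + c * Real.log L := by
        have : 0 ≤ c * Real.log L := by positivity
        linarith
      exact div_le_div₀ (a2.trans a1) a1 (by positivity) (by linarith)
    have h6 := Real.add_one_le_exp (-v)
    linarith
  refine h4.trans ?_
  rw [Finset.prod_const, Finset.card_range, ← Real.exp_nat_mul]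
  have e1 : Real.exp 1 * (1 / ((x : ℝ) * L ^ (c / 2))) = Real.exp (1 - L - c / 2 * Real.log L) := by
    rw [sub_sub, Real.exp_sub, Real.exp_add, mul_comm (c / 2), Real.exp_mul, Real.exp_log (by linarith : 0 < L), hLd,
      Real.exp_log hx0]
    ring
  rw [e1]
  apply Real.exp_le_exp.2
  have hx1' : ((x - 1 : ℕ) : ℝ) = (x : ℝ) - 1 := by
    rw [Nat.cast_sub (by omega)]
    norm_num
  rw [hx1']
  have e2 : ((x : ℝ) - 1) * v = (2 * L - 1 + c * Real.log L) / 2 - (2 * L - 1 + c * Real.log L) / ((x : ℝ) + 1) := by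
    rw [hv]
    field_simp
    ring
  have h7 : (2 * L - 1 + c * Real.log L) / ((x : ℝ) + 1) ≤ 1 / 2 := by
    rw [div_le_iff₀ (by positivity)]
    nlinarith
  have : ((x : ℝ) - 1) * -v = -(((x : ℝ) - 1) * v) := by ring
  rw [this, e2]
  linarith

/-- lower bound for the products -/
theorem opp_low : ∀ᶠ x : ℕ in atTop, Real.exp (-4) * (1 / ((x : ℝ) * Real.log x)) ≤
    ∏ i ∈ Finset.range (x - 1), (1 - lc 2 (x ^ 2 + i)) := by
  filter_upwards [(log_pow_small 4 5).eventually_le_const (show (0 : ℝ) < 1 / 4 by norm_num),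
    tendsto_logN.eventually_ge_atTop 2, eventually_ge_atTop 3] with x hx2 hL hx3
  have hx' : (3 : ℝ) ≤ x := by exact_mod_cast hx3
  have hx0 : (0 : ℝ) < x := by linarith
  obtain ⟨L, hLd⟩ : ∃ L, L = Real.log (x : ℝ) := ⟨_, rfl⟩
  rw [← hLd] at hx2 hL ⊢
  have hLL0 : 0 < Real.log L := Real.log_pos (by linarith)
  have hLL : Real.log L ≤ L := (Real.log_le_sub_one_of_pos (by linarith)).trans (by linarith)
  rw [div_le_iff₀ hx0] at hx2
  set u : ℝ := (2 * L + 2 * Real.log L + 5) / (2 * (x : ℝ)) with hu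
  have hu0 : 0 ≤ u := by positivity
  have hxu : (x : ℝ) * u = L + Real.log L + 5 / 2 := by
    rw [hu]
    field_simp
  have hxu2 : (x : ℝ) * u ^ 2 ≤ 1 / 16 := by
    have e : (x : ℝ) * u ^ 2 = (2 * L + 2 * Real.log L + 5) ^ 2 / (4 * x) := by
      rw [hu]
      field_simp
      ring
    rw [e, div_le_iff₀ (by positivity)]
    have : (2 * L + 2 * Real.log L + 5) ^ 2 ≤ (4 * L + 5) ^ 2 := pow_le_pow_left₀ (by positivity) (by linarith) 2
    linarith
  have hu1 : u ≤ 1 / 4 := by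
    have h1 : u ^ 2 ≤ (1 / 4) ^ 2 := by
      have : 1 * u ^ 2 ≤ (x : ℝ) * u ^ 2 := mul_le_mul_of_nonneg_right (by linarith) (sq_nonneg _)
      linarith
    exact (pow_le_pow_iff_left₀ hu0 (by norm_num) (by norm_num)).1 h1
  have h4 : ∏ _i ∈ Finset.range (x - 1), Real.exp (-(u + 2 * u ^ 2)) ≤ ∏ i ∈ Finset.range (x - 1), (1 - lc 2 (x ^ 2 + i)) := by
    refine Finset.prod_le_prod (fun i _ => (Real.exp_pos _).le) fun i hi => ?_
    have hi' := Finset.mem_range.1 hi
    obtain ⟨n, hn⟩ : ∃ n, n = x ^ 2 + i := ⟨_, rfl⟩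
    rw [← hn]
    have hn1 : x ^ 2 ≤ n := by omega
    have hn2 : n ≤ x ^ 2 + x := by omega
    have hn1' : (x : ℝ) ^ 2 ≤ n := by exact_mod_cast hn1
    have hn2' : (n : ℝ) ≤ (x : ℝ) ^ 2 + x := by exact_mod_cast hn2
    have hn0 : (0 : ℝ) < n := by nlinarith
    have hlogn : Real.log n ≤ 2 * L + 1 := by
      have h1 : (n : ℝ) ≤ (x : ℝ) ^ 2 * Real.exp 1 := by
        have : 2 ≤ Real.exp 1 := by have := Real.add_one_le_exp (1 : ℝ); linarith
        nlinarith [sq_nonneg (x : ℝ)]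
      have h2 := Real.log_le_log hn0 h1
      rw [Real.log_mul (by positivity) (by positivity), Real.log_exp, Real.log_pow, ← hLd] at h2
      push_cast at h2
      exact h2
    have hlogn0 : 2 * L ≤ Real.log n := by
      have h2 := Real.log_le_log (by positivity) hn1'
      rw [Real.log_pow, ← hLd] at h2
      push_cast at h2
      exact h2
    have hllog : Real.log (Real.log n) ≤ Real.log L + 2 := by
      have h1 : Real.log n ≤ L * Real.exp 2 := by
        have : 3 ≤ Real.exp 2 := by have := Real.add_one_le_exp (2 : ℝ); linarith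
        nlinarith
      have h2 := Real.log_le_log (by linarith) h1
      rw [Real.log_mul (by linarith) (by positivity), Real.log_exp] at h2
      exact h2
    have hsq : (x : ℝ) ≤ √(n : ℝ) := Real.le_sqrt_of_sq_le hn1'
    have h5 : lc 2 n ≤ u := by
      refine (min_le_right _ _).trans (max_le hu0 ?_)
      rw [hu]
      exact div_le_div₀ (by positivity) (by linarith) (by positivity) (by linarith)
    have hpos : 0 < 1 - u := by linarith
    have h6 : 1 - (1 - u)⁻¹ ≤ Real.log (1 - u) := Real.one_sub_inv_le_log_of_pos hpos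
    have h7 : (1 - u)⁻¹ ≤ 1 + u + 2 * u ^ 2 := by
      rw [inv_le_iff_one_le_mul₀ hpos]
      nlinarith [mul_nonneg hu0 hu0, mul_nonneg (mul_nonneg hu0 hu0) hu0]
    calc Real.exp (-(u + 2 * u ^ 2)) ≤ Real.exp (Real.log (1 - u)) := Real.exp_le_exp.2 (by linarith)
      _ = 1 - u := Real.exp_log hpos
      _ ≤ _ := by linarith
  refine le_trans ?_ h4
  rw [Finset.prod_const, Finset.card_range, ← Real.exp_nat_mul]
  have e1 : Real.exp (-4) * (1 / ((x : ℝ) * L)) = Real.exp (-4 - L - Real.log L) := by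
    rw [sub_sub, Real.exp_sub, Real.exp_add, Real.exp_log (by linarith : 0 < L), hLd, Real.exp_log hx0]
    ring
  rw [e1]
  apply Real.exp_le_exp.2
  have hx1' : ((x - 1 : ℕ) : ℝ) ≤ (x : ℝ) := by exact_mod_cast Nat.sub_le _ _
  have h7 : ((x - 1 : ℕ) : ℝ) * (u + 2 * u ^ 2) ≤ (x : ℝ) * (u + 2 * u ^ 2) :=
    mul_le_mul_of_nonneg_right hx1' (by positivity)
  have h8 : (x : ℝ) * (u + 2 * u ^ 2) = (x : ℝ) * u + 2 * ((x : ℝ) * u ^ 2) := by ring
  have : ((x - 1 : ℕ) : ℝ) * -(u + 2 * u ^ 2) = -(((x - 1 : ℕ) : ℝ) * (u + 2 * u ^ 2)) := by ring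
  rw [this]
  linarith

/-- above the threshold -/
theorem opp_above (hA : ∀ n, MeasurableSet[ℱ n] (A n)) {c : ℝ} (hc : 2 < c)
    (hge : ∀ᵐ ω ∂μ, ∀ᶠ n : ℕ in atTop, (Real.log n + c * Real.log (Real.log n)) / (2 * √(n : ℝ)) ≤ dens μ ℱ A n ω) :
    ∀ᵐ ω ∂μ, ∀ᶠ x in atTop, Opp {k | ω ∈ A k} x := by
  have h01 : ∀ᵐ ω ∂μ, ∀ n, 0 ≤ dens μ ℱ A n ω ∧ dens μ ℱ A n ω ≤ 1 := ae_all_iff.2 fun n => dens01 hA n
  have hge' : ∀ᵐ ω ∂μ, ∀ᶠ n in atTop, lc c n ≤ dens μ ℱ A n ω := by
    filter_upwards [hge, h01] with ω hω h2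
    filter_upwards [hω] with n hn
    exact (min_le_right _ _).trans (max_le (h2 n).1 hn)
  have hsum : ∀ t : ℕ → ℕ, (∀ᶠ x : ℕ in atTop, x ^ 2 - x ≤ t x ∧ t x ≤ x ^ 2) →
      Summable (fun x => ∏ i ∈ Finset.range (x - 1), (1 - lc c (t x + i))) := by
    intro t ht
    have h1 : Summable (fun n : ℕ => Real.exp 1 * 2 ^ (c / 2) * (1 / ((n : ℝ) * Real.log ((n : ℝ) + 1) ^ (c / 2)))) :=
      (ser_conv (show 1 < c / 2 by linarith)).mul_left _
    refine Summable.of_norm_bounded_eventually_nat h1 ?_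
    filter_upwards [opp_up (show 0 ≤ c by linarith) ht, eventually_ge_atTop 3] with x hx hx3
    have hx' : (3 : ℝ) ≤ x := by exact_mod_cast hx3
    rw [Real.norm_of_nonneg (Finset.prod_nonneg fun i _ => by linarith [lc1 c (t x + i)])]
    refine hx.trans ?_
    have hL : 0 < Real.log x := Real.log_pos (by linarith)
    have h2 : Real.log ((x : ℝ) + 1) ≤ 2 * Real.log x := by
      have : Real.log ((x : ℝ) + 1) ≤ Real.log ((x : ℝ) ^ 2) := Real.log_le_log (by linarith) (by nlinarith)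
      rw [Real.log_pow] at this
      push_cast at this
      exact this
    have h3 : 0 < Real.log ((x : ℝ) + 1) := Real.log_pos (by linarith)
    have h4 : Real.log ((x : ℝ) + 1) ^ (c / 2) ≤ 2 ^ (c / 2) * Real.log x ^ (c / 2) := by
      rw [← Real.mul_rpow (by norm_num) hL.le]
      exact Real.rpow_le_rpow h3.le h2 (by linarith)
    rw [mul_assoc]
    apply mul_le_mul_of_nonneg_left _ (Real.exp_pos 1).le
    rw [mul_one_div, div_le_div_iff₀ (by positivity) (by positivity)]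
    nlinarith [mul_le_mul_of_nonneg_left h4 (show (0 : ℝ) ≤ x by linarith)]
  have e1 := win_fin (μ := μ) hA (lc1 c) hge' (t := fun x => x ^ 2 - x) (g := fun x => x - 1) sq_sub_top
    (hsum _ (Eventually.of_forall fun x => ⟨le_rfl, Nat.sub_le _ _⟩))
  have e2 := win_fin (μ := μ) hA (lc1 c) hge' (t := fun x => x ^ 2) (g := fun x => x - 1) sq_top
    (hsum _ (Eventually.of_forall fun x => ⟨Nat.sub_le _ _, le_rfl⟩))
  filter_upwards [e1, e2] with ω h2 h3
  filter_upwards [h2, h3, eventually_ge_atTop 1] with x h4 h5 hx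
  have h6 : x ≤ x ^ 2 := Nat.le_self_pow (by norm_num) x
  obtain ⟨r, r1, r2, r3⟩ := h4
  obtain ⟨s, s1, s2, s3⟩ := h5
  exact ⟨⟨r, r3, r1, by omega⟩, ⟨s, s3, s1, by omega⟩⟩

/-- at and below the threshold -/
theorem opp_below (hA : ∀ n, MeasurableSet[ℱ n] (A n))
    (hle : ∀ᵐ ω ∂μ, ∀ᶠ n : ℕ in atTop, dens μ ℱ A n ω ≤ (Real.log n + 2 * Real.log (Real.log n)) / (2 * √(n : ℝ))) :
    ∀ᵐ ω ∂μ, ∃ᶠ x in atTop, ¬ Opp {k | ω ∈ A k} x := by
  have h01 : ∀ᵐ ω ∂μ, ∀ n, 0 ≤ dens μ ℱ A n ω ∧ dens μ ℱ A n ω ≤ 1 := ae_all_iff.2 fun n => dens01 hA n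
  have hle' : ∀ᵐ ω ∂μ, ∀ᶠ n in atTop, dens μ ℱ A n ω ≤ lc 2 n := by
    filter_upwards [hle, h01] with ω hω h2
    filter_upwards [hω] with n hn
    exact le_min (h2 n).2 (le_max_of_le_right hn)
  have hp0 : ∀ x : ℕ, 0 ≤ ∏ i ∈ Finset.range (x - 1), (1 - lc 2 (x ^ 2 + i)) := fun x =>
    Finset.prod_nonneg fun i _ => by linarith [lc1 2 (x ^ 2 + i)]
  have e1 := win_io (μ := μ) hA (lc0 2) (lc1 2) hle'
      (t := fun x => x ^ 2) (g := fun x => x - 1) sq_top (fun k => by
        have h3 : (k + 1) ^ 2 = k ^ 2 + 2 * k + 1 := by ring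
        show k ^ 2 + (k - 1) ≤ (k + 1) ^ 2
        omega) (by
        rw [← not_summable_iff_tendsto_nat_atTop_of_nonneg hp0]
        intro hcon
        apply ser_div
        refine Summable.of_norm_bounded_eventually_nat (hcon.mul_left (Real.exp 4)) ?_
        filter_upwards [opp_low, eventually_ge_atTop 3] with x hx hx3
        have hx' : (3 : ℝ) ≤ x := by exact_mod_cast hx3
        have hL : 0 < Real.log x := Real.log_pos (by linarith)
        have h2 : Real.log x ≤ Real.log ((x : ℝ) + 1) := Real.log_le_log (by linarith) (by linarith)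
        have h3 : 0 < Real.log ((x : ℝ) + 1) := by linarith
        rw [Real.norm_of_nonneg (by positivity)]
        have h4 := mul_le_mul_of_nonneg_left hx (Real.exp_pos 4).le
        rw [← mul_assoc, ← Real.exp_add] at h4
        norm_num at h4
        refine le_trans ?_ h4
        rw [one_div, mul_inv, mul_comm (x : ℝ)⁻¹]
        exact mul_le_mul_of_nonneg_right (inv_anti₀ hL h2) (inv_nonneg.2 (by linarith)))
  filter_upwards [e1] with ω hω
  refine (hω.and_eventually (eventually_ge_atTop 1)).mono fun x hx => ?_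
  rintro ⟨_, ⟨q, q1, q2, q3⟩⟩
  have hx1 := hx.2
  exact hx.1 q q2 (by omega) q1

/-- models with the density of the primes are far above the threshold -/
theorem opp_primes (hA : ∀ n, MeasurableSet[ℱ n] (A n))
    (hd : ∀ᵐ ω ∂μ, Tendsto (fun n : ℕ => dens μ ℱ A n ω * Real.log n) atTop (𝓝 1)) :
    ∀ᵐ ω ∂μ, ∀ᶠ x in atTop, Opp {k | ω ∈ A k} x := by
  refine opp_above hA (c := 3) (by norm_num) ?_
  filter_upwards [hd] with ω hω
  have h0 : Tendsto (fun x : ℝ => Real.log x ^ 4 / x) atTop (𝓝 0) :=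
    (Real.isLittleO_pow_log_id_atTop (n := 4)).tendsto_div_nhds_zero
  filter_upwards [hω.eventually_const_le (show (1 / 2 : ℝ) < 1 by norm_num), tendsto_logN.eventually_ge_atTop 2,
    (h0.comp tendsto_natCast_atTop_atTop).eventually_le_const (show (0 : ℝ) < 1 / 16 by norm_num),
    eventually_ge_atTop 3] with n hn hL h2 hn3
  have hn' : (3 : ℝ) ≤ n := by exact_mod_cast hn3
  simp only [Function.comp] at h2
  rw [div_le_iff₀ (by linarith)] at h2
  have hLL : Real.log (Real.log n) ≤ Real.log n := (Real.log_le_sub_one_of_pos (by linarith)).trans (by linarith)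
  have hsq : 4 * Real.log n ^ 2 ≤ √(n : ℝ) := by
    apply Real.le_sqrt_of_sq_le
    nlinarith
  have hL0 : 0 < Real.log n := by linarith
  have hs0 : 0 < √(n : ℝ) := Real.sqrt_pos.2 (by linarith)
  rw [div_le_iff₀ (by positivity)]
  have h3 : 1 / 2 * √(n : ℝ) ≤ dens μ ℱ A n ω * Real.log n * √(n : ℝ) := mul_le_mul_of_nonneg_right hn hs0.le
  have h4 : Real.log n * (4 * Real.log n) ≤ Real.log n * (dens μ ℱ A n ω * (2 * √(n : ℝ))) := by
    nlinarith
  have h5 := le_of_mul_le_mul_left h4 hL0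
  linarith

end Pool.Agent.N417.SM
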