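import Mathlib
import Pool.Agent.R528.RM.Azuma
import Pool.Agent.N740.HK.Tgt

/-!
# The exponential law for the gaps in sequential random models
-/

set_option autoImplicit false
set_option linter.unusedSectionVars false

open MeasureTheory Filter Set
open scoped Topology ENNReal

namespace Pool.Agent.N417.SM

open Pool.Agent.R528.RM Pool.Agent.N740.HK

variable {Ω : Type} {m0 : MeasurableSpace Ω} {μ : Measure Ω} [IsProbabilityMeasure μ]
  {ℱ : Filtration ℕ m0} {A : ℕ → Set Ω}

open Classical in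
/-- `1` if none of the last `s` integers up to `m` is in `S` -/
noncomputable def vs (S : Set ℕ) (s m : ℕ) : ℝ := if ∀ r, r ≤ m → m < r + s → r ∉ S then 1 else 0

open Classical in
/-- the indicator -/
noncomputable def chi (S : Set ℕ) (m : ℕ) : ℝ := if m ∈ S then 1 else 0

noncomputable def cc (S : Set ℕ) (M s : ℕ) : ℝ := ∑ m ∈ Finset.range M, vs S s m

noncomputable def aa (S : Set ℕ) (M s : ℕ) : ℝ := ∑ m ∈ Finset.range M, vs S s m * chi S (m + 1)

lemma vs01 (S : Set ℕ) (s m : ℕ) : 0 ≤ vs S s m ∧ vs S s m ≤ 1 := by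
  unfold vs; split_ifs <;> norm_num

lemma chi01 (S : Set ℕ) (m : ℕ) : 0 ≤ chi S m ∧ chi S m ≤ 1 := by
  unfold chi; split_ifs <;> norm_num

lemma vs_zero (S : Set ℕ) (m : ℕ) : vs S 0 m = 1 := by
  unfold vs
  rw [if_pos]
  intro r h1 h2
  omega

lemma vs_succ (S : Set ℕ) (s m : ℕ) : vs S (s + 1) (m + 1) = vs S s m * (1 - chi S (m + 1)) := by
  unfold vs chi
  by_cases h1 : m + 1 ∈ S
  · rw [if_pos h1, if_neg]
    · ring
    · intro h
      exact h (m + 1) le_rfl (by omega) h1
  · rw [if_neg h1]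
    by_cases h2 : ∀ r, r ≤ m → m < r + s → r ∉ S
    · rw [if_pos h2, if_pos]
      · ring
      · intro r hr1 hr2
        rcases Nat.lt_or_ge m r with h | h
        · obtain rfl : r = m + 1 := by omega
          exact h1
        · exact h2 r h (by omega)
    · rw [if_neg h2, if_neg]
      · ring
      · intro h
        apply h2
        intro r hr1 hr2
        exact h r (by omega) (by omega)

lemma tele (S : Set ℕ) (M s : ℕ) : |aa S M s - (cc S M s - cc S M (s + 1))| ≤ 1 := by
  have h1 : cc S M s - aa S M s = cc S M (s + 1) + vs S (s + 1) M - vs S (s + 1) 0 := by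
    have h2 : cc S M s - aa S M s = ∑ m ∈ Finset.range M, vs S (s + 1) (m + 1) := by
      unfold cc aa
      rw [← Finset.sum_sub_distrib]
      refine Finset.sum_congr rfl fun m _ => ?_
      rw [vs_succ]
      ring
    rw [h2]
    have h3 := Finset.sum_range_succ' (fun m => vs S (s + 1) m) M
    have h4 := Finset.sum_range_succ (fun m => vs S (s + 1) m) M
    unfold cc
    linarith
  have h5 := vs01 S (s + 1) M
  have h6 := vs01 S (s + 1) 0
  rw [abs_le]
  constructor <;> linarith

lemma solve {S : Set ℕ} {M s₀ : ℕ} {L E : ℝ} (hL : 1 ≤ L)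
    (h : ∀ s, s < s₀ → |aa S M s - cc S M s / L| ≤ E) :
    ∀ s, s ≤ s₀ → |cc S M s - M * (1 - 1 / L) ^ s| ≤ s * (E + 1) := by
  intro s
  induction s with
  | zero =>
    intro _
    have : cc S M 0 = M := by
      unfold cc
      simp [vs_zero]
    rw [this]
    simp
  | succ s ih =>
    intro hs
    have h1 := ih (by omega)
    have h2 := h s (by omega)
    have h3 := tele S M s
    have hL0 : 0 < L := by linarith
    have hq0 : 0 ≤ 1 - 1 / L := by
      have : 1 / L ≤ 1 := by rw [div_le_one hL0]; exact hL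
      linarith
    have hq1 : 1 - 1 / L ≤ 1 := by
      have : 0 ≤ 1 / L := by positivity
      linarith
    have e : cc S M (s + 1) - M * (1 - 1 / L) ^ (s + 1) =
        (1 - 1 / L) * (cc S M s - M * (1 - 1 / L) ^ s) - (aa S M s - cc S M s / L) +
        (aa S M s - (cc S M s - cc S M (s + 1))) := by
      rw [pow_succ]
      ring
    rw [e]
    have h4 : |(1 - 1 / L) * (cc S M s - M * (1 - 1 / L) ^ s)| ≤ s * (E + 1) := by
      rw [abs_mul, abs_of_nonneg hq0]
      calc (1 - 1 / L) * |cc S M s - M * (1 - 1 / L) ^ s| ≤ 1 * |cc S M s - M * (1 - 1 / L) ^ s| :=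
            mul_le_mul_of_nonneg_right hq1 (abs_nonneg _)
        _ = |cc S M s - M * (1 - 1 / L) ^ s| := one_mul _
        _ ≤ _ := h1
    have h5 := abs_add_le ((1 - 1 / L) * (cc S M s - M * (1 - 1 / L) ^ s) - (aa S M s - cc S M s / L))
      (aa S M s - (cc S M s - cc S M (s + 1)))
    have h6 := abs_sub ((1 - 1 / L) * (cc S M s - M * (1 - 1 / L) ^ s)) (aa S M s - cc S M s / L)
    push_cast
    linarith

/-- the exponential law, in terms of the integers -/
def Ex (S : Set ℕ) : Prop := ∀ (lam : ℝ), ∀ s : ℕ → ℕ,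
  Tendsto (fun M : ℕ => (s M : ℝ) / Real.log M) atTop (𝓝 lam) →
    Tendsto (fun M : ℕ => aa S M (s M) * Real.log M / M) atTop (𝓝 (Real.exp (-lam)))

theorem ex_of {S : Set ℕ} {E : ℕ → ℝ}
    (hE : Tendsto (fun M : ℕ => E M * Real.log M / M) atTop (𝓝 0))
    (h : ∀ᶠ M : ℕ in atTop, ∀ s, s ≤ M → |aa S M s - cc S M s / Real.log M| ≤ E M) : Ex S := by
  intro lam s hs
  have hlog := tendsto_logN
  -- (1 - 1/L)^s → exp (-lam)
  have hlog1 : Tendsto (fun M : ℕ => Real.log M * Real.log (1 - 1 / Real.log M)) atTop (𝓝 (-1)) := by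
    have h1 := Real.tendsto_mul_log_one_add_div_atTop (-1)
    have h2 := h1.comp hlog
    refine h2.congr fun M => ?_
    simp only [Function.comp]
    rw [neg_div, ← sub_eq_add_neg]
  have hpow : Tendsto (fun M : ℕ => (1 - 1 / Real.log M) ^ (s M)) atTop (𝓝 (Real.exp (-lam))) := by
    have h1 : Tendsto (fun M : ℕ => (s M : ℝ) / Real.log M * (Real.log M * Real.log (1 - 1 / Real.log M))) atTop
        (𝓝 (lam * (-1))) := hs.mul hlog1
    have h2 := (Real.continuous_exp.tendsto _).comp h1
    rw [mul_neg_one] at h2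
    refine h2.congr' ?_
    filter_upwards [hlog.eventually_gt_atTop 1] with M hM
    simp only [Function.comp]
    have hpos : 0 < 1 - 1 / Real.log M := by
      have : 1 / Real.log M < 1 := by rw [div_lt_one (by linarith)]; exact hM
      linarith
    have e : (s M : ℝ) / Real.log M * (Real.log M * Real.log (1 - 1 / Real.log M)) =
        (s M : ℝ) * Real.log (1 - 1 / Real.log M) := by
      field_simp
    rw [e, mul_comm, Real.exp_mul, Real.exp_log hpos, Real.rpow_natCast]
  have hlm : Tendsto (fun M : ℕ => Real.log M / M) atTop (𝓝 0) :=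
    (Real.isLittleO_log_id_atTop.tendsto_div_nhds_zero).comp tendsto_natCast_atTop_atTop
  -- s ≤ M
  have hsM : Tendsto (fun M : ℕ => (s M : ℝ) / M) atTop (𝓝 0) := by
    have h1 := hs.mul hlm
    rw [mul_zero] at h1
    refine h1.congr' ?_
    filter_upwards [hlog.eventually_gt_atTop 0, eventually_gt_atTop 0] with M hM hM0
    have : (0 : ℝ) < M := by exact_mod_cast hM0
    field_simp
  have hsle : ∀ᶠ M : ℕ in atTop, s M ≤ M := by
    filter_upwards [hsM.eventually_lt_const (show (0 : ℝ) < 1 by norm_num), eventually_gt_atTop 0] with M hM hM0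
    have : (0 : ℝ) < M := by exact_mod_cast hM0
    rw [div_lt_one this] at hM
    exact_mod_cast hM.le
  have herr : Tendsto (fun M : ℕ => (s M : ℝ) * (E M + 1) / M) atTop (𝓝 0) := by
    have h1 := (hs.mul hE).add hsM
    rw [mul_zero, add_zero] at h1
    refine h1.congr' ?_
    filter_upwards [hlog.eventually_gt_atTop 0, eventually_gt_atTop 0] with M hM hM0
    have : (0 : ℝ) < M := by exact_mod_cast hM0
    field_simp
  have hc : Tendsto (fun M : ℕ => cc S M (s M) / M) atTop (𝓝 (Real.exp (-lam))) := by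
    have h1 : Tendsto (fun M : ℕ => cc S M (s M) / M - (1 - 1 / Real.log M) ^ (s M)) atTop (𝓝 0) := by
      refine squeeze_zero_norm' ?_ herr
      filter_upwards [h, hsle, hlog.eventually_ge_atTop 1, eventually_gt_atTop 0] with M h1 h2 h3 hM0
      have hM0' : (0 : ℝ) < M := by exact_mod_cast hM0
      have h4 := solve (s₀ := s M) h3 (fun s' hs' => h1 s' (by omega)) (s M) le_rfl
      have e : cc S M (s M) / M - (1 - 1 / Real.log M) ^ (s M) =
          (cc S M (s M) - M * (1 - 1 / Real.log M) ^ (s M)) / M := by field_simp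
      rw [e, Real.norm_eq_abs, abs_div, abs_of_pos hM0']
      exact div_le_div_of_nonneg_right h4 hM0'.le
    have h2 := h1.add hpow
    rw [zero_add] at h2
    refine h2.congr fun M => ?_
    ring
  have h1 : Tendsto (fun M : ℕ => aa S M (s M) * Real.log M / M - cc S M (s M) / M) atTop (𝓝 0) := by
    refine squeeze_zero_norm' ?_ hE
    filter_upwards [h, hsle, hlog.eventually_ge_atTop 1, eventually_gt_atTop 0] with M h1 h2 h3 hM0
    have hM0' : (0 : ℝ) < M := by exact_mod_cast hM0
    have hL0 : 0 < Real.log M := by linarith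
    have e : aa S M (s M) * Real.log M / M - cc S M (s M) / M =
        (aa S M (s M) - cc S M (s M) / Real.log M) * (Real.log M / M) := by field_simp
    rw [e, Real.norm_eq_abs, abs_mul, abs_of_pos (show 0 < Real.log M / M by positivity), mul_div_assoc]
    exact mul_le_mul_of_nonneg_right (h1 _ h2) (by positivity)
  have h2 := h1.add hc
  rw [zero_add] at h2
  refine h2.congr fun M => ?_
  ring

/-! ## The random part -/

/-- the event that none of the last `s` integers up to `m` is chosen -/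
def Vd (A : ℕ → Set Ω) (s m : ℕ) : Set Ω := {ω | ∀ r, r ≤ m → m < r + s → ω ∉ A r}

lemma Vd_meas (hA : ∀ n, MeasurableSet[ℱ n] (A n)) (s m : ℕ) : MeasurableSet[ℱ m] (Vd A s m) := by
  have h : Vd A s m = ⋂ r ∈ {r : ℕ | r ≤ m ∧ m < r + s}, (A r)ᶜ := by
    ext ω
    simp only [mem_iInter, mem_compl_iff]
    constructor
    · intro h r hr
      exact h r hr.1 hr.2
    · intro h r h1 h2
      exact h r ⟨h1, h2⟩
  rw [h]
  refine MeasurableSet.biInter (to_countable _) fun r hr => ?_
  exact (ℱ.mono hr.1 _ (hA r)).compl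

/-- the weights -/
noncomputable def vw (A : ℕ → Set Ω) (s m : ℕ) : Ω → ℝ := (Vd A s m).indicator (fun _ => (1 : ℝ))

lemma vw_eq (s m : ℕ) (ω : Ω) : vw A s m ω = vs {k | ω ∈ A k} s m := by
  unfold vw vs
  by_cases h : ω ∈ Vd A s m
  · rw [indicator_of_mem h, if_pos]
    exact h
  · rw [indicator_of_notMem h, if_neg]
    exact h

lemma vw_meas (hA : ∀ n, MeasurableSet[ℱ n] (A n)) (s m : ℕ) : StronglyMeasurable[ℱ m] (vw A s m) :=
  (@stronglyMeasurable_const _ _ (ℱ m) _ _).indicator (Vd_meas hA s m)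

lemma vw_abs (s m : ℕ) (ω : Ω) : |vw A s m ω| ≤ 1 := by
  rw [vw_eq, abs_of_nonneg (vs01 _ _ _).1]
  exact (vs01 _ _ _).2

lemma exp_bd {M : ℕ} (hM : 1 ≤ M) :
    ((M : ℝ) + 1) * (2 * Real.exp (-(√(M : ℝ) / 2))) ≤ 41287680 * (1 / (M : ℝ) ^ 3) := by
  have hM' : (1 : ℝ) ≤ M := by exact_mod_cast hM
  have h1 := Real.pow_div_factorial_le_exp (√(M : ℝ) / 2) (by positivity) 8
  have h2 : (√(M : ℝ) / 2) ^ 8 = (M : ℝ) ^ 4 / 256 := by
    rw [div_pow, show (√(M : ℝ)) ^ 8 = ((√(M : ℝ)) ^ 2) ^ 4 by ring, Real.sq_sqrt (by positivity)]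
    norm_num
  rw [h2] at h1
  have h3 : ((Nat.factorial 8 : ℕ) : ℝ) = 40320 := by norm_num [Nat.factorial]
  rw [h3] at h1
  have h4 : Real.exp (-(√(M : ℝ) / 2)) ≤ 10321920 / (M : ℝ) ^ 4 := by
    rw [Real.exp_neg, inv_le_comm₀ (Real.exp_pos _) (by positivity)]
    refine le_trans (le_of_eq ?_) h1
    field_simp
    norm_num
  calc ((M : ℝ) + 1) * (2 * Real.exp (-(√(M : ℝ) / 2))) ≤ (2 * M) * (2 * (10321920 / (M : ℝ) ^ 4)) := by
        apply mul_le_mul (by linarith) _ (by positivity) (by positivity)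
        linarith
    _ = 41287680 * (1 / (M : ℝ) ^ 3) := by
        field_simp
        norm_num

theorem conc (hA : ∀ n, MeasurableSet[ℱ n] (A n)) :
    ∀ᵐ ω ∂μ, ∀ᶠ M : ℕ in atTop, ∀ s, s ≤ M → |Sw μ ℱ A 0 (fun m => vw A s m) M ω| < (M : ℝ) ^ (3 / 4 : ℝ) := by
  set B : ℕ → Set Ω := fun M => ⋃ s ∈ Finset.range (M + 1),
    {ω | (M : ℝ) ^ (3 / 4 : ℝ) ≤ |Sw μ ℱ A 0 (fun m => vw A s m) M ω|} with hB
  have hbd : ∀ M, 1 ≤ M → μ.real (B M) ≤ 41287680 * (1 / (M : ℝ) ^ 3) := by
    intro M hM
    have hM' : (1 : ℝ) ≤ M := by exact_mod_cast hM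
    have h1 : μ.real (B M) ≤ ∑ s ∈ Finset.range (M + 1),
        μ.real {ω | (M : ℝ) ^ (3 / 4 : ℝ) ≤ |Sw μ ℱ A 0 (fun m => vw A s m) M ω|} :=
      measureReal_biUnion_finset_le _ _
    have h2 : ∀ s ∈ Finset.range (M + 1),
        μ.real {ω | (M : ℝ) ^ (3 / 4 : ℝ) ≤ |Sw μ ℱ A 0 (fun m => vw A s m) M ω|} ≤ 2 * Real.exp (-(√(M : ℝ) / 2)) := by
      intro s _
      have h3 := Sw_tail (μ := μ) hA 0 (fun m => vw A s m) (fun k => by
        rw [zero_add]; exact vw_meas hA s k) (fun k ω => vw_abs s k ω) M (by omega)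
        (lam := (M : ℝ) ^ (3 / 4 : ℝ)) (by positivity)
      refine h3.trans (le_of_eq ?_)
      congr 2
      have h4 : ((M : ℝ) ^ (3 / 4 : ℝ)) ^ 2 = √(M : ℝ) * M := by
        rw [← Real.rpow_natCast, ← Real.rpow_mul (by positivity), Real.sqrt_eq_rpow]
        nth_rewrite 3 [← Real.rpow_one (M : ℝ)]
        rw [← Real.rpow_add (by linarith)]
        norm_num
      rw [h4]
      field_simp
    refine h1.trans ((Finset.sum_le_sum h2).trans ?_)
    rw [Finset.sum_const, Finset.card_range, nsmul_eq_mul]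
    push_cast
    exact exp_bd hM
  have hsum : ∑' M, μ (B M) ≠ ∞ := by
    have h1 : Summable (fun M : ℕ => (41287680 : ℝ) * (1 / (M : ℝ) ^ 3)) :=
      (Real.summable_one_div_nat_pow.2 (by norm_num)).mul_left _
    have h2 : Summable (fun M : ℕ => μ.real (B M)) := by
      refine Summable.of_norm_bounded_eventually_nat h1 ?_
      filter_upwards [eventually_ge_atTop 1] with M hM
      rw [Real.norm_of_nonneg measureReal_nonneg]
      exact hbd M hM
    have h3 : ∀ M, μ (B M) = ENNReal.ofReal (μ.real (B M)) := fun M => by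
      rw [ofReal_measureReal (measure_ne_top _ _)]
    simp_rw [h3]
    exact h2.tsum_ofReal_ne_top
  filter_upwards [ae_eventually_notMem hsum] with ω hω
  filter_upwards [hω] with M hM s hs
  simp only [hB, mem_iUnion, not_exists] at hM
  have h1 := hM s (Finset.mem_range.2 (by omega))
  exact not_le.1 h1

lemma sum_inv_log (M : ℕ) (hM : 2 ≤ M) : ∑ m ∈ Finset.range M, |1 / Real.log m - 1 / Real.log M| ≤
    (∑ m ∈ Finset.range M, 1 / Real.log m) - M / Real.log M + 4 / Real.log M := by
  have hM' : (2 : ℝ) ≤ M := by exact_mod_cast hM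
  have hL : 0 < Real.log M := Real.log_pos (by linarith)
  have h1 : ∀ m ∈ Finset.range M, |1 / Real.log m - 1 / Real.log M| ≤
      (1 / Real.log m - 1 / Real.log M) + (if m < 2 then 2 / Real.log M else 0) := by
    intro m hm
    have hmM : m < M := Finset.mem_range.1 hm
    by_cases h2 : m < 2
    · rw [if_pos h2]
      have h0 : Real.log m = 0 := by interval_cases m <;> simp
      rw [h0]
      have : 0 < 1 / Real.log M := by positivity
      rw [div_zero, zero_sub, abs_neg, abs_of_pos this]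
      have e : 2 / Real.log M = 2 * (1 / Real.log M) := by ring
      rw [e]
      linarith
    · rw [if_neg h2]
      have hm2 : (2 : ℝ) ≤ m := by exact_mod_cast (not_lt.1 h2)
      have hmM' : (m : ℝ) ≤ M := by exact_mod_cast hmM.le
      have h3 : 0 < Real.log m := Real.log_pos (by linarith)
      have h4 : Real.log m ≤ Real.log M := Real.log_le_log (by linarith) hmM'
      have h5 : 1 / Real.log M ≤ 1 / Real.log m := one_div_le_one_div_of_le h3 h4
      rw [abs_of_nonneg (by linarith)]
      linarith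
  refine (Finset.sum_le_sum h1).trans ?_
  rw [Finset.sum_add_distrib, Finset.sum_sub_distrib, Finset.sum_const, Finset.card_range, nsmul_eq_mul,
    ← Finset.sum_filter, Finset.sum_const, nsmul_eq_mul]
  have h2 : ((Finset.range M).filter (fun m => m < 2)).card ≤ 2 := by
    have : ((Finset.range M).filter (fun m => m < 2)) ⊆ Finset.range 2 := fun m hm =>
      Finset.mem_range.2 (Finset.mem_filter.1 hm).2
    have := Finset.card_le_card this
    simpa using this
  have h3 : (((Finset.range M).filter (fun m => m < 2)).card : ℝ) ≤ 2 := by exact_mod_cast h2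
  have h4 : (((Finset.range M).filter (fun m => m < 2)).card : ℝ) * (2 / Real.log M) ≤ 2 * (2 / Real.log M) :=
    mul_le_mul_of_nonneg_right h3 (by positivity)
  have e1 : (M : ℝ) * (1 / Real.log M) = M / Real.log M := by ring
  have e2 : 2 * (2 / Real.log M) = 4 / Real.log M := by ring
  rw [e1]
  linarith

theorem ex_ae (hA : ∀ n, MeasurableSet[ℱ n] (A n))
    (hd : ∀ᵐ ω ∂μ, Tendsto (fun n : ℕ => dens μ ℱ A n ω * Real.log n) atTop (𝓝 1)) :
    ∀ᵐ ω ∂μ, Ex {k | ω ∈ A k} := by
  have h01 : ∀ᵐ ω ∂μ, ∀ n, 0 ≤ dens μ ℱ A n ω ∧ dens μ ℱ A n ω ≤ 1 := ae_all_iff.2 fun n => dens01 hA n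
  filter_upwards [conc (μ := μ) hA, hd, h01] with ω h1 h2 h3
  set D : ℕ → ℝ := fun n => dens μ ℱ A n ω with hD
  set E : ℕ → ℝ := fun M => (M : ℝ) ^ (3 / 4 : ℝ) + ∑ m ∈ Finset.range M, |D m - 1 / Real.log M| with hE
  have hfar : Tendsto (fun M : ℕ => E M * Real.log M / M) atTop (𝓝 0) := by
    have t1 : Tendsto (fun M : ℕ => (M : ℝ) ^ (3 / 4 : ℝ) * Real.log M / M) atTop (𝓝 0) := by
      have h4 := (isLittleO_log_rpow_atTop (show (0 : ℝ) < 1 / 4 by norm_num)).tendsto_div_nhds_zero
      have h5 := h4.comp tendsto_natCast_atTop_atTop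
      refine h5.congr' ?_
      filter_upwards [eventually_gt_atTop 0] with M hM
      have hM' : (0 : ℝ) < M := by exact_mod_cast hM
      simp only [Function.comp]
      have e : (M : ℝ) = (M : ℝ) ^ (3 / 4 : ℝ) * (M : ℝ) ^ (1 / 4 : ℝ) := by
        rw [← Real.rpow_add hM']
        norm_num
      have h6 : (M : ℝ) ^ (3 / 4 : ℝ) ≠ 0 := by positivity
      have h7 : (M : ℝ) ^ (1 / 4 : ℝ) ≠ 0 := by positivity
      rw [div_eq_div_iff h7 hM'.ne']
      calc Real.log M * (M : ℝ) = Real.log M * ((M : ℝ) ^ (3 / 4 : ℝ) * (M : ℝ) ^ (1 / 4 : ℝ)) := by rw [← e]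
        _ = _ := by ring
    have t2 : Tendsto (fun M : ℕ => (∑ m ∈ Finset.range M, |D m - 1 / Real.log m|) * Real.log M / M) atTop (𝓝 0) := by
      apply avg1 (C := 3)
      · intro n
        have a1 := inv_log_bd n
        have a2 := h3 n
        rw [abs_abs]
        have a3 := abs_sub (D n) (1 / Real.log n)
        have a4 : |D n| ≤ 1 := abs_le.2 ⟨by linarith [a2.1], a2.2⟩
        linarith
      · have a1 := (h2.sub_const 1).abs
        rw [sub_self, abs_zero] at a1
        refine a1.congr' ?_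
        filter_upwards [tendsto_logN.eventually_gt_atTop 0] with n hn
        have e : D n * Real.log n - 1 = (D n - 1 / Real.log n) * Real.log n := by
          field_simp
        rw [e, abs_mul, abs_of_pos hn]
    have t3 : Tendsto (fun M : ℕ => ((∑ m ∈ Finset.range M, 1 / Real.log m) - M / Real.log M + 4 / Real.log M) *
        Real.log M / M) atTop (𝓝 0) := by
      have a1 := (inv_log_law.sub_const 1).add
        ((tendsto_const_div_atTop_nhds_zero_nat (4 : ℝ)))
      rw [sub_self, zero_add] at a1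
      refine a1.congr' ?_
      filter_upwards [tendsto_logN.eventually_gt_atTop 0, eventually_gt_atTop 0] with M hM hM0
      have hM' : (0 : ℝ) < M := by exact_mod_cast hM0
      field_simp
    have t4 := (t1.add t2).add t3
    rw [add_zero, add_zero] at t4
    refine squeeze_zero' ?_ ?_ t4
    · filter_upwards [tendsto_logN.eventually_gt_atTop 0] with M hM
      have : 0 ≤ E M := by
        simp only [hE]
        positivity
      positivity
    · filter_upwards [tendsto_logN.eventually_gt_atTop 0, eventually_ge_atTop 2] with M hM hM2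
      have hM' : (0 : ℝ) < M := by
        have : (2 : ℝ) ≤ M := by exact_mod_cast hM2
        linarith
      have b1 : ∑ m ∈ Finset.range M, |D m - 1 / Real.log M| ≤
          ∑ m ∈ Finset.range M, |D m - 1 / Real.log m| + ∑ m ∈ Finset.range M, |1 / Real.log m - 1 / Real.log M| := by
        rw [← Finset.sum_add_distrib]
        refine Finset.sum_le_sum fun m _ => ?_
        exact abs_sub_le _ _ _
      have b2 := sum_inv_log M hM2
      have b3 : E M ≤ (M : ℝ) ^ (3 / 4 : ℝ) + ∑ m ∈ Finset.range M, |D m - 1 / Real.log m| +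
          ((∑ m ∈ Finset.range M, 1 / Real.log m) - M / Real.log M + 4 / Real.log M) := by
        simp only [hE]
        linarith
      have b4 := mul_le_mul_of_nonneg_right b3 (show 0 ≤ Real.log M / M by positivity)
      have e : E M * Real.log M / M = E M * (Real.log M / M) := by ring
      rw [e]
      refine b4.trans (le_of_eq ?_)
      ring
  refine ex_of hfar ?_
  filter_upwards [h1] with M hM s hs
  have h4 := (hM s hs).le
  have e : aa {k | ω ∈ A k} M s - cc {k | ω ∈ A k} M s / Real.log M =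
      Sw μ ℱ A 0 (fun m => vw A s m) M ω + ∑ m ∈ Finset.range M, vs {k | ω ∈ A k} s m * (D m - 1 / Real.log M) := by
    unfold Sw aa cc
    rw [Finset.sum_div, ← Finset.sum_add_distrib, ← Finset.sum_sub_distrib]
    refine Finset.sum_congr rfl fun m _ => ?_
    show vs {k | ω ∈ A k} s m * chi {k | ω ∈ A k} (m + 1) - vs {k | ω ∈ A k} s m / Real.log M =
      vw A s m ω * ((A (0 + m + 1)).indicator (fun _ => (1 : ℝ)) ω - dens μ ℱ A (0 + m) ω) +
      vs {k | ω ∈ A k} s m * (D m - 1 / Real.log M)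
    rw [vw_eq, zero_add]
    have e1 : (A (m + 1)).indicator (fun _ => (1 : ℝ)) ω = chi {k | ω ∈ A k} (m + 1) := by
      unfold chi
      by_cases h : ω ∈ A (m + 1)
      · rw [indicator_of_mem h, if_pos]
        exact h
      · rw [indicator_of_notMem h, if_neg]
        exact h
    rw [e1]
    simp only [hD]
    ring
  rw [e]
  refine (abs_add_le _ _).trans ?_
  refine add_le_add h4 ((Finset.abs_sum_le_sum_abs _ _).trans (Finset.sum_le_sum fun m _ => ?_))
  rw [abs_mul, abs_of_nonneg (vs01 _ _ _).1]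
  calc vs {k | ω ∈ A k} s m * |D m - 1 / Real.log M| ≤ 1 * |D m - 1 / Real.log M| :=
        mul_le_mul_of_nonneg_right (vs01 _ _ _).2 (abs_nonneg _)
    _ = _ := one_mul _

end Pool.Agent.N417.SM
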