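import Mathlib
import Pool.Agent.N417.SM.Exp

/-!
# The exponential law in terms of the members
-/

set_option autoImplicit false
set_option linter.unusedSectionVars false

open MeasureTheory Filter Set
open scoped Topology

namespace Pool.Agent.N417.SM

open Pool.Agent.R528.RM Pool.Agent.N740.HK

open Classical in
/-- the number of `k < n` for which the difference of the members number `k` and `k + 1` exceeds `s` -/
noncomputable def gc (S : Set ℕ) (n s : ℕ) : ℕ := ((Finset.range n).filter fun k => s < pn S (k + 1) - pn S k).card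

open Classical in
lemma aa_card (S : Set ℕ) (M s : ℕ) : aa S M s =
    (((Finset.range M).filter fun m => m + 1 ∈ S ∧ ∀ r, r ≤ m → m < r + s → r ∉ S).card : ℝ) := by
  unfold aa
  rw [Finset.card_filter]
  push_cast
  refine Finset.sum_congr rfl fun m _ => ?_
  unfold vs chi
  by_cases h1 : m + 1 ∈ S
  · by_cases h2 : ∀ r, r ≤ m → m < r + s → r ∉ S
    · rw [if_pos h1, if_pos h2, if_pos ⟨h1, h2⟩]; norm_num
    · rw [if_neg h2, zero_mul, if_neg (show ¬ (m + 1 ∈ S ∧ ∀ r, r ≤ m → m < r + s → r ∉ S) from fun h => h2 h.2)]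
  · rw [if_neg (show ¬ (m + 1 ∈ S) from h1), mul_zero,
      if_neg (show ¬ (m + 1 ∈ S ∧ ∀ r, r ≤ m → m < r + s → r ∉ S) from fun h => h1 h.1)]

/-- comparison of the two counts -/
lemma aa_gc {S : Set ℕ} (hS : S.Infinite) (n s : ℕ) :
    (gc S n s : ℝ) ≤ aa S (pn S n) s ∧ aa S (pn S n) s ≤ gc S n s + 1 := by
  classical
  have hmono : StrictMono (pn S) := Nat.nth_strictMono hS
  have hmem : ∀ k, pn S k ∈ S := fun k => Nat.nth_mem_of_infinite hS k
  have hcount : ∀ q, q ∈ S → ∃ k, pn S k = q := fun q hq => ⟨Nat.count (· ∈ S) q, Nat.nth_count (p := (· ∈ S)) hq⟩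
  have hbtw : ∀ k r, r ∈ S → r < pn S (k + 1) → r ≤ pn S k := by
    intro k r hr hlt
    obtain ⟨j, rfl⟩ := hcount r hr
    have : j < k + 1 := hmono.lt_iff_lt.1 hlt
    exact hmono.monotone (by omega)
  rw [aa_card]
  set T := (Finset.range (pn S n)).filter fun m => m + 1 ∈ S ∧ ∀ r, r ≤ m → m < r + s → r ∉ S with hT
  set G := (Finset.range n).filter fun k => s < pn S (k + 1) - pn S k with hG
  have hinj : Set.InjOn (fun k => pn S (k + 1) - 1) (G : Set ℕ) := by
    intro a _ b _ hab
    simp only at hab
    have h1 : 0 < pn S (a + 1) := lt_of_le_of_lt (Nat.zero_le _) (hmono (Nat.lt_succ_self a))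
    have h2 : 0 < pn S (b + 1) := lt_of_le_of_lt (Nat.zero_le _) (hmono (Nat.lt_succ_self b))
    have h3 : pn S (a + 1) = pn S (b + 1) := by omega
    have := hmono.injective h3
    omega
  constructor
  · have h1 : (G.image fun k => pn S (k + 1) - 1) ⊆ T := by
      intro m hm
      rw [Finset.mem_image] at hm
      obtain ⟨k, hk, rfl⟩ := hm
      rw [hG, Finset.mem_filter, Finset.mem_range] at hk
      have h2 : pn S k < pn S (k + 1) := hmono (Nat.lt_succ_self k)
      have h3 : pn S (k + 1) ≤ pn S n := hmono.monotone hk.1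
      rw [hT, Finset.mem_filter, Finset.mem_range]
      refine ⟨by omega, ?_, ?_⟩
      · rw [Nat.sub_add_cancel (by omega)]
        exact hmem _
      · intro r hr1 hr2 hr3
        have h4 := hbtw k r hr3 (by omega)
        omega
    have h2 := Finset.card_le_card h1
    rw [Finset.card_image_of_injOn hinj] at h2
    show ((G.card : ℕ) : ℝ) ≤ _
    exact_mod_cast h2
  · have h1 : T ⊆ insert (pn S 0 - 1) (G.image fun k => pn S (k + 1) - 1) := by
      intro m hm
      rw [hT, Finset.mem_filter, Finset.mem_range] at hm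
      obtain ⟨h2, h3, h4⟩ := hm
      obtain ⟨j, hj⟩ := hcount _ h3
      rcases Nat.eq_zero_or_pos j with h0 | h0
      · rw [Finset.mem_insert]
        left
        rw [h0] at hj
        omega
      · obtain ⟨k, rfl⟩ : ∃ k, j = k + 1 := ⟨j - 1, by omega⟩
        rw [Finset.mem_insert]
        right
        rw [Finset.mem_image]
        refine ⟨k, ?_, by omega⟩
        have h5 : pn S k < pn S (k + 1) := hmono (Nat.lt_succ_self k)
        rw [hG, Finset.mem_filter, Finset.mem_range]
        constructor
        · have h6 : pn S (k + 1) ≤ pn S n := by omega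
          have := hmono.le_iff_le.1 h6
          omega
        · by_contra h6
          exact h4 (pn S k) (by omega) (by omega) (hmem k)
    have h2 := (Finset.card_le_card h1).trans (Finset.card_insert_le _ _)
    rw [Finset.card_image_of_injOn hinj] at h2
    have h3 : (T.card : ℝ) ≤ ((G.card + 1 : ℕ) : ℝ) := by exact_mod_cast h2
    push_cast at h3
    exact h3

/-- the number of members -/
lemma pn_law {S : Set ℕ} (hS : S.Infinite) (h : Ex S) :
    Tendsto (fun n : ℕ => (n : ℝ) * Real.log (pn S n) / pn S n) atTop (𝓝 1) := by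
  have ht : Tendsto (pn S) atTop atTop := (Nat.nth_strictMono hS).tendsto_atTop
  have h1 := h 0 (fun _ => 0) (by simp)
  rw [neg_zero, Real.exp_zero] at h1
  have h2 := h1.comp ht
  have hz : Tendsto (fun n : ℕ => Real.log (pn S n) / pn S n) atTop (𝓝 0) :=
    ((Real.isLittleO_log_id_atTop.tendsto_div_nhds_zero).comp tendsto_natCast_atTop_atTop).comp ht
  have h3 := h2.sub hz
  rw [sub_zero] at h3
  have hg : ∀ n, gc S n 0 = n := by
    intro n
    unfold gc
    rw [Finset.filter_true_of_mem, Finset.card_range]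
    intro k _
    have := Nat.nth_strictMono hS (Nat.lt_succ_self k)
    show 0 < pn S (k + 1) - pn S k
    exact Nat.sub_pos_of_lt this
  refine tendsto_of_tendsto_of_tendsto_of_le_of_le' h3 h2 ?_ ?_
  · filter_upwards [(tendsto_logN.comp ht).eventually_gt_atTop 0, ht.eventually_gt_atTop 0] with n hn hn'
    have hn'' : (0 : ℝ) < pn S n := by exact_mod_cast hn'
    have h4 := (aa_gc hS n 0).2
    rw [hg] at h4
    simp only [Function.comp] at hn ⊢
    rw [← sub_div]
    apply div_le_div_of_nonneg_right _ hn''.le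
    nlinarith
  · filter_upwards [(tendsto_logN.comp ht).eventually_gt_atTop 0, ht.eventually_gt_atTop 0] with n hn hn'
    have hn'' : (0 : ℝ) < pn S n := by exact_mod_cast hn'
    have h4 := (aa_gc hS n 0).1
    rw [hg] at h4
    simp only [Function.comp] at hn ⊢
    apply div_le_div_of_nonneg_right _ hn''.le
    exact mul_le_mul_of_nonneg_right h4 hn.le

/-- the exponential law with a threshold which depends on `n` only -/
lemma gc_law {S : Set ℕ} (hS : S.Infinite) (h : Ex S) {lam : ℝ} (s : ℝ → ℕ)
    (hs : Tendsto (fun x : ℝ => (s x : ℝ) / x) atTop (𝓝 lam)) :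
    Tendsto (fun n : ℕ => (gc S n (s (Real.log (pn S n))) : ℝ) / n) atTop (𝓝 (Real.exp (-lam))) := by
  have ht : Tendsto (pn S) atTop atTop := (Nat.nth_strictMono hS).tendsto_atTop
  have h1 := (h lam (fun M => s (Real.log M)) (hs.comp tendsto_logN)).comp ht
  have hz : Tendsto (fun n : ℕ => Real.log (pn S n) / pn S n) atTop (𝓝 0) :=
    ((Real.isLittleO_log_id_atTop.tendsto_div_nhds_zero).comp tendsto_natCast_atTop_atTop).comp ht
  have h2 := h1.sub hz
  rw [sub_zero] at h2
  have h3 : Tendsto (fun n : ℕ => (gc S n (s (Real.log (pn S n))) : ℝ) * Real.log (pn S n) / pn S n) atTop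
      (𝓝 (Real.exp (-lam))) := by
    refine tendsto_of_tendsto_of_tendsto_of_le_of_le' h2 h1 ?_ ?_
    · filter_upwards [(tendsto_logN.comp ht).eventually_gt_atTop 0, ht.eventually_gt_atTop 0] with n hn hn'
      have hn'' : (0 : ℝ) < pn S n := by exact_mod_cast hn'
      have h4 := (aa_gc hS n (s (Real.log (pn S n)))).2
      simp only [Function.comp] at hn ⊢
      rw [← sub_div]
      apply div_le_div_of_nonneg_right _ hn''.le
      nlinarith
    · filter_upwards [(tendsto_logN.comp ht).eventually_gt_atTop 0, ht.eventually_gt_atTop 0] with n hn hn'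
      have hn'' : (0 : ℝ) < pn S n := by exact_mod_cast hn'
      have h4 := (aa_gc hS n (s (Real.log (pn S n)))).1
      simp only [Function.comp] at hn ⊢
      apply div_le_div_of_nonneg_right _ hn''.le
      exact mul_le_mul_of_nonneg_right h4 hn.le
  have h4 := h3.div (pn_law hS h) one_ne_zero
  rw [div_one] at h4
  refine h4.congr' ?_
  filter_upwards [(tendsto_logN.comp ht).eventually_gt_atTop 0, ht.eventually_gt_atTop 0,
    eventually_gt_atTop 0] with n hn hn' hn0
  have hn'' : (0 : ℝ) < pn S n := by exact_mod_cast hn'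
  have hn0' : (0 : ℝ) < n := by exact_mod_cast hn0
  simp only [Function.comp] at hn ⊢
  simp only [Pi.div_apply]
  field_simp

lemma log_pn' {S : Set ℕ} (hS : S.Infinite) (h : Ex S) :
    Tendsto (fun n : ℕ => Real.log (pn S n) / Real.log n) atTop (𝓝 1) := by
  have ht : Tendsto (pn S) atTop atTop := (Nat.nth_strictMono hS).tendsto_atTop
  have h3 := pn_law hS h
  have hlq : Tendsto (fun n : ℕ => Real.log (pn S n)) atTop atTop := tendsto_logN.comp ht
  have h4 := (Real.continuousAt_log one_ne_zero).tendsto.comp h3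
  rw [Real.log_one] at h4
  have h5 : Tendsto (fun n : ℕ => Real.log (Real.log (pn S n)) / Real.log (pn S n)) atTop (𝓝 0) :=
    (Real.isLittleO_log_id_atTop.tendsto_div_nhds_zero).comp hlq
  have h6 : Tendsto (fun n : ℕ => Real.log n / Real.log (pn S n)) atTop (𝓝 1) := by
    have h7 := ((h4.div_atTop hlq).sub h5).add_const 1
    rw [sub_zero, zero_add] at h7
    refine h7.congr' ?_
    filter_upwards [hlq.eventually_gt_atTop 0, ht.eventually_gt_atTop 0, eventually_gt_atTop 0] with n hn hn' hn0
    have hn'' : (0 : ℝ) < pn S n := by exact_mod_cast hn'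
    have hn0' : (0 : ℝ) < n := by exact_mod_cast hn0
    simp only [Function.comp]
    rw [Real.log_div (by positivity) hn''.ne', Real.log_mul hn0'.ne' hn.ne']
    field_simp
    ring
  have h7 := h6.inv₀ one_ne_zero
  rw [inv_one] at h7
  refine h7.congr fun n => ?_
  rw [inv_div]

open Classical in
/-- **the exponential law** for a sequence asymptotic to the normalized gaps -/
theorem exp_law {S : Set ℕ} (hS : S.Infinite) (h : Ex S) {z : ℕ → ℝ}
    (hz : Tendsto (fun k : ℕ => z k * Real.log (pn S k) / ((pn S (k + 1) : ℝ) - pn S k)) atTop (𝓝 1))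
    {lam : ℝ} (hlam : 0 ≤ lam) :
    Tendsto (fun n : ℕ => (((Finset.range n).filter fun k => lam < z k).card : ℝ) / n) atTop (𝓝 (Real.exp (-lam))) := by
  have hmono : StrictMono (pn S) := Nat.nth_strictMono hS
  have ht : Tendsto (pn S) atTop atTop := hmono.tendsto_atTop
  have hlq : Tendsto (fun n : ℕ => Real.log (pn S n)) atTop atTop := tendsto_logN.comp ht
  have hid : ∀ k : ℕ, (k : ℝ) ≤ pn S k := fun k => by exact_mod_cast hmono.le_apply
  have hgr : ∀ k, (1 : ℝ) ≤ (pn S (k + 1) : ℝ) - pn S k := by
    intro k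
    have h1 : pn S k + 1 ≤ pn S (k + 1) := hmono (Nat.lt_succ_self k)
    have : ((pn S k + 1 : ℕ) : ℝ) ≤ pn S (k + 1) := by exact_mod_cast h1
    push_cast at this
    linarith
  have hgs : ∀ k (s : ℕ), s < pn S (k + 1) - pn S k ↔ (s : ℝ) < (pn S (k + 1) : ℝ) - pn S k := by
    intro k s
    have h1 : pn S k ≤ pn S (k + 1) := (hmono (Nat.lt_succ_self k)).le
    rw [← Nat.cast_sub h1]
    exact_mod_cast Iff.rfl
  -- the estimate for one epsilon
  have key : ∀ ε : ℝ, 0 < ε → ε < 1 → ∀ᶠ n : ℕ in atTop,
      (gc S n ⌈lam / (1 - ε) * Real.log (pn S n)⌉₊ : ℝ) / n - ε ≤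
        (((Finset.range n).filter fun k => lam < z k).card : ℝ) / n ∧
      (((Finset.range n).filter fun k => lam < z k).card : ℝ) / n ≤
        (gc S n ⌊lam * (1 - ε) ^ 2 / (1 + ε) ^ 2 * Real.log (pn S n)⌋₊ : ℝ) / n + 2 * ε := by
    intro ε hε hε1
    have e1 := (hz.eventually_lt_const (show (1 : ℝ) < 1 + ε by linarith)).and
      (hz.eventually_const_lt (show 1 - ε < (1 : ℝ) by linarith))
    obtain ⟨k0, hk0⟩ := eventually_atTop.1 (e1.and (hlq.eventually_gt_atTop 0))
    have e2 := (log_pn' hS h).eventually_lt_const (show (1 : ℝ) < 1 + ε by linarith)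
    have e3 : ∀ᶠ n : ℕ in atTop, (1 - ε) * Real.log n ≤ Real.log (ε * n) := by
      have h1 := tendsto_logN.eventually_ge_atTop (-Real.log ε / ε)
      filter_upwards [h1, eventually_gt_atTop 0] with n hn hn0
      have hn0' : (0 : ℝ) < n := by exact_mod_cast hn0
      rw [div_le_iff₀ hε] at hn
      rw [Real.log_mul hε.ne' hn0'.ne']
      linarith
    have e4 : ∀ᶠ n : ℕ in atTop, (k0 : ℝ) ≤ ε * n := by
      have := (tendsto_natCast_atTop_atTop (R := ℝ)).eventually_ge_atTop (k0 / ε)
      filter_upwards [this] with n hn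
      rw [div_le_iff₀ hε] at hn
      linarith
    filter_upwards [e2, e3, e4, tendsto_logN.eventually_gt_atTop 0, hlq.eventually_gt_atTop 0,
      eventually_ge_atTop 1, (tendsto_natCast_atTop_atTop (R := ℝ)).eventually_ge_atTop (1 / ε)]
      with n h2 h3 h4 h5 h6 h7 h8
    have hn0 : (0 : ℝ) < n := by exact_mod_cast h7
    have hmulle : ∀ k, k < n → k0 ≤ k → lam / (1 - ε) * Real.log (pn S n) < (pn S (k + 1) : ℝ) - pn S k → lam < z k := by
      intro k hk1 hk2 hk3
      obtain ⟨⟨a1, a2⟩, a3⟩ := hk0 k hk2
      have a4 := hgr k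
      have a5 : Real.log (pn S k) ≤ Real.log (pn S n) := by
        apply Real.log_le_log
        · have : (0 : ℝ) < pn S k := by
            by_contra hneg
            have h0 : (pn S k : ℝ) = 0 := le_antisymm (not_lt.1 hneg) (Nat.cast_nonneg _)
            rw [h0, Real.log_zero] at a3
            exact lt_irrefl _ a3
          exact this
        · exact_mod_cast hmono.monotone hk1.le
      rw [lt_div_iff₀ (by linarith)] at a2
      have a6 : lam * Real.log (pn S k) ≤ lam * Real.log (pn S n) := mul_le_mul_of_nonneg_left a5 hlam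
      have a7 : lam * Real.log (pn S n) < (1 - ε) * ((pn S (k + 1) : ℝ) - pn S k) := by
        have := mul_lt_mul_of_pos_left hk3 (show 0 < 1 - ε by linarith)
        have e : (1 - ε) * (lam / (1 - ε) * Real.log (pn S n)) = lam * Real.log (pn S n) := by
          have : (1 - ε) ≠ 0 := by linarith
          field_simp
        rwa [e] at this
      by_contra hneg
      have := mul_le_mul_of_nonneg_right (not_lt.1 hneg) a3.le
      linarith
    constructor
    · rw [sub_le_iff_le_add, div_le_iff₀ hn0, add_mul, div_mul_cancel₀ _ hn0.ne']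
      have hsub : ((Finset.range n).filter fun k => ⌈lam / (1 - ε) * Real.log (pn S n)⌉₊ < pn S (k + 1) - pn S k) ⊆
          ((Finset.range n).filter fun k => lam < z k) ∪ Finset.range k0 := by
        intro k hk
        rw [Finset.mem_filter, Finset.mem_range] at hk
        rw [Finset.mem_union]
        rcases Nat.lt_or_ge k k0 with hkk | hkk
        · right; exact Finset.mem_range.2 hkk
        · left
          rw [Finset.mem_filter, Finset.mem_range]
          refine ⟨hk.1, hmulle k hk.1 hkk ?_⟩
          exact lt_of_le_of_lt (Nat.le_ceil _) ((hgs k _).1 hk.2)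
      have hc := (Finset.card_le_card hsub).trans (Finset.card_union_le _ _)
      rw [Finset.card_range] at hc
      have hc' : (gc S n ⌈lam / (1 - ε) * Real.log (pn S n)⌉₊ : ℝ) ≤
          (((Finset.range n).filter fun k => lam < z k).card : ℝ) + k0 := by
        have : gc S n ⌈lam / (1 - ε) * Real.log (pn S n)⌉₊ ≤ ((Finset.range n).filter fun k => lam < z k).card + k0 := by
          unfold gc
          convert hc
        exact_mod_cast this
      linarith
    · rw [div_le_iff₀ hn0, add_mul, div_mul_cancel₀ _ hn0.ne']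
      have hsub : ((Finset.range n).filter fun k => lam < z k) ⊆
          ((Finset.range n).filter fun k => ⌊lam * (1 - ε) ^ 2 / (1 + ε) ^ 2 * Real.log (pn S n)⌋₊ < pn S (k + 1) - pn S k) ∪
            Finset.range (⌈ε * n⌉₊) := by
        intro k hk
        rw [Finset.mem_filter, Finset.mem_range] at hk
        rw [Finset.mem_union]
        rcases Nat.lt_or_ge k ⌈ε * n⌉₊ with hkk | hkk
        · right; exact Finset.mem_range.2 hkk
        · left
          have hk1 : ε * n ≤ k := (Nat.le_ceil _).trans (by exact_mod_cast hkk)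
          have hk2 : k0 ≤ k := by exact_mod_cast h4.trans hk1
          obtain ⟨⟨a1, a2⟩, a3⟩ := hk0 k hk2
          have a4 := hgr k
          rw [Finset.mem_filter, Finset.mem_range]
          refine ⟨hk.1, (hgs k _).2 (lt_of_le_of_lt (Nat.floor_le ?_) ?_)⟩
          · have : 0 ≤ lam * (1 - ε) ^ 2 / (1 + ε) ^ 2 := by positivity
            exact mul_nonneg this h6.le
          · rw [div_lt_iff₀ (by linarith)] at a1
            have a5 : Real.log (ε * n) ≤ Real.log (pn S k) :=
              Real.log_le_log (by positivity) (hk1.trans (hid k))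
            rw [div_lt_iff₀ h5] at h2
            have a6 : Real.log (pn S n) * (1 - ε) ≤ (1 + ε) * Real.log (pn S k) := by
              have b1 := mul_le_mul_of_nonneg_right h2.le (show 0 ≤ 1 - ε by linarith)
              have b2 := mul_le_mul_of_nonneg_left (h3.trans a5) (show 0 ≤ 1 + ε by linarith)
              linarith
            have a7 : lam * Real.log (pn S k) ≤ z k * Real.log (pn S k) := mul_le_mul_of_nonneg_right hk.2.le a3.le
            have a8 : lam * (1 - ε) ^ 2 / (1 + ε) ^ 2 * Real.log (pn S n) ≤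
                (1 - ε) * (lam * Real.log (pn S k)) / (1 + ε) := by
              rw [div_mul_eq_mul_div, div_le_div_iff₀ (by positivity) (by positivity)]
              have b1 := mul_le_mul_of_nonneg_left a6 (show 0 ≤ lam * (1 - ε) * (1 + ε) by
                have : 0 ≤ 1 - ε := by linarith
                positivity)
              nlinarith
            have a9 : (1 - ε) * (lam * Real.log (pn S k)) / (1 + ε) <
                (pn S (k + 1) : ℝ) - pn S k := by
              rw [div_lt_iff₀ (by linarith)]
              have b1 : (1 - ε) * (lam * Real.log (pn S k)) ≤ 1 * (lam * Real.log (pn S k)) := by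
                apply mul_le_mul_of_nonneg_right (by linarith)
                positivity
              linarith
            linarith
      have hc := (Finset.card_le_card hsub).trans (Finset.card_union_le _ _)
      rw [Finset.card_range] at hc
      have hceil : ((⌈ε * n⌉₊ : ℕ) : ℝ) ≤ 2 * ε * n := by
        have b1 := (Nat.ceil_lt_add_one (show 0 ≤ ε * n by positivity)).le
        have b2 : 1 ≤ ε * n := by
          rw [div_le_iff₀ hε] at h8
          linarith
        linarith
      have hc' : (((Finset.range n).filter fun k => lam < z k).card : ℝ) ≤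
          (gc S n ⌊lam * (1 - ε) ^ 2 / (1 + ε) ^ 2 * Real.log (pn S n)⌋₊ : ℝ) + (⌈ε * n⌉₊ : ℕ) := by
        have : ((Finset.range n).filter fun k => lam < z k).card ≤
            gc S n ⌊lam * (1 - ε) ^ 2 / (1 + ε) ^ 2 * Real.log (pn S n)⌋₊ + ⌈ε * n⌉₊ := by
          unfold gc
          convert hc
        exact_mod_cast this
      linarith
  -- conclusion
  have hfl : ∀ c : ℝ, 0 ≤ c → Tendsto (fun x : ℝ => ((⌊c * x⌋₊ : ℕ) : ℝ) / x) atTop (𝓝 c) :=
    fun c hc => tendsto_nat_floor_mul_div_atTop hc
  have hcl : ∀ c : ℝ, 0 ≤ c → Tendsto (fun x : ℝ => ((⌈c * x⌉₊ : ℕ) : ℝ) / x) atTop (𝓝 c) :=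
    fun c hc => tendsto_nat_ceil_mul_div_atTop hc
  have hIoo : ∀ᶠ ε in 𝓝[>] (0 : ℝ), ε ∈ Ioo (0 : ℝ) 1 := Ioo_mem_nhdsGT one_pos
  rw [tendsto_order]
  constructor
  · intro a ha
    have hc : ContinuousAt (fun ε : ℝ => Real.exp (-(lam / (1 - ε))) - ε) 0 := by
      have : ContinuousAt (fun ε : ℝ => lam / (1 - ε)) 0 :=
        continuousAt_const.div (continuousAt_const.sub continuousAt_id) (by norm_num)
      exact (Real.continuous_exp.continuousAt.comp this.neg).sub continuousAt_id
    have h1 : ∀ᶠ ε in 𝓝 (0 : ℝ), a < Real.exp (-(lam / (1 - ε))) - ε := by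
      apply hc.eventually_const_lt
      simpa using ha
    obtain ⟨ε, h2, h3⟩ := ((h1.filter_mono nhdsWithin_le_nhds).and hIoo).exists
    have h4 := gc_law hS h (fun x => ⌈lam / (1 - ε) * x⌉₊) (hcl (lam / (1 - ε)) (div_nonneg hlam (by linarith [h3.2])))
    filter_upwards [key ε h3.1 h3.2, (h4.sub_const ε).eventually_const_lt h2] with n h5 h6
    exact lt_of_lt_of_le h6 h5.1
  · intro b hb
    have hc : ContinuousAt (fun ε : ℝ => Real.exp (-(lam * (1 - ε) ^ 2 / (1 + ε) ^ 2)) + 2 * ε) 0 := by
      have : ContinuousAt (fun ε : ℝ => lam * (1 - ε) ^ 2 / (1 + ε) ^ 2) 0 :=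
        (continuousAt_const.mul ((continuousAt_const.sub continuousAt_id).pow 2)).div
          ((continuousAt_const.add continuousAt_id).pow 2) (by norm_num)
      exact (Real.continuous_exp.continuousAt.comp this.neg).add (continuousAt_const.mul continuousAt_id)
    have h1 : ∀ᶠ ε in 𝓝 (0 : ℝ), Real.exp (-(lam * (1 - ε) ^ 2 / (1 + ε) ^ 2)) + 2 * ε < b := by
      apply hc.eventually_lt_const
      simpa using hb
    obtain ⟨ε, h2, h3⟩ := ((h1.filter_mono nhdsWithin_le_nhds).and hIoo).exists
    have h4 := gc_law hS h (fun x => ⌊lam * (1 - ε) ^ 2 / (1 + ε) ^ 2 * x⌋₊)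
      (hfl (lam * (1 - ε) ^ 2 / (1 + ε) ^ 2) (by positivity))
    filter_upwards [key ε h3.1 h3.2, (h4.add_const (2 * ε)).eventually_lt_const h2] with n h5 h6
    exact lt_of_le_of_lt h5.2 h6

end Pool.Agent.N417.SM
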