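import Mathlib
import Pool.Agent.N417.SM.Cnt
import Pool.Agent.N740.HK.Rx

/-!
# Members between the squares of consecutive members
-/

set_option autoImplicit false
set_option linter.unusedSectionVars false

open MeasureTheory Filter Set
open scoped Topology

namespace Pool.Agent.N417.SM

open Pool.Agent.R528.RM Pool.Agent.N740.HK

variable {Ω : Type} {m0 : MeasurableSpace Ω} {μ : Measure Ω} [IsProbabilityMeasure μ]
  {ℱ : Filtration ℕ m0} {A : ℕ → Set Ω}

open Classical in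
/-- the number of members in `(x, x + H]` -/
noncomputable def cs (S : Set ℕ) (x H : ℕ) : ℕ := ((Finset.range H).filter fun r => x + 1 + r ∈ S).card

lemma cnt_cs (x H : ℕ) (ω : Ω) : cnt A x H ω = cs {k | ω ∈ A k} x H := by
  classical
  unfold cnt cs
  rw [Finset.card_filter]
  rfl

/-- short intervals -/
def Sh (S : Set ℕ) : Prop := ∀ ε : ℝ, 0 < ε → ∃ K : ℝ, 0 < K ∧ ∀ᶠ x : ℕ in atTop, ∀ H : ℕ,
  K * Real.log x ^ 2 ≤ H → H ≤ x → |(cs S x H : ℝ) - H / Real.log x| ≤ ε * (H / Real.log x)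

theorem sh_ae (hA : ∀ n, MeasurableSet[ℱ n] (A n))
    (hd : ∀ᵐ ω ∂μ, Tendsto (fun n : ℕ => dens μ ℱ A n ω * Real.log n) atTop (𝓝 1)) :
    ∀ᵐ ω ∂μ, Sh {k | ω ∈ A k} := by
  have h : ∀ᵐ ω ∂μ, ∀ n : ℕ, ∃ K : ℝ, 0 < K ∧ ∀ᶠ x : ℕ in atTop, ∀ H : ℕ,
      K * Real.log x ^ 2 ≤ H → H ≤ x →
        |(cs {k | ω ∈ A k} x H : ℝ) - H / Real.log x| ≤ 1 / ((n : ℝ) + 1) * (H / Real.log x) := by
    rw [ae_all_iff]
    intro n
    obtain ⟨K, hK, h⟩ := short (μ := μ) hA hd (show 0 < 1 / ((n : ℝ) + 1) by positivity)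
    filter_upwards [h] with ω hω
    refine ⟨K, hK, ?_⟩
    filter_upwards [hω] with x hx H h1 h2
    rw [← cnt_cs]
    exact hx H h1 h2
  filter_upwards [h] with ω hω ε hε
  obtain ⟨n, hn⟩ := exists_nat_one_div_lt hε
  obtain ⟨K, hK, h1⟩ := hω n
  refine ⟨K, hK, ?_⟩
  filter_upwards [h1, tendsto_logN.eventually_gt_atTop 0] with x hx hx0 H h2 h3
  exact (hx H h2 h3).trans (mul_le_mul_of_nonneg_right hn.le (by positivity))

/-- the number of members strictly between the squares of the members number `n` and `n + 1` -/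
noncomputable def NB (S : Set ℕ) (n : ℕ) : ℕ := {q : ℕ | q ∈ S ∧ pn S n ^ 2 < q ∧ q < pn S (n + 1) ^ 2}.ncard

lemma nb_cs (S : Set ℕ) (n : ℕ) : NB S n = cs S (pn S n ^ 2) (pn S (n + 1) ^ 2 - pn S n ^ 2 - 1) := by
  classical
  unfold NB cs
  rw [← Finset.card_image_of_injective _ (fun a b h => by simpa using h :
    Function.Injective fun r : ℕ => pn S n ^ 2 + 1 + r), ← Set.ncard_coe_finset]
  congr 1
  ext q
  rw [Finset.mem_coe, Finset.mem_image]
  constructor
  · rintro ⟨h1, h2, h3⟩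
    refine ⟨q - pn S n ^ 2 - 1, ?_, by omega⟩
    rw [Finset.mem_filter, Finset.mem_range]
    refine ⟨by omega, ?_⟩
    rwa [show pn S n ^ 2 + 1 + (q - pn S n ^ 2 - 1) = q by omega]
  · rintro ⟨r, hr, rfl⟩
    rw [Finset.mem_filter, Finset.mem_range] at hr
    exact ⟨hr.2, by omega, by omega⟩

/-- the real gaps -/
noncomputable def gr (S : Set ℕ) (n : ℕ) : ℝ := (pn S (n + 1) : ℝ) - pn S n

lemma gr_ge {S : Set ℕ} (hS : S.Infinite) (n : ℕ) : 1 ≤ gr S n := by
  have h1 : pn S n + 1 ≤ pn S (n + 1) := Nat.nth_strictMono hS (Nat.lt_succ_self n)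
  have : ((pn S n + 1 : ℕ) : ℝ) ≤ pn S (n + 1) := by exact_mod_cast h1
  push_cast at this
  unfold gr
  linarith

/-- the upper bound for the gaps -/
lemma gr_le {S : Set ℕ} (hS : S.Infinite) (hup : Up S) {lam : ℝ} (hlam : 1 < lam) :
    ∀ᶠ n : ℕ in atTop, gr S n ≤ lam * Real.log (pn S n) ^ 2 := by
  have ht : Tendsto (pn S) atTop atTop := (Nat.nth_strictMono hS).tendsto_atTop
  classical
  filter_upwards [ht.eventually (hup lam hlam)] with n hn
  obtain ⟨r, h1, h2, h3⟩ := hn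
  have h4 : pn S (n + 1) ≤ pn S n + r := by
    obtain ⟨k, hk⟩ : ∃ k, pn S k = pn S n + r :=
      ⟨Nat.count (· ∈ S) (pn S n + r), Nat.nth_count (p := (· ∈ S)) h3⟩
    have h5 : pn S n < pn S k := by omega
    have h6 : n < k := (Nat.nth_strictMono hS).lt_iff_lt.1 h5
    rw [← hk]
    exact (Nat.nth_strictMono hS).monotone h6
  have h5 : ((pn S (n + 1) : ℕ) : ℝ) ≤ ((pn S n + r : ℕ) : ℝ) := by exact_mod_cast h4
  push_cast at h5
  unfold gr
  linarith

/-- **members between consecutive squares of members** -/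
theorem nb_law {S : Set ℕ} (hS : S.Infinite) (hup : Up S) (hsh : Sh S) :
    Tendsto (fun n : ℕ => (NB S n : ℝ) * Real.log (pn S n) / (pn S n * gr S n)) atTop (𝓝 1) := by
  have ht : Tendsto (pn S) atTop atTop := (Nat.nth_strictMono hS).tendsto_atTop
  have htr : Tendsto (fun n => (pn S n : ℝ)) atTop atTop := tendsto_natCast_atTop_atTop.comp ht
  have hlq : Tendsto (fun n : ℕ => Real.log (pn S n)) atTop atTop := tendsto_logN.comp ht
  have hlog2 : Tendsto (fun x : ℝ => Real.log x ^ 2 / x) atTop (𝓝 0) :=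
    (Real.isLittleO_pow_log_id_atTop (n := 2)).tendsto_div_nhds_zero
  have hl2 := hlog2.comp htr
  have hg := gr_le hS hup (show (1 : ℝ) < 2 by norm_num)
  -- gap / P → 0
  have hgP : Tendsto (fun n => gr S n / pn S n) atTop (𝓝 0) := by
    have h1 := hl2.const_mul 2
    rw [mul_zero] at h1
    refine squeeze_zero' ?_ ?_ h1
    · exact Eventually.of_forall fun n => div_nonneg (by linarith [gr_ge hS n]) (Nat.cast_nonneg _)
    · filter_upwards [hg] with n hn
      simp only [Function.comp]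
      rw [← mul_div_assoc]
      exact div_le_div_of_nonneg_right hn (Nat.cast_nonneg _)
  -- the length
  have hth : Tendsto (fun n => 1 + gr S n / (2 * pn S n) - 1 / (2 * pn S n * gr S n)) atTop (𝓝 1) := by
    have h1 : Tendsto (fun n => gr S n / (2 * pn S n)) atTop (𝓝 0) := by
      have := hgP.const_mul (1 / 2)
      rw [mul_zero] at this
      refine this.congr fun n => ?_
      rcases eq_or_ne (pn S n : ℝ) 0 with h0 | h0
      · rw [h0]; simp
      · field_simp
    have h2 : Tendsto (fun n => 1 / (2 * pn S n * gr S n)) atTop (𝓝 0) := by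
      have h3 : Tendsto (fun n => (2 * (pn S n : ℝ))⁻¹) atTop (𝓝 0) :=
        (htr.const_mul_atTop (show (0 : ℝ) < 2 by norm_num)).inv_tendsto_atTop
      refine squeeze_zero' ?_ ?_ h3
      · exact Eventually.of_forall fun n => by
          have := gr_ge hS n
          positivity
      · filter_upwards [htr.eventually_gt_atTop 0] with n hn
        have := gr_ge hS n
        rw [← one_div]
        apply one_div_le_one_div_of_le (by positivity)
        have : 0 < 2 * (pn S n : ℝ) := by positivity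
        nlinarith [gr_ge hS n]
    have := (tendsto_const_nhds (x := (1 : ℝ)) (f := (atTop : Filter ℕ))).add h1 |>.sub h2
    simpa using this
  rw [tendsto_order]
  have main : ∀ ε : ℝ, 0 < ε → ∀ᶠ n in atTop,
      |(NB S n : ℝ) * Real.log (pn S n) / (pn S n * gr S n) -
        (1 + gr S n / (2 * pn S n) - 1 / (2 * pn S n * gr S n))| ≤
        ε * (1 + gr S n / (2 * pn S n) - 1 / (2 * pn S n * gr S n)) := by
    intro ε hε
    obtain ⟨K, hK, h1⟩ := hsh ε hε
    have hsq : Tendsto (fun n => pn S n ^ 2) atTop atTop := (tendsto_pow_atTop (by norm_num)).comp ht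
    filter_upwards [hsq.eventually h1, hl2.eventually_le_const (show (0 : ℝ) < 1 / (2 * K) by positivity),
      hgP.eventually_le_const (show (0 : ℝ) < 1 / 4 by norm_num), htr.eventually_gt_atTop 0,
      hlq.eventually_gt_atTop 0] with n h2 h3 h4 h5 h6
    have hg1 := gr_ge hS n
    obtain ⟨P, hP⟩ : ∃ P : ℝ, P = (pn S n : ℝ) := ⟨_, rfl⟩
    obtain ⟨g, hgd⟩ : ∃ g : ℝ, g = gr S n := ⟨_, rfl⟩
    have hP' : (pn S (n + 1) : ℝ) = P + g := by rw [hP, hgd, gr]; ring
    have hlt : pn S n < pn S (n + 1) := Nat.nth_strictMono hS (Nat.lt_succ_self n)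
    have hH : ((pn S (n + 1) ^ 2 - pn S n ^ 2 - 1 : ℕ) : ℝ) = g * (2 * P + g) - 1 := by
      have h7 : pn S n ^ 2 < pn S (n + 1) ^ 2 := Nat.pow_lt_pow_left hlt (by norm_num)
      rw [Nat.cast_sub (by omega), Nat.cast_sub h7.le]
      push_cast
      rw [hP', ← hP]
      ring
    simp only [Function.comp] at h3
    rw [← hP] at h3 h4 h5 h6
    rw [← hgd] at h4 hg1
    rw [div_le_iff₀ h5] at h3 h4
    have h7 := h2 (pn S (n + 1) ^ 2 - pn S n ^ 2 - 1) (by
      rw [hH]
      push_cast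
      rw [← hP, Real.log_pow]
      push_cast
      have e1 : K * Real.log P ^ 2 ≤ P / 2 := by
        have := mul_le_mul_of_nonneg_left h3 hK.le
        have e : K * (1 / (2 * K) * P) = P / 2 := by field_simp
        rwa [e] at this
      nlinarith) (by
      have : ((pn S (n + 1) ^ 2 - pn S n ^ 2 - 1 : ℕ) : ℝ) ≤ ((pn S n ^ 2 : ℕ) : ℝ) := by
        rw [hH]
        push_cast
        rw [← hP]
        nlinarith
      exact_mod_cast this)
    rw [hH, ← nb_cs] at h7
    push_cast at h7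
    rw [← hP, Real.log_pow] at h7
    push_cast at h7
    rw [← hP, ← hgd]
    have hL : 0 < Real.log P := h6
    have e2 : (NB S n : ℝ) * Real.log P / (P * g) - (1 + g / (2 * P) - 1 / (2 * P * g)) =
        ((NB S n : ℝ) - (g * (2 * P + g) - 1) / (2 * Real.log P)) * (Real.log P / (P * g)) := by
      field_simp
    have e3 : ε * (1 + g / (2 * P) - 1 / (2 * P * g)) =
        ε * ((g * (2 * P + g) - 1) / (2 * Real.log P)) * (Real.log P / (P * g)) := by
      field_simp
    rw [e2, e3, abs_mul, abs_of_pos (show 0 < Real.log P / (P * g) by positivity)]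
    exact mul_le_mul_of_nonneg_right h7 (by positivity)
  constructor
  · intro a ha
    have h1 : Tendsto (fun n => (1 + gr S n / (2 * pn S n) - 1 / (2 * pn S n * gr S n))) atTop (𝓝 1) := hth
    obtain ⟨ε, hε, hε2⟩ : ∃ ε : ℝ, 0 < ε ∧ a < (1 - ε) * 1 := by
      refine ⟨(1 - a) / 2, by linarith, by linarith⟩
    filter_upwards [main ε hε, (h1.const_mul (1 - ε)).eventually_const_lt hε2] with n h2 h3
    have h4 := (abs_le.1 h2).1
    linarith
  · intro b hb
    have h1 : Tendsto (fun n => (1 + gr S n / (2 * pn S n) - 1 / (2 * pn S n * gr S n))) atTop (𝓝 1) := hth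
    obtain ⟨ε, hε, hε2⟩ : ∃ ε : ℝ, 0 < ε ∧ (1 + ε) * 1 < b := by
      refine ⟨(b - 1) / 2, by linarith, by linarith⟩
    filter_upwards [main ε hε, (h1.const_mul (1 + ε)).eventually_lt_const hε2] with n h2 h3
    have h4 := (abs_le.1 h2).2
    linarith

/-! ## limit points -/

/-- gaps of prescribed size at prescribed places -/
lemma low_nth {S : Set ℕ} (hS : S.Infinite) (hlow : Low S) {ε : ℝ} (hε : 0 < ε) (hε1 : ε < 1) (N : ℕ) :
    ∀ᶠ i : ℕ in atTop, ∀ g : ℕ, 1 ≤ g → (g : ℝ) ≤ (1 - ε) * Real.log ((2 : ℝ) ^ i) ^ 2 →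
      ∃ n, N ≤ n ∧ gr S n = g ∧ 2 ^ i < pn S n ∧ pn S n ≤ 2 ^ (i + 1) := by
  have h2 : Tendsto (fun i : ℕ => 2 ^ i) atTop atTop := tendsto_pow_atTop_atTop_of_one_lt (by norm_num)
  filter_upwards [hlow ε hε hε1, h2.eventually_ge_atTop (pn S N)] with i hi hiN g hg1 hg2
  obtain ⟨P, h3, h4, h5, h6, h7⟩ := hi g hg1 hg2
  classical
  have hmono : StrictMono (pn S) := Nat.nth_strictMono hS
  obtain ⟨n, hn⟩ : ∃ n, pn S n = P := ⟨Nat.count (· ∈ S) P, Nat.nth_count (p := (· ∈ S)) h5⟩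
  obtain ⟨k, hk⟩ : ∃ k, pn S k = P + g := ⟨Nat.count (· ∈ S) (P + g), Nat.nth_count (p := (· ∈ S)) h7⟩
  have h8 : n < k := hmono.lt_iff_lt.1 (show pn S n < pn S k by omega)
  have h9 : k = n + 1 := by
    by_contra hne
    have h10 : n + 1 < k := by omega
    have h11 : pn S n < pn S (n + 1) := hmono (Nat.lt_succ_self n)
    have h12 : pn S (n + 1) < pn S k := hmono h10
    have h13 := h6 (pn S (n + 1) - P) (by omega) (by omega)
    apply h13
    rw [show P + (pn S (n + 1) - P) = pn S (n + 1) by omega]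
    exact Nat.nth_mem_of_infinite hS (n + 1)
  refine ⟨n, ?_, ?_, by omega, by omega⟩
  · have : pn S N < pn S n := by omega
    exact (hmono.lt_iff_lt.1 this).le
  · unfold gr
    rw [← h9, hk, hn]
    push_cast
    ring

lemma freq_gap {S : Set ℕ} (hS : S.Infinite) (hlow : Low S) {j : ℕ} (hj : 1 ≤ j) : ∃ᶠ n : ℕ in atTop, gr S n = j := by
  rw [frequently_atTop]
  intro N
  have h1 : Tendsto (fun i : ℕ => (1 - 1 / 2 : ℝ) * Real.log ((2 : ℝ) ^ i) ^ 2) atTop atTop := by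
    have h2 : Tendsto (fun i : ℕ => Real.log ((2 : ℝ) ^ i)) atTop atTop := by
      have : (fun i : ℕ => Real.log ((2 : ℝ) ^ i)) = fun i : ℕ => (i : ℝ) * Real.log 2 := by
        funext i; rw [Real.log_pow]
      rw [this]
      exact tendsto_natCast_atTop_atTop.atTop_mul_const (Real.log_pos (by norm_num))
    exact ((tendsto_pow_atTop (by norm_num)).comp h2).const_mul_atTop (by norm_num)
  obtain ⟨i, h3, h4⟩ := ((low_nth hS hlow (show (0 : ℝ) < 1 / 2 by norm_num) (by norm_num) N).and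
    (h1.eventually_ge_atTop (j : ℝ))).exists
  obtain ⟨n, h5, h6, _⟩ := h3 j hj h4
  exact ⟨n, h5, h6⟩

lemma freq_ratio {S : Set ℕ} (hS : S.Infinite) (hlow : Low S) {c : ℝ} (hc0 : 0 < c) (hc1 : c < 1) {δ : ℝ} (hδ : 0 < δ) :
    ∃ᶠ n : ℕ in atTop, |gr S n / Real.log (pn S n) ^ 2 - c| < δ := by
  rw [frequently_atTop]
  intro N
  have h2 : Tendsto (fun i : ℕ => Real.log ((2 : ℝ) ^ i)) atTop atTop := by
    have : (fun i : ℕ => Real.log ((2 : ℝ) ^ i)) = fun i : ℕ => (i : ℝ) * Real.log 2 := by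
      funext i; rw [Real.log_pow]
    rw [this]
    exact tendsto_natCast_atTop_atTop.atTop_mul_const (Real.log_pos (by norm_num))
  have h3 : Tendsto (fun i : ℕ => ((⌊c * Real.log ((2 : ℝ) ^ i) ^ 2⌋₊ : ℕ) : ℝ) / Real.log ((2 : ℝ) ^ i) ^ 2) atTop (𝓝 c) :=
    (tendsto_nat_floor_mul_div_atTop hc0.le).comp ((tendsto_pow_atTop (by norm_num)).comp h2)
  have h4 : Tendsto (fun i : ℕ => (Real.log ((2 : ℝ) ^ i) / Real.log ((2 : ℝ) ^ (i + 1))) ^ 2) atTop (𝓝 1) := by
    have h5 : Tendsto (fun i : ℕ => Real.log ((2 : ℝ) ^ i) / Real.log ((2 : ℝ) ^ (i + 1))) atTop (𝓝 1) := by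
      have h6 : Tendsto (fun i : ℕ => (i : ℝ) / ((i : ℝ) + 1)) atTop (𝓝 1) := tendsto_natCast_div_add_atTop 1
      refine h6.congr fun i => ?_
      rw [Real.log_pow, Real.log_pow]
      push_cast
      have : Real.log 2 ≠ 0 := (Real.log_pos (by norm_num)).ne'
      field_simp
    have := h5.pow 2
    rwa [one_pow] at this
  have h5 := h3.mul h4
  rw [mul_one] at h5
  obtain ⟨i, h6, h7, h8, h9, h10⟩ := ((low_nth hS hlow (show (0 : ℝ) < 1 - c by linarith) (by linarith) N).and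
    (((h3.eventually_lt_const (show c < c + δ by linarith))).and
    ((h5.eventually_const_lt (show c - δ < c by linarith)).and
    ((h2.eventually_gt_atTop 0).and
    ((tendsto_nat_floor_atTop.comp (((tendsto_pow_atTop (α := ℝ) (n := 2) (by norm_num)).comp h2).const_mul_atTop hc0)).eventually_ge_atTop 1))))).exists
  have h11 : (1 : ℕ) ≤ ⌊c * Real.log ((2 : ℝ) ^ i) ^ 2⌋₊ := h10
  obtain ⟨n, h12, h13, h14, h15⟩ := h6 _ h11 (by
    rw [sub_sub_cancel]
    exact Nat.floor_le (by positivity))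
  refine ⟨n, h12, ?_⟩
  rw [h13]
  have h14' : (2 : ℝ) ^ i < pn S n := by exact_mod_cast h14
  have h15' : (pn S n : ℝ) ≤ 2 ^ (i + 1) := by exact_mod_cast h15
  have h2i : (0 : ℝ) < 2 ^ i := by positivity
  have l1 : Real.log ((2 : ℝ) ^ i) ≤ Real.log (pn S n) := Real.log_le_log h2i h14'.le
  have l2 : Real.log (pn S n) ≤ Real.log ((2 : ℝ) ^ (i + 1)) := Real.log_le_log (by linarith) h15'
  have l3 : 0 < Real.log (pn S n) := lt_of_lt_of_le h9 l1
  rw [abs_lt]
  constructor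
  · have : ((⌊c * Real.log ((2 : ℝ) ^ i) ^ 2⌋₊ : ℕ) : ℝ) / Real.log ((2 : ℝ) ^ i) ^ 2 *
        (Real.log ((2 : ℝ) ^ i) / Real.log ((2 : ℝ) ^ (i + 1))) ^ 2 ≤
        ((⌊c * Real.log ((2 : ℝ) ^ i) ^ 2⌋₊ : ℕ) : ℝ) / Real.log (pn S n) ^ 2 := by
      have e : ((⌊c * Real.log ((2 : ℝ) ^ i) ^ 2⌋₊ : ℕ) : ℝ) / Real.log ((2 : ℝ) ^ i) ^ 2 *
        (Real.log ((2 : ℝ) ^ i) / Real.log ((2 : ℝ) ^ (i + 1))) ^ 2 =
        ((⌊c * Real.log ((2 : ℝ) ^ i) ^ 2⌋₊ : ℕ) : ℝ) / Real.log ((2 : ℝ) ^ (i + 1)) ^ 2 := by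
        have : 0 < Real.log ((2 : ℝ) ^ (i + 1)) := by linarith
        field_simp
      rw [e]
      apply div_le_div_of_nonneg_left (Nat.cast_nonneg _) (by positivity)
      exact pow_le_pow_left₀ l3.le l2 2
    linarith
  · have : ((⌊c * Real.log ((2 : ℝ) ^ i) ^ 2⌋₊ : ℕ) : ℝ) / Real.log (pn S n) ^ 2 ≤
        ((⌊c * Real.log ((2 : ℝ) ^ i) ^ 2⌋₊ : ℕ) : ℝ) / Real.log ((2 : ℝ) ^ i) ^ 2 := by
      apply div_le_div_of_nonneg_left (Nat.cast_nonneg _) (by positivity)
      exact pow_le_pow_left₀ h9.le l1 2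
    linarith

lemma cl_nat {S : Set ℕ} (hS : S.Infinite) (hlow : Low S) {u : ℕ → ℝ}
    (hu : Tendsto (fun n => u n / gr S n) atTop (𝓝 1)) (c : ℝ) :
    MapClusterPt c atTop u ↔ ∃ j : ℕ, 1 ≤ j ∧ c = j := by
  have hclose : ∀ ε : ℝ, 0 < ε → ∀ᶠ n in atTop, |u n - gr S n| ≤ ε * gr S n := by
    intro ε hε
    have h1 := (hu.eventually_le_const (show (1 : ℝ) < 1 + ε by linarith)).and
      (hu.eventually_const_le (show 1 - ε < (1 : ℝ) by linarith))
    filter_upwards [h1] with n hn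
    have hg : 0 < gr S n := by linarith [gr_ge hS n]
    obtain ⟨h2, h3⟩ := hn
    rw [div_le_iff₀ hg] at h2
    rw [le_div_iff₀ hg] at h3
    rw [abs_le]
    constructor <;> linarith
  have hnat : ∀ n, ∃ j : ℕ, 1 ≤ j ∧ gr S n = j := by
    intro n
    have h1 : pn S n + 1 ≤ pn S (n + 1) := Nat.nth_strictMono hS (Nat.lt_succ_self n)
    refine ⟨pn S (n + 1) - pn S n, by omega, ?_⟩
    unfold gr
    rw [Nat.cast_sub (by omega)]
  rw [mapClusterPt_iff_frequently]
  constructor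
  · intro h
    by_contra hno
    push Not at hno
    -- distance of c from the positive integers
    obtain ⟨δ, hδ, hδ2⟩ : ∃ δ : ℝ, 0 < δ ∧ ∀ j : ℕ, 1 ≤ j → δ ≤ |(j : ℝ) - c| := by
      have hcl : IsClosed (Set.range (fun j : ℕ => ((j + 1 : ℕ) : ℝ))) := by
        have h1 : IsClosedMap ((↑) : ℕ → ℝ) := Nat.isClosedEmbedding_coe_real.isClosedMap
        have h2 : Set.range (fun j : ℕ => ((j + 1 : ℕ) : ℝ)) = ((↑) : ℕ → ℝ) '' (Set.range fun j : ℕ => j + 1) := by
          ext x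
          constructor
          · rintro ⟨j, rfl⟩
            exact ⟨j + 1, ⟨j, rfl⟩, rfl⟩
          · rintro ⟨_, ⟨j, rfl⟩, rfl⟩
            exact ⟨j, rfl⟩
        rw [h2]
        exact h1 _ (isClosed_discrete _)
      have hc : c ∉ Set.range (fun j : ℕ => ((j + 1 : ℕ) : ℝ)) := by
        rintro ⟨j, hj⟩
        exact hno (j + 1) (by omega) hj.symm
      obtain ⟨δ, hδ, hb⟩ := Metric.isOpen_iff.1 hcl.isOpen_compl c hc
      refine ⟨δ, hδ, fun j hj => ?_⟩
      by_contra hlt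
      have h3 : (j : ℝ) ∈ Metric.ball c δ := by
        rw [Metric.mem_ball, Real.dist_eq]
        exact not_le.1 hlt
      exact hb h3 ⟨j - 1, by
        show ((j - 1 + 1 : ℕ) : ℝ) = j
        rw [Nat.sub_add_cancel hj]⟩
    set ε : ℝ := min (1 / 2) (δ / (8 * (|c| + 1))) with hε
    have hε0 : 0 < ε := lt_min (by norm_num) (by positivity)
    have hε1 : ε ≤ 1 / 2 := min_le_left _ _
    have hε2 : ε ≤ δ / (8 * (|c| + 1)) := min_le_right _ _
    have h1 := h (Metric.ball c (min 1 (δ / 4))) (Metric.ball_mem_nhds _ (lt_min one_pos (by positivity)))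
    obtain ⟨n, h2, h3⟩ := (h1.and_eventually (hclose ε hε0)).exists
    rw [Metric.mem_ball, Real.dist_eq] at h2
    have h4 : |u n - c| < 1 := lt_of_lt_of_le h2 (min_le_left _ _)
    have h5 : |u n - c| < δ / 4 := lt_of_lt_of_le h2 (min_le_right _ _)
    obtain ⟨j, hj, hgj⟩ := hnat n
    rw [hgj] at h3
    have hj0 : (0 : ℝ) ≤ j := Nat.cast_nonneg j
    have h6 : (j : ℝ) ≤ 2 * (|c| + 1) := by
      have a1 := (abs_le.1 h3).1
      have a2 := (abs_lt.1 h4).2
      have a3 := le_abs_self c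
      nlinarith
    have h7 : ε * j ≤ δ / 4 := by
      calc ε * j ≤ δ / (8 * (|c| + 1)) * (2 * (|c| + 1)) :=
            mul_le_mul hε2 h6 hj0 (by positivity)
        _ = δ / 4 := by field_simp; ring
    have h8 := hδ2 j hj
    have h9 : |(j : ℝ) - c| ≤ |(j : ℝ) - u n| + |u n - c| := abs_sub_le _ _ _
    rw [abs_sub_comm (j : ℝ) (u n)] at h9
    linarith
  · rintro ⟨j, hj, rfl⟩ s hs
    obtain ⟨δ, hδ, hb⟩ := Metric.mem_nhds_iff.1 hs
    have hj0 : (0 : ℝ) < j := by exact_mod_cast hj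
    refine ((freq_gap hS hlow hj).and_eventually (hclose (δ / (2 * j)) (by positivity))).mono fun n hn => ?_
    apply hb
    rw [Metric.mem_ball, Real.dist_eq]
    obtain ⟨h1, h2⟩ := hn
    rw [h1] at h2
    have e : δ / (2 * j) * (j : ℝ) = δ / 2 := by field_simp
    rw [e] at h2
    linarith

lemma cl_Icc {S : Set ℕ} (hS : S.Infinite) (hup : Up S) (hlow : Low S) {w : ℕ → ℝ}
    (hw : Tendsto (fun n => w n / (gr S n / Real.log (pn S n) ^ 2)) atTop (𝓝 1)) (c : ℝ) :
    MapClusterPt c atTop w ↔ 0 ≤ c ∧ c ≤ 1 := by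
  have ht : Tendsto (pn S) atTop atTop := (Nat.nth_strictMono hS).tendsto_atTop
  have hlq : Tendsto (fun n : ℕ => Real.log (pn S n)) atTop atTop := tendsto_logN.comp ht
  have hclose : ∀ ε : ℝ, 0 < ε → ∀ᶠ n in atTop, 0 < gr S n / Real.log (pn S n) ^ 2 ∧
      gr S n / Real.log (pn S n) ^ 2 ≤ 1 + ε ∧
      |w n - gr S n / Real.log (pn S n) ^ 2| ≤ ε * (gr S n / Real.log (pn S n) ^ 2) := by
    intro ε hε
    have h1 := (hw.eventually_le_const (show (1 : ℝ) < 1 + ε by linarith)).and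
      (hw.eventually_const_le (show 1 - ε < (1 : ℝ) by linarith))
    filter_upwards [h1, hlq.eventually_gt_atTop 0, gr_le hS hup (show 1 < 1 + ε by linarith)] with n hn hL hg
    have hg1 := gr_ge hS n
    have hg : 0 < gr S n / Real.log (pn S n) ^ 2 := by
      have : 0 < gr S n := by linarith
      positivity
    obtain ⟨h2, h3⟩ := hn
    rw [div_le_iff₀ hg] at h2
    rw [le_div_iff₀ hg] at h3
    refine ⟨hg, ?_, ?_⟩
    · rw [div_le_iff₀ (by positivity)]
      assumption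
    · rw [abs_le]
      constructor <;> linarith
  rw [mapClusterPt_iff_frequently]
  constructor
  · intro h
    constructor
    · by_contra hneg
      obtain ⟨n, h1, h2, h3, h4⟩ := ((h (Iio 0) (Iio_mem_nhds (not_le.1 hneg))).and_eventually (hclose 1 one_pos)).exists
      rw [mem_Iio] at h1
      have := (abs_le.1 h4).1
      linarith
    · by_contra hneg
      have hc : 1 < c := not_le.1 hneg
      obtain ⟨ε, hε, hε2⟩ : ∃ ε : ℝ, 0 < ε ∧ (1 + ε) * (1 + ε) < c := by
        have h1 : ∀ᶠ ε in 𝓝 (0 : ℝ), (1 + ε) * (1 + ε) < c := by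
          have : ContinuousAt (fun ε : ℝ => (1 + ε) * (1 + ε)) 0 := by fun_prop
          apply this.eventually_lt_const
          simpa using hc
        obtain ⟨ε, h2, h3⟩ := ((h1.filter_mono nhdsWithin_le_nhds).and
          (self_mem_nhdsWithin : Ioi (0 : ℝ) ∈ 𝓝[>] 0)).exists
        exact ⟨ε, h3, h2⟩
      obtain ⟨n, h1, h2, h3, h4⟩ := ((h (Ioi ((1 + ε) * (1 + ε))) (Ioi_mem_nhds hε2)).and_eventually (hclose ε hε)).exists
      rw [mem_Ioi] at h1
      have h5 := (abs_le.1 h4).2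
      nlinarith
  · rintro ⟨hc0, hc1⟩ s hs
    obtain ⟨δ, hδ, hb⟩ := Metric.mem_nhds_iff.1 hs
    -- a point in the open interval close to c
    obtain ⟨c', h1, h2, h3⟩ : ∃ c' : ℝ, 0 < c' ∧ c' < 1 ∧ |c' - c| ≤ δ / 4 := by
      set η : ℝ := min (1 / 4) (δ / 8) with hη
      have hη0 : 0 < η := lt_min (by norm_num) (by positivity)
      have hη1 : η ≤ 1 / 4 := min_le_left _ _
      have hη2 : η ≤ δ / 8 := min_le_right _ _
      refine ⟨(1 - 2 * η) * c + η, ?_, ?_, ?_⟩
      · have : 0 ≤ (1 - 2 * η) * c := mul_nonneg (by linarith) hc0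
        linarith
      · nlinarith
      · have e : (1 - 2 * η) * c + η - c = η * (1 - 2 * c) := by ring
        rw [e, abs_mul, abs_of_pos hη0]
        have : |1 - 2 * c| ≤ 1 := by rw [abs_le]; constructor <;> linarith
        calc η * |1 - 2 * c| ≤ η * 1 := mul_le_mul_of_nonneg_left this hη0.le
          _ ≤ δ / 4 := by linarith
    refine ((freq_ratio hS hlow h1 h2 (show 0 < δ / 4 by positivity)).and_eventually
      (hclose (min 1 (δ / 8)) (lt_min one_pos (by positivity)))).mono fun n hn => ?_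
    apply hb
    rw [Metric.mem_ball, Real.dist_eq]
    obtain ⟨h4, h5, h6, h7⟩ := hn
    have h8 : min 1 (δ / 8) ≤ 1 := min_le_left _ _
    have h9 : min 1 (δ / 8) ≤ δ / 8 := min_le_right _ _
    have h10 : min 1 (δ / 8) * (gr S n / Real.log (pn S n) ^ 2) ≤ δ / 8 * 2 := by
      apply mul_le_mul h9 (by linarith) h5.le (by positivity)
    have h11 := abs_sub_le (w n) (gr S n / Real.log (pn S n) ^ 2) c'
    have h12 := abs_sub_le (w n) c' c
    linarith

end Pool.Agent.N417.SM
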