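import Mathlib
import Pool.Agent.N417.SM.Win

/-!
# Windows of length of order `√n` and conditional probabilities of order `log n / √n`
-/

set_option autoImplicit false
set_option linter.unusedSectionVars false

open MeasureTheory Filter Set
open scoped Topology ENNReal

namespace Pool.Agent.N417.SM

open Pool.Agent.R528.RM Pool.Agent.N740.HK

/-- the comparison sequence -/
noncomputable def lk (κ : ℝ) (n : ℕ) : ℝ := min 1 (κ * (Real.log n / √(n : ℝ)))

lemma lk0 {κ : ℝ} (hκ : 0 ≤ κ) (n : ℕ) : 0 ≤ lk κ n :=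
  le_min zero_le_one (mul_nonneg hκ (div_nonneg (Real.log_natCast_nonneg n) (Real.sqrt_nonneg _)))

lemma lk1 (κ : ℝ) (n : ℕ) : lk κ n ≤ 1 := min_le_left _ _

section
variable {t g : ℕ → ℕ} {a b : ℝ}

lemma t_top (ha : 0 < a) (ht : Tendsto (fun k : ℕ => (t k : ℝ) / (k : ℝ) ^ 2) atTop (𝓝 (a ^ 2))) :
    Tendsto t atTop atTop := by
  have h1 : Tendsto (fun k : ℕ => (k : ℝ) ^ 2) atTop atTop :=
    (tendsto_pow_atTop (by norm_num)).comp tendsto_natCast_atTop_atTop
  have h2 := ht.pos_mul_atTop (by positivity) h1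
  rw [← tendsto_natCast_atTop_iff (R := ℝ)]
  refine h2.congr' ?_
  filter_upwards [eventually_gt_atTop 0] with k hk
  have : (0 : ℝ) < k := by exact_mod_cast hk
  field_simp

lemma log_t (ha : 0 < a) (ht : Tendsto (fun k : ℕ => (t k : ℝ) / (k : ℝ) ^ 2) atTop (𝓝 (a ^ 2))) :
    Tendsto (fun k : ℕ => Real.log (t k) / Real.log k) atTop (𝓝 2) := by
  have h1 : Tendsto (fun k : ℕ => Real.log ((t k : ℝ) / (k : ℝ) ^ 2)) atTop (𝓝 (Real.log (a ^ 2))) :=
    ((Real.continuousAt_log (by positivity)).tendsto).comp ht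
  have h2 := h1.div_atTop tendsto_logN
  have h3 := h2.add_const 2
  rw [zero_add] at h3
  refine h3.congr' ?_
  filter_upwards [eventually_gt_atTop 1, (t_top ha ht).eventually_gt_atTop 0] with k hk htk
  have hk' : (1 : ℝ) < k := by exact_mod_cast hk
  have htk' : (0 : ℝ) < t k := by exact_mod_cast htk
  have hL : 0 < Real.log k := Real.log_pos hk'
  rw [Real.log_div htk'.ne' (by positivity), Real.log_pow]
  push_cast
  field_simp
  ring

lemma sqrt_t (ha : 0 < a) (ht : Tendsto (fun k : ℕ => (t k : ℝ) / (k : ℝ) ^ 2) atTop (𝓝 (a ^ 2))) :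
    Tendsto (fun k : ℕ => √(t k : ℝ) / k) atTop (𝓝 a) := by
  have h1 := (Real.continuous_sqrt.tendsto _).comp ht
  rw [Real.sqrt_sq ha.le] at h1
  refine h1.congr fun k => ?_
  simp only [Function.comp]
  rw [Real.sqrt_div (Nat.cast_nonneg _), Real.sqrt_sq (Nat.cast_nonneg _)]

lemma tg (ht : Tendsto (fun k : ℕ => (t k : ℝ) / (k : ℝ) ^ 2) atTop (𝓝 (a ^ 2)))
    (hg : Tendsto (fun k : ℕ => (g k : ℝ) / k) atTop (𝓝 b)) :
    Tendsto (fun k : ℕ => ((t k + g k : ℕ) : ℝ) / (k : ℝ) ^ 2) atTop (𝓝 (a ^ 2)) := by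
  have h1 : Tendsto (fun k : ℕ => (k : ℝ)⁻¹) atTop (𝓝 0) := tendsto_inv_atTop_zero.comp tendsto_natCast_atTop_atTop
  have h2 := ht.add (hg.mul h1)
  rw [mul_zero, add_zero] at h2
  refine h2.congr' ?_
  filter_upwards [eventually_gt_atTop 0] with k hk
  have : (0 : ℝ) < k := by exact_mod_cast hk
  push_cast
  field_simp

/-- upper bound for the products -/
theorem prod_up (ha : 0 < a) (ht : Tendsto (fun k : ℕ => (t k : ℝ) / (k : ℝ) ^ 2) atTop (𝓝 (a ^ 2)))
    (hg : Tendsto (fun k : ℕ => (g k : ℝ) / k) atTop (𝓝 b)) {κ : ℝ} (hκ : 0 ≤ κ) {s : ℝ} (hs : s < 2 * κ * b / a) :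
    ∀ᶠ k : ℕ in atTop, ∏ i ∈ Finset.range (g k), (1 - lk κ (t k + i)) ≤ 1 / (k : ℝ) ^ s := by
  have htg := tg ht hg
  set l : ℕ → ℝ := fun k => κ * (Real.log (t k) / √((t k + g k : ℕ) : ℝ)) with hl
  have h1 : Tendsto (fun k : ℕ => g k * l k / Real.log k) atTop (𝓝 (2 * κ * b / a)) := by
    have h2 := ((hg.mul (log_t ha ht)).mul_const κ).div (sqrt_t ha htg) ha.ne'
    have e : b * 2 * κ / a = 2 * κ * b / a := by ring
    rw [e] at h2
    refine h2.congr' ?_
    filter_upwards [eventually_gt_atTop 1, (t_top ha htg).eventually_gt_atTop 0] with k hk hk2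
    have hk' : (1 : ℝ) < k := by exact_mod_cast hk
    have hL : 0 < Real.log k := Real.log_pos hk'
    have h3 : 0 < √((t k + g k : ℕ) : ℝ) := Real.sqrt_pos.2 (by exact_mod_cast hk2)
    simp only [hl, Pi.div_apply]
    field_simp
  have hl0 : Tendsto l atTop (𝓝 0) := by
    have h2 : Tendsto (fun k : ℕ => Real.log k / k) atTop (𝓝 0) :=
      (Real.isLittleO_log_id_atTop.tendsto_div_nhds_zero).comp tendsto_natCast_atTop_atTop
    have h3 := (((log_t ha ht).mul_const κ).div (sqrt_t ha htg) ha.ne').mul h2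
    rw [mul_zero] at h3
    refine h3.congr' ?_
    filter_upwards [eventually_gt_atTop 1, (t_top ha htg).eventually_gt_atTop 0] with k hk hk2
    have hk' : (1 : ℝ) < k := by exact_mod_cast hk
    have hL : 0 < Real.log k := Real.log_pos hk'
    have h3 : 0 < √((t k + g k : ℕ) : ℝ) := Real.sqrt_pos.2 (by exact_mod_cast hk2)
    simp only [hl, Pi.div_apply]
    field_simp
  filter_upwards [h1.eventually_const_lt hs, hl0.eventually_le_const one_pos, eventually_gt_atTop 1,
    (t_top ha ht).eventually_gt_atTop 0] with k h2 h3 hk htk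
  have hk' : (1 : ℝ) < k := by exact_mod_cast hk
  have htk' : (0 : ℝ) < t k := by exact_mod_cast htk
  have hL : 0 < Real.log k := Real.log_pos hk'
  have hl0' : 0 ≤ l k := mul_nonneg hκ (div_nonneg (Real.log_natCast_nonneg _) (Real.sqrt_nonneg _))
  have h4 : ∏ i ∈ Finset.range (g k), (1 - lk κ (t k + i)) ≤ ∏ _i ∈ Finset.range (g k), Real.exp (-l k) := by
    refine Finset.prod_le_prod (fun i _ => by linarith [lk1 κ (t k + i)]) fun i hi => ?_
    have hi' := Finset.mem_range.1 hi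
    have h5 : l k ≤ lk κ (t k + i) := by
      refine le_min h3 (mul_le_mul_of_nonneg_left ?_ hκ)
      have h6 : Real.log (t k) ≤ Real.log ((t k + i : ℕ) : ℝ) :=
        Real.log_le_log htk' (by exact_mod_cast Nat.le_add_right _ _)
      have h7 : √((t k + i : ℕ) : ℝ) ≤ √((t k + g k : ℕ) : ℝ) :=
        Real.sqrt_le_sqrt (by exact_mod_cast (by omega : t k + i ≤ t k + g k))
      have h8 : 0 < √((t k + i : ℕ) : ℝ) := Real.sqrt_pos.2 (by exact_mod_cast (by omega : 0 < t k + i))
      exact div_le_div₀ (Real.log_natCast_nonneg _) h6 h8 h7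
    have h6 := Real.add_one_le_exp (-l k)
    linarith
  refine h4.trans ?_
  rw [Finset.prod_const, Finset.card_range, ← Real.exp_nat_mul, one_div, ← Real.rpow_neg (by linarith),
    Real.rpow_def_of_pos (by linarith)]
  apply Real.exp_le_exp.2
  rw [lt_div_iff₀ hL] at h2
  linarith

/-- lower bound for the products -/
theorem prod_low (ha : 0 < a) (ht : Tendsto (fun k : ℕ => (t k : ℝ) / (k : ℝ) ^ 2) atTop (𝓝 (a ^ 2)))
    (hg : Tendsto (fun k : ℕ => (g k : ℝ) / k) atTop (𝓝 b)) {κ : ℝ} (hκ : 0 ≤ κ) {s : ℝ} (hs : 2 * κ * b / a < s) :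
    ∀ᶠ k : ℕ in atTop, 1 / (k : ℝ) ^ s ≤ ∏ i ∈ Finset.range (g k), (1 - lk κ (t k + i)) := by
  have htg := tg ht hg
  set u : ℕ → ℝ := fun k => κ * (Real.log ((t k + g k : ℕ) : ℝ) / √(t k : ℝ)) with hu
  have hu0 : Tendsto u atTop (𝓝 0) := by
    have h2 : Tendsto (fun k : ℕ => Real.log k / k) atTop (𝓝 0) :=
      (Real.isLittleO_log_id_atTop.tendsto_div_nhds_zero).comp tendsto_natCast_atTop_atTop
    have h3 := (((log_t ha htg).mul_const κ).div (sqrt_t ha ht) ha.ne').mul h2
    rw [mul_zero] at h3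
    refine h3.congr' ?_
    filter_upwards [eventually_gt_atTop 1, (t_top ha ht).eventually_gt_atTop 0] with k hk hk2
    have hk' : (1 : ℝ) < k := by exact_mod_cast hk
    have hL : 0 < Real.log k := Real.log_pos hk'
    have h3 : 0 < √(t k : ℝ) := Real.sqrt_pos.2 (by exact_mod_cast hk2)
    simp only [hu, Pi.div_apply]
    field_simp
  have h1 : Tendsto (fun k : ℕ => g k * (u k / (1 - u k)) / Real.log k) atTop (𝓝 (2 * κ * b / a)) := by
    have h2 := (((hg.mul (log_t ha htg)).mul_const κ).div (sqrt_t ha ht) ha.ne').div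
      ((tendsto_const_nhds (x := (1 : ℝ))).sub hu0) (by norm_num)
    have e : b * 2 * κ / a / (1 - 0) = 2 * κ * b / a := by ring
    rw [e] at h2
    refine h2.congr' ?_
    filter_upwards [eventually_gt_atTop 1, (t_top ha ht).eventually_gt_atTop 0, hu0.eventually_lt_const one_pos] with k hk hk2 hk3
    have hk' : (1 : ℝ) < k := by exact_mod_cast hk
    have hL : 0 < Real.log k := Real.log_pos hk'
    have h3 : 0 < √(t k : ℝ) := Real.sqrt_pos.2 (by exact_mod_cast hk2)
    have h4 : 1 - u k ≠ 0 := by linarith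
    simp only [Pi.div_apply]
    have e2 : u k / (1 - u k) = κ * (Real.log ((t k + g k : ℕ) : ℝ) / √(t k : ℝ)) / (1 - u k) := rfl
    rw [e2]
    field_simp
  filter_upwards [h1.eventually_lt_const hs, hu0.eventually_lt_const one_pos, eventually_gt_atTop 1,
    (t_top ha ht).eventually_gt_atTop 0] with k h2 h3 hk htk
  have hk' : (1 : ℝ) < k := by exact_mod_cast hk
  have htk' : (0 : ℝ) < t k := by exact_mod_cast htk
  have hL : 0 < Real.log k := Real.log_pos hk'
  have hu0' : 0 ≤ u k := mul_nonneg hκ (div_nonneg (Real.log_natCast_nonneg _) (Real.sqrt_nonneg _))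
  have h4 : ∏ _i ∈ Finset.range (g k), Real.exp (-(u k / (1 - u k))) ≤ ∏ i ∈ Finset.range (g k), (1 - lk κ (t k + i)) := by
    refine Finset.prod_le_prod (fun i _ => (Real.exp_pos _).le) fun i hi => ?_
    have hi' := Finset.mem_range.1 hi
    have h5 : lk κ (t k + i) ≤ u k := by
      refine (min_le_right _ _).trans (mul_le_mul_of_nonneg_left ?_ hκ)
      have h6 : Real.log ((t k + i : ℕ) : ℝ) ≤ Real.log ((t k + g k : ℕ) : ℝ) :=
        Real.log_le_log (by exact_mod_cast (by omega : 0 < t k + i)) (by exact_mod_cast (by omega : t k + i ≤ t k + g k))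
      have h7 : √(t k : ℝ) ≤ √((t k + i : ℕ) : ℝ) :=
        Real.sqrt_le_sqrt (by exact_mod_cast Nat.le_add_right _ _)
      exact div_le_div₀ (Real.log_natCast_nonneg _) h6 (Real.sqrt_pos.2 htk') h7
    have hpos : 0 < 1 - u k := by linarith
    have h6 : 1 - (1 - u k)⁻¹ ≤ Real.log (1 - u k) := Real.one_sub_inv_le_log_of_pos hpos
    have h7 : -(u k / (1 - u k)) = 1 - (1 - u k)⁻¹ := by field_simp; ring
    calc Real.exp (-(u k / (1 - u k))) ≤ Real.exp (Real.log (1 - u k)) := Real.exp_le_exp.2 (by rw [h7]; exact h6)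
      _ = 1 - u k := Real.exp_log hpos
      _ ≤ _ := by linarith
  refine le_trans ?_ h4
  rw [Finset.prod_const, Finset.card_range, ← Real.exp_nat_mul, one_div, ← Real.rpow_neg (by linarith),
    Real.rpow_def_of_pos (by linarith)]
  apply Real.exp_le_exp.2
  rw [div_lt_iff₀ hL] at h2
  linarith

end

end Pool.Agent.N417.SM
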