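import Mathlib
import Pool.Agent.N417.SM.Haz
import Pool.Agent.N417.SM.Broc

/-!
# Differences of square roots of consecutive members
-/

set_option autoImplicit false
set_option linter.unusedSectionVars false

open MeasureTheory Filter Set
open scoped Topology ENNReal

namespace Pool.Agent.N417.SM

open Pool.Agent.R528.RM Pool.Agent.N740.HK

variable {Ω : Type} {m0 : MeasurableSpace Ω} {μ : Measure Ω} [IsProbabilityMeasure μ]
  {ℱ : Filtration ℕ m0} {A : ℕ → Set Ω}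

lemma sq_lim {η d : ℝ} : Tendsto (fun k : ℕ => (η * k + d) ^ 2 / (k : ℝ) ^ 2) atTop (𝓝 (η ^ 2)) := by
  have h1 : Tendsto (fun k : ℕ => (k : ℝ)⁻¹) atTop (𝓝 0) := tendsto_inv_atTop_zero.comp tendsto_natCast_atTop_atTop
  have h2 := ((h1.const_mul d).const_add η).pow 2
  rw [mul_zero, add_zero] at h2
  refine h2.congr' ?_
  filter_upwards [eventually_gt_atTop 0] with k hk
  have : (0 : ℝ) < k := by exact_mod_cast hk
  field_simp

/-- gaps are short -/
theorem sq_up (hA : ∀ n, MeasurableSet[ℱ n] (A n)) {c κ : ℝ} (hc : 0 < c) (hκ : 1 / (4 * c) < κ)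
    (hge : ∀ᵐ ω ∂μ, ∀ᶠ n : ℕ in atTop, κ * (Real.log n / √(n : ℝ)) ≤ dens μ ℱ A n ω) :
    ∀ᵐ ω ∂μ, ∀ᶠ x : ℕ in atTop, ∃ r : ℕ, x < r ∧ √(r : ℝ) < √(x : ℝ) + c ∧ ω ∈ A r := by
  have hκ0 : 0 < κ := lt_trans (by positivity) hκ
  have h4 : 1 < 4 * κ * c := by
    rw [div_lt_iff₀ (by positivity)] at hκ
    linarith
  set c' : ℝ := (c + 1 / (4 * κ)) / 2 with hc'
  have h5 : 1 / (4 * κ) < c := by
    rw [div_lt_iff₀ (by positivity)]
    linarith
  have h6 : c' < c := by rw [hc']; linarith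
  have h7 : 1 / (4 * κ) < c' := by rw [hc']; linarith
  have h8 : 1 < 4 * κ * c' := by
    rw [div_lt_iff₀ (by positivity)] at h7
    linarith
  have hc'0 : 0 < c' := lt_trans (by positivity) h7
  set η : ℝ := (c - c') / 2 with hη
  have hη0 : 0 < η := by rw [hη]; linarith
  set t : ℕ → ℕ := fun k => ⌈(η * k + 0) ^ 2⌉₊ with ht
  set s : ℕ → ℕ := fun k => ⌊(η * k + c') ^ 2⌋₊ with hs
  set g : ℕ → ℕ := fun k => s k - t k with hg
  have hk2 : Tendsto (fun k : ℕ => 1 / (k : ℝ) ^ 2) atTop (𝓝 0) := by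
    have h1 : Tendsto (fun k : ℕ => (k : ℝ) ^ 2) atTop atTop :=
      (tendsto_pow_atTop (by norm_num)).comp tendsto_natCast_atTop_atTop
    exact h1.inv_tendsto_atTop.congr fun k => (one_div _).symm
  have hk1 : Tendsto (fun k : ℕ => (k : ℝ)⁻¹) atTop (𝓝 0) := tendsto_inv_atTop_zero.comp tendsto_natCast_atTop_atTop
  have htl : Tendsto (fun k : ℕ => (t k : ℝ) / (k : ℝ) ^ 2) atTop (𝓝 (η ^ 2)) := by
    have h1 := (sq_lim (η := η) (d := 0)).add hk2
    rw [add_zero] at h1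
    refine tendsto_of_tendsto_of_tendsto_of_le_of_le' (sq_lim (η := η) (d := 0)) h1 ?_ ?_
    · exact Eventually.of_forall fun k => div_le_div_of_nonneg_right (Nat.le_ceil _) (by positivity)
    · refine Eventually.of_forall fun k => ?_
      rw [← add_div]
      exact div_le_div_of_nonneg_right (Nat.ceil_lt_add_one (by positivity)).le (by positivity)
  have hgl : Tendsto (fun k : ℕ => (g k : ℝ) / k) atTop (𝓝 (2 * η * c')) := by
    have h1 : Tendsto (fun k : ℕ => 2 * η * c' + (c' ^ 2 - 2) * (k : ℝ)⁻¹) atTop (𝓝 (2 * η * c')) := by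
      have := (hk1.const_mul (c' ^ 2 - 2)).const_add (2 * η * c')
      rwa [mul_zero, add_zero] at this
    have h2 : Tendsto (fun k : ℕ => 2 * η * c' + c' ^ 2 * (k : ℝ)⁻¹) atTop (𝓝 (2 * η * c')) := by
      have := (hk1.const_mul (c' ^ 2)).const_add (2 * η * c')
      rwa [mul_zero, add_zero] at this
    refine tendsto_of_tendsto_of_tendsto_of_le_of_le' h1 h2 ?_ ?_
    · filter_upwards [eventually_gt_atTop 0] with k hk
      have hk' : (0 : ℝ) < k := by exact_mod_cast hk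
      have a1 : (s k : ℝ) - t k ≤ g k := by
        have : s k ≤ g k + t k := by simp only [hg]; omega
        have : (s k : ℝ) ≤ g k + t k := by exact_mod_cast this
        linarith
      have a2 : (η * k + c') ^ 2 - 1 ≤ s k := (Nat.sub_one_lt_floor _).le
      have a3 : (t k : ℝ) ≤ (η * k + 0) ^ 2 + 1 := (Nat.ceil_lt_add_one (by positivity)).le
      rw [le_div_iff₀ hk']
      have e : (2 * η * c' + (c' ^ 2 - 2) * (k : ℝ)⁻¹) * k = 2 * η * c' * k + (c' ^ 2 - 2) := by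
        field_simp
      rw [e]
      nlinarith
    · filter_upwards [eventually_gt_atTop 0] with k hk
      have hk' : (0 : ℝ) < k := by exact_mod_cast hk
      have a2 : (s k : ℝ) ≤ (η * k + c') ^ 2 := Nat.floor_le (by positivity)
      have a3 : (η * k + 0) ^ 2 ≤ (t k : ℝ) := Nat.le_ceil _
      rw [div_le_iff₀ hk']
      have e : (2 * η * c' + c' ^ 2 * (k : ℝ)⁻¹) * k = 2 * η * c' * k + c' ^ 2 := by
        field_simp
      rw [e]
      rcases le_total (t k) (s k) with h | h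
      · have : (g k : ℝ) = s k - t k := by simp only [hg]; exact Nat.cast_sub h
        rw [this]
        nlinarith
      · have : (g k : ℝ) = 0 := by simp only [hg]; rw [Nat.sub_eq_zero_of_le h]; simp
        rw [this]
        positivity
  have hs1 : (1 + 4 * κ * c') / 2 < 2 * κ * (2 * η * c') / η := by
    have e : 2 * κ * (2 * η * c') / η = 4 * κ * c' := by field_simp; ring
    rw [e]
    linarith
  have hsum : Summable fun k => ∏ i ∈ Finset.range (g k), (1 - lk κ (t k + i)) := by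
    have h1 : Summable (fun k : ℕ => 1 / (k : ℝ) ^ ((1 + 4 * κ * c') / 2)) :=
      Real.summable_one_div_nat_rpow.2 (by linarith)
    refine Summable.of_norm_bounded_eventually_nat h1 ?_
    filter_upwards [prod_up hη0 htl hgl hκ0.le hs1] with k hk
    rw [Real.norm_of_nonneg (Finset.prod_nonneg fun i _ => by linarith [lk1 κ (t k + i)])]
    exact hk
  have hge' : ∀ᵐ ω ∂μ, ∀ᶠ n in atTop, lk κ n ≤ dens μ ℱ A n ω := by
    filter_upwards [hge] with ω hω
    filter_upwards [hω] with n hn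
    exact (min_le_right _ _).trans hn
  have hmain := win_fin (μ := μ) hA (lk1 κ) hge' (t := t) (g := g) (t_top hη0 htl) hsum
  filter_upwards [hmain] with ω hω
  have hkx : Tendsto (fun x : ℕ => ⌈√(x : ℝ) / η⌉₊) atTop atTop :=
    tendsto_nat_ceil_atTop.comp ((Real.tendsto_sqrt_atTop.comp tendsto_natCast_atTop_atTop).atTop_div_const hη0)
  filter_upwards [hkx.eventually hω] with x hx
  obtain ⟨r, h1, h2, h3⟩ := hx
  set k : ℕ := ⌈√(x : ℝ) / η⌉₊ with hk
  have b1 : √(x : ℝ) ≤ η * k := by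
    have := Nat.le_ceil (√(x : ℝ) / η)
    rw [div_le_iff₀ hη0] at this
    linarith
  have b2 : η * k < √(x : ℝ) + η := by
    have := Nat.ceil_lt_add_one (show 0 ≤ √(x : ℝ) / η by positivity)
    have h := mul_lt_mul_of_pos_left this hη0
    have e : η * (√(x : ℝ) / η + 1) = √(x : ℝ) + η := by field_simp
    rw [e] at h
    exact h
  have b3 : x ≤ t k := by
    have h := Nat.le_ceil ((η * k + 0) ^ 2)
    have h' : (x : ℝ) ≤ (η * k + 0) ^ 2 := by
      calc (x : ℝ) = √(x : ℝ) ^ 2 := (Real.sq_sqrt (Nat.cast_nonneg x)).symm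
        _ ≤ (η * k + 0) ^ 2 := by
          rw [add_zero]
          exact pow_le_pow_left₀ (Real.sqrt_nonneg _) b1 2
    exact_mod_cast h'.trans h
  have b4 : r ≤ s k := by
    simp only [hg] at h2
    omega
  have b5 : √(r : ℝ) ≤ η * k + c' := by
    rw [Real.sqrt_le_left (by positivity)]
    calc (r : ℝ) ≤ s k := by exact_mod_cast b4
      _ ≤ _ := Nat.floor_le (by positivity)
  refine ⟨r, by omega, ?_, h3⟩
  have : η + c' < c := by rw [hη]; linarith
  linarith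

/-- some gaps are long -/
theorem sq_low (hA : ∀ n, MeasurableSet[ℱ n] (A n)) {c κ : ℝ} (hc : 0 < c) (hκ0 : 0 ≤ κ) (hκ : κ < 1 / (4 * c))
    (hle : ∀ᵐ ω ∂μ, ∀ᶠ n : ℕ in atTop, dens μ ℱ A n ω ≤ κ * (Real.log n / √(n : ℝ))) :
    ∀ᵐ ω ∂μ, {k | ω ∈ A k}.Infinite → ∃ᶠ n : ℕ in atTop,
      c < √(pn {k | ω ∈ A k} (n + 1) : ℝ) - √(pn {k | ω ∈ A k} n : ℝ) := by
  classical
  have h4 : 4 * κ * c < 1 := by
    rw [lt_div_iff₀ (by positivity)] at hκ
    linarith
  obtain ⟨c', h6, h8⟩ : ∃ c' : ℝ, c < c' ∧ 4 * κ * c' < 1 := by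
    refine ⟨c + (1 - 4 * κ * c) / (8 * κ + 1), ?_, ?_⟩
    · have : 0 < (1 - 4 * κ * c) / (8 * κ + 1) := div_pos (by linarith) (by positivity)
      linarith
    · have h1 : 4 * κ * ((1 - 4 * κ * c) / (8 * κ + 1)) < 1 - 4 * κ * c := by
        rw [← mul_div_assoc, div_lt_iff₀ (by positivity)]
        nlinarith
      linarith [mul_add (4 * κ) c ((1 - 4 * κ * c) / (8 * κ + 1))]
  have hc'0 : 0 < c' := by linarith
  set t : ℕ → ℕ := fun k => ⌊(c' * k) ^ 2⌋₊ with ht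
  set g : ℕ → ℕ := fun k => t (k + 1) - t k with hg
  have htm : ∀ k, t k ≤ t (k + 1) := by
    intro k
    apply Nat.floor_le_floor
    push_cast
    apply pow_le_pow_left₀ (by positivity)
    nlinarith
  have hk2 : Tendsto (fun k : ℕ => 1 / (k : ℝ) ^ 2) atTop (𝓝 0) := by
    have h1 : Tendsto (fun k : ℕ => (k : ℝ) ^ 2) atTop atTop :=
      (tendsto_pow_atTop (by norm_num)).comp tendsto_natCast_atTop_atTop
    exact h1.inv_tendsto_atTop.congr fun k => (one_div _).symm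
  have hk1 : Tendsto (fun k : ℕ => (k : ℝ)⁻¹) atTop (𝓝 0) := tendsto_inv_atTop_zero.comp tendsto_natCast_atTop_atTop
  have htl : Tendsto (fun k : ℕ => (t k : ℝ) / (k : ℝ) ^ 2) atTop (𝓝 (c' ^ 2)) := by
    have h1 := (tendsto_const_nhds (x := c' ^ 2)).sub hk2
    rw [sub_zero] at h1
    refine tendsto_of_tendsto_of_tendsto_of_le_of_le' h1 tendsto_const_nhds ?_ ?_
    · filter_upwards [eventually_gt_atTop 0] with k hk
      have hk' : (0 : ℝ) < k := by exact_mod_cast hk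
      rw [le_div_iff₀ (by positivity)]
      have := (Nat.sub_one_lt_floor ((c' * k) ^ 2)).le
      have e : (c' ^ 2 - 1 / (k : ℝ) ^ 2) * (k : ℝ) ^ 2 = (c' * k) ^ 2 - 1 := by field_simp
      rw [e]
      exact this
    · filter_upwards [eventually_gt_atTop 0] with k hk
      have hk' : (0 : ℝ) < k := by exact_mod_cast hk
      rw [div_le_iff₀ (by positivity)]
      have := Nat.floor_le (show 0 ≤ (c' * k) ^ 2 by positivity)
      calc (t k : ℝ) ≤ (c' * k) ^ 2 := this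
        _ = _ := by ring
  have hgl : Tendsto (fun k : ℕ => (g k : ℝ) / k) atTop (𝓝 (2 * c' ^ 2)) := by
    have h1 : Tendsto (fun k : ℕ => 2 * c' ^ 2 + (c' ^ 2 - 1) * (k : ℝ)⁻¹) atTop (𝓝 (2 * c' ^ 2)) := by
      have := (hk1.const_mul (c' ^ 2 - 1)).const_add (2 * c' ^ 2)
      rwa [mul_zero, add_zero] at this
    have h2 : Tendsto (fun k : ℕ => 2 * c' ^ 2 + (c' ^ 2 + 1) * (k : ℝ)⁻¹) atTop (𝓝 (2 * c' ^ 2)) := by
      have := (hk1.const_mul (c' ^ 2 + 1)).const_add (2 * c' ^ 2)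
      rwa [mul_zero, add_zero] at this
    refine tendsto_of_tendsto_of_tendsto_of_le_of_le' h1 h2 ?_ ?_
    all_goals
      filter_upwards [eventually_gt_atTop 0] with k hk
      have hk' : (0 : ℝ) < k := by exact_mod_cast hk
      have a0 : (g k : ℝ) = t (k + 1) - t k := by simp only [hg]; exact Nat.cast_sub (htm k)
      have a1 : (c' * ((k + 1 : ℕ) : ℝ)) ^ 2 - 1 ≤ t (k + 1) := (Nat.sub_one_lt_floor _).le
      have a2 : (t (k + 1) : ℝ) ≤ (c' * ((k + 1 : ℕ) : ℝ)) ^ 2 := Nat.floor_le (by positivity)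
      have a3 : (c' * k) ^ 2 - 1 ≤ t k := (Nat.sub_one_lt_floor _).le
      have a4 : (t k : ℝ) ≤ (c' * k) ^ 2 := Nat.floor_le (by positivity)
      push_cast at a1 a2
    · rw [le_div_iff₀ hk', a0]
      have e : (2 * c' ^ 2 + (c' ^ 2 - 1) * (k : ℝ)⁻¹) * k = 2 * c' ^ 2 * k + (c' ^ 2 - 1) := by field_simp
      rw [e]
      nlinarith
    · rw [div_le_iff₀ hk', a0]
      have e : (2 * c' ^ 2 + (c' ^ 2 + 1) * (k : ℝ)⁻¹) * k = 2 * c' ^ 2 * k + (c' ^ 2 + 1) := by field_simp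
      rw [e]
      nlinarith
  have hs1 : 2 * κ * (2 * c' ^ 2) / c' < 1 := by
    have e : 2 * κ * (2 * c' ^ 2) / c' = 4 * κ * c' := by field_simp; ring
    rw [e]
    exact h8
  have hlow := prod_low hc'0 htl hgl hκ0 hs1
  have hprod0 : ∀ k, 0 ≤ ∏ i ∈ Finset.range (g k), (1 - lk κ (t k + i)) := fun k =>
    Finset.prod_nonneg fun i _ => by linarith [lk1 κ (t k + i)]
  have hsum : Tendsto (fun N => ∑ k ∈ Finset.range N, ∏ i ∈ Finset.range (g k), (1 - lk κ (t k + i))) atTop atTop := by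
    rw [← not_summable_iff_tendsto_nat_atTop_of_nonneg hprod0]
    intro hcon
    have h1 : Summable (fun k : ℕ => 1 / (k : ℝ)) := by
      refine Summable.of_norm_bounded_eventually_nat hcon ?_
      filter_upwards [hlow] with k hk
      rw [Real.norm_of_nonneg (by positivity)]
      rw [Real.rpow_one] at hk
      exact hk
    exact Real.not_summable_one_div_natCast h1
  have h01 : ∀ᵐ ω ∂μ, ∀ n, 0 ≤ dens μ ℱ A n ω ∧ dens μ ℱ A n ω ≤ 1 := ae_all_iff.2 fun n => dens01 hA n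
  have hle' : ∀ᵐ ω ∂μ, ∀ᶠ n in atTop, dens μ ℱ A n ω ≤ lk κ n := by
    filter_upwards [hle, h01] with ω hω h2
    filter_upwards [hω] with n hn
    exact le_min (h2 n).2 hn
  have hmain := win_io (μ := μ) hA (lk0 hκ0) (lk1 κ) hle' (t := t) (g := g) (t_top hc'0 htl)
    (fun k => by simp only [hg]; have := htm k; omega) hsum
  filter_upwards [hmain] with ω hω hS
  have hmono : StrictMono (pn {k | ω ∈ A k}) := Nat.nth_strictMono hS
  rw [frequently_atTop]
  intro N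
  obtain ⟨k, hk1, hk2⟩ := (hω.and_eventually ((t_top hc'0 htl).eventually_ge_atTop (pn {k | ω ∈ A k} N))).exists
  set S : Set ℕ := {k | ω ∈ A k} with hSd
  set m : ℕ := Nat.count (· ∈ S) (t k + 1) with hm
  have c1 : N < m := (Nat.lt_nth_iff_count_lt hS).2 (show Nat.nth (· ∈ S) N < t k + 1 from by
    have : pn S N ≤ t k := hk2
    exact Nat.lt_succ_of_le this)
  have c2 : pn S (m - 1) < t k + 1 := (Nat.lt_nth_iff_count_lt hS).1 (show m - 1 < Nat.count (· ∈ S) (t k + 1) by omega)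
  have c3 : t k + 1 ≤ pn S m := Nat.le_nth_count hS (t k + 1)
  have c4 : pn S m ∈ S := Nat.nth_mem_of_infinite hS m
  have c5 : t (k + 1) < pn S m := by
    by_contra hcon
    refine hk1 (pn S m) (by omega) ?_ c4
    simp only [hg]
    have := htm k
    omega
  refine ⟨m - 1, by omega, ?_⟩
  rw [show m - 1 + 1 = m by omega]
  have c6 : √(pn S (m - 1) : ℝ) ≤ c' * k := by
    rw [Real.sqrt_le_left (by positivity)]
    calc (pn S (m - 1) : ℝ) ≤ t k := by exact_mod_cast Nat.lt_succ_iff.1 c2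
      _ ≤ _ := Nat.floor_le (by positivity)
  have c7 : c' * ((k : ℝ) + 1) ≤ √(pn S m : ℝ) := by
    apply Real.le_sqrt_of_sq_le
    have h1 : (c' * ((k + 1 : ℕ) : ℝ)) ^ 2 < t (k + 1) + 1 := Nat.lt_floor_add_one _
    have h2 : ((t (k + 1) + 1 : ℕ) : ℝ) ≤ pn S m := by exact_mod_cast c5
    push_cast at h1 h2
    linarith
  linarith

/-- the upper estimate in terms of the members -/
lemma sq_next {S : Set ℕ} {c : ℝ} (_hc : 0 < c) (h : ∀ᶠ x : ℕ in atTop, ∃ r : ℕ, x < r ∧ √(r : ℝ) < √(x : ℝ) + c ∧ r ∈ S) :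
    S.Infinite ∧ ∀ᶠ n : ℕ in atTop, √(pn S (n + 1) : ℝ) - √(pn S n : ℝ) < c := by
  classical
  have hS : S.Infinite := by
    rw [Set.infinite_iff_exists_gt]
    intro a
    obtain ⟨x, hx1, hx2⟩ := (h.and (eventually_ge_atTop a)).exists
    obtain ⟨r, h1, _, h3⟩ := hx1
    exact ⟨r, h3, by omega⟩
  refine ⟨hS, ?_⟩
  have hmono : StrictMono (pn S) := Nat.nth_strictMono hS
  filter_upwards [hmono.tendsto_atTop.eventually h] with n hn
  obtain ⟨r, h1, h2, h3⟩ := hn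
  obtain ⟨k, hk⟩ : ∃ k, pn S k = r := ⟨Nat.count (· ∈ S) r, Nat.nth_count (p := (· ∈ S)) h3⟩
  have h4 : n < k := hmono.lt_iff_lt.1 (by rw [hk]; exact h1)
  have h5 : pn S (n + 1) ≤ r := by
    rw [← hk]
    exact hmono.monotone h4
  have h6 : √(pn S (n + 1) : ℝ) ≤ √(r : ℝ) := Real.sqrt_le_sqrt (by exact_mod_cast h5)
  linarith

lemma sq_pos {S : Set ℕ} (hS : S.Infinite) (n : ℕ) : 0 < √(pn S (n + 1) : ℝ) - √(pn S n : ℝ) := by
  have h1 : pn S n < pn S (n + 1) := Nat.nth_strictMono hS (Nat.lt_succ_self n)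
  have h2 : √(pn S n : ℝ) < √(pn S (n + 1) : ℝ) := Real.sqrt_lt_sqrt (Nat.cast_nonneg _) (by exact_mod_cast h1)
  linarith

lemma dens_conv {κ x : ℝ} {n : ℕ} (hn : 2 ≤ n) :
    (κ ≤ x * (√(n : ℝ) / Real.log n) ↔ κ * (Real.log n / √(n : ℝ)) ≤ x) ∧
    (x * (√(n : ℝ) / Real.log n) ≤ κ ↔ x ≤ κ * (Real.log n / √(n : ℝ))) := by
  have hn' : (2 : ℝ) ≤ n := by exact_mod_cast hn
  have hL : 0 < Real.log n := Real.log_pos (by linarith)
  have hs : 0 < √(n : ℝ) := Real.sqrt_pos.2 (by linarith)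
  constructor
  · rw [← mul_div_assoc, le_div_iff₀ hL, ← mul_div_assoc, div_le_iff₀ hs]
  · rw [← mul_div_assoc, div_le_iff₀ hL, ← mul_div_assoc, le_div_iff₀ hs]

/-- **the threshold** -/
theorem root_law (hA : ∀ n, MeasurableSet[ℱ n] (A n)) {κ : ℝ} (hκ : 0 < κ)
    (hd : ∀ᵐ ω ∂μ, Tendsto (fun n : ℕ => dens μ ℱ A n ω * (√(n : ℝ) / Real.log n)) atTop (𝓝 κ)) :
    ∀ᵐ ω ∂μ, {k | ω ∈ A k}.Infinite ∧
      limsup (fun n : ℕ => √(pn {k | ω ∈ A k} (n + 1) : ℝ) - √(pn {k | ω ∈ A k} n : ℝ)) atTop = 1 / (4 * κ) := by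
  have hup : ∀ᵐ ω ∂μ, ∀ j : ℕ, ∀ᶠ x : ℕ in atTop, ∃ r : ℕ, x < r ∧
      √(r : ℝ) < √(x : ℝ) + 1 / (4 * κ) * (1 + 1 / ((j : ℝ) + 1)) ∧ ω ∈ A r := by
    rw [ae_all_iff]
    intro j
    have hj : 0 < 1 / ((j : ℝ) + 1) := by positivity
    have h1 : κ / (1 + 1 / ((j : ℝ) + 1)) < κ := by
      rw [div_lt_iff₀ (by positivity)]
      nlinarith
    have h2 : 1 / (4 * (1 / (4 * κ) * (1 + 1 / ((j : ℝ) + 1)))) = κ / (1 + 1 / ((j : ℝ) + 1)) := by
      field_simp
    refine sq_up hA (κ := (κ / (1 + 1 / ((j : ℝ) + 1)) + κ) / 2) (by positivity) (by rw [h2]; linarith) ?_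
    filter_upwards [hd] with ω hω
    filter_upwards [hω.eventually_const_le (show (κ / (1 + 1 / ((j : ℝ) + 1)) + κ) / 2 < κ by linarith),
      eventually_ge_atTop 2] with n hn hn2
    exact (dens_conv hn2).1.1 hn
  have hlow : ∀ᵐ ω ∂μ, ∀ j : ℕ, {k | ω ∈ A k}.Infinite → ∃ᶠ n : ℕ in atTop,
      1 / (4 * κ) * (1 - 1 / ((j : ℝ) + 2)) < √(pn {k | ω ∈ A k} (n + 1) : ℝ) - √(pn {k | ω ∈ A k} n : ℝ) := by
    rw [ae_all_iff]
    intro j
    have hj : 0 < 1 / ((j : ℝ) + 2) := by positivity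
    have hj1 : 1 / ((j : ℝ) + 2) < 1 := by
      rw [div_lt_one (by positivity)]
      have : (0 : ℝ) ≤ j := Nat.cast_nonneg j
      linarith
    have h1 : κ < κ / (1 - 1 / ((j : ℝ) + 2)) := by
      rw [lt_div_iff₀ (by linarith)]
      nlinarith
    have h2 : 1 / (4 * (1 / (4 * κ) * (1 - 1 / ((j : ℝ) + 2)))) = κ / (1 - 1 / ((j : ℝ) + 2)) := by
      have : 1 - 1 / ((j : ℝ) + 2) ≠ 0 := by linarith
      field_simp
    refine sq_low hA (κ := (κ / (1 - 1 / ((j : ℝ) + 2)) + κ) / 2) (mul_pos (by positivity) (by linarith))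
      (by linarith) (by rw [h2]; linarith) ?_
    filter_upwards [hd] with ω hω
    filter_upwards [hω.eventually_le_const (show κ < (κ / (1 - 1 / ((j : ℝ) + 2)) + κ) / 2 by linarith),
      eventually_ge_atTop 2] with n hn hn2
    exact (dens_conv hn2).2.1 hn
  filter_upwards [hup, hlow] with ω h1 h2
  have hS : {k | ω ∈ A k}.Infinite := (sq_next (by positivity) (h1 0)).1
  refine ⟨hS, limsup_of (fun s' hs' => ?_) (fun s' hs' => ?_)⟩
  · obtain ⟨j, hj⟩ := exists_nat_one_div_lt (show 0 < (s' - 1 / (4 * κ)) * (4 * κ) by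
      apply mul_pos (by linarith) (by positivity))
    filter_upwards [(sq_next (by positivity) (h1 j)).2] with n hn
    refine hn.trans ?_
    have h3 := mul_lt_mul_of_pos_left hj (show 0 < 1 / (4 * κ) by positivity)
    have e : 1 / (4 * κ) * ((s' - 1 / (4 * κ)) * (4 * κ)) = s' - 1 / (4 * κ) := by field_simp
    rw [e] at h3
    rw [mul_add, mul_one]
    linarith
  · obtain ⟨j, hj⟩ := exists_nat_one_div_lt (show 0 < (1 / (4 * κ) - s') * (4 * κ) by
      apply mul_pos (by linarith) (by positivity))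
    refine (h2 j hS).mono fun n hn => lt_trans ?_ hn
    have h4 : 1 / ((j : ℝ) + 2) ≤ 1 / ((j : ℝ) + 1) := one_div_le_one_div_of_le (by positivity) (by linarith)
    have h3 := mul_lt_mul_of_pos_left (lt_of_le_of_lt h4 hj) (show 0 < 1 / (4 * κ) by positivity)
    have e : 1 / (4 * κ) * ((1 / (4 * κ) - s') * (4 * κ)) = 1 / (4 * κ) - s' := by field_simp
    rw [e] at h3
    rw [mul_sub, mul_one]
    linarith

theorem root_top (hA : ∀ n, MeasurableSet[ℱ n] (A n))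
    (hd : ∀ᵐ ω ∂μ, Tendsto (fun n : ℕ => dens μ ℱ A n ω * (√(n : ℝ) / Real.log n)) atTop atTop) :
    ∀ᵐ ω ∂μ, {k | ω ∈ A k}.Infinite ∧
      Tendsto (fun n : ℕ => √(pn {k | ω ∈ A k} (n + 1) : ℝ) - √(pn {k | ω ∈ A k} n : ℝ)) atTop (𝓝 0) := by
  have hup : ∀ᵐ ω ∂μ, ∀ j : ℕ, ∀ᶠ x : ℕ in atTop, ∃ r : ℕ, x < r ∧
      √(r : ℝ) < √(x : ℝ) + 1 / ((j : ℝ) + 1) ∧ ω ∈ A r := by
    rw [ae_all_iff]
    intro j
    refine sq_up hA (κ := 1 / (4 * (1 / ((j : ℝ) + 1))) + 1) (by positivity) (by linarith) ?_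
    filter_upwards [hd] with ω hω
    filter_upwards [hω.eventually_ge_atTop (1 / (4 * (1 / ((j : ℝ) + 1))) + 1), eventually_ge_atTop 2] with n hn hn2
    exact (dens_conv hn2).1.1 hn
  filter_upwards [hup] with ω h1
  have hS : {k | ω ∈ A k}.Infinite := (sq_next (by positivity) (h1 0)).1
  refine ⟨hS, ?_⟩
  rw [tendsto_order]
  constructor
  · intro a ha
    exact Eventually.of_forall fun n => ha.trans (sq_pos hS n)
  · intro b hb
    obtain ⟨j, hj⟩ := exists_nat_one_div_lt hb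
    filter_upwards [(sq_next (by positivity) (h1 j)).2] with n hn
    exact hn.trans hj

theorem root_zero (hA : ∀ n, MeasurableSet[ℱ n] (A n))
    (hd : ∀ᵐ ω ∂μ, Tendsto (fun n : ℕ => dens μ ℱ A n ω * (√(n : ℝ) / Real.log n)) atTop (𝓝 0)) :
    ∀ᵐ ω ∂μ, {k | ω ∈ A k}.Infinite → ∀ C : ℝ, ∃ᶠ n : ℕ in atTop,
      C < √(pn {k | ω ∈ A k} (n + 1) : ℝ) - √(pn {k | ω ∈ A k} n : ℝ) := by
  have hlow : ∀ᵐ ω ∂μ, ∀ j : ℕ, {k | ω ∈ A k}.Infinite → ∃ᶠ n : ℕ in atTop,
      (j : ℝ) + 1 < √(pn {k | ω ∈ A k} (n + 1) : ℝ) - √(pn {k | ω ∈ A k} n : ℝ) := by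
    rw [ae_all_iff]
    intro j
    refine sq_low hA (κ := 1 / (8 * ((j : ℝ) + 1))) (by positivity) (by positivity) ?_ ?_
    · apply one_div_lt_one_div_of_lt (by positivity)
      have : (0 : ℝ) ≤ j := Nat.cast_nonneg j
      linarith
    filter_upwards [hd] with ω hω
    filter_upwards [hω.eventually_le_const (show 0 < 1 / (8 * ((j : ℝ) + 1)) by positivity),
      eventually_ge_atTop 2] with n hn hn2
    exact (dens_conv hn2).2.1 hn
  filter_upwards [hlow] with ω h1 hS C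
  obtain ⟨j, hj⟩ := exists_nat_gt C
  exact (h1 j hS).mono fun n hn => by linarith

end Pool.Agent.N417.SM
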