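import Mathlib
import Pool.Agent.N417.SM.Opp
import Pool.Agent.N417.SM.Sq

/-!
# The inequality of Andrica in adapted random sets
-/

set_option autoImplicit false
set_option linter.unusedSectionVars false

open MeasureTheory Filter Set
open scoped Topology ENNReal

namespace Pool.Agent.N417.SM

open Pool.Agent.R528.RM Pool.Agent.N740.HK

variable {Ω : Type} {m0 : MeasurableSpace Ω} {μ : Measure Ω} [IsProbabilityMeasure μ]
  {ℱ : Filtration ℕ m0} {A : ℕ → Set Ω}

/-- finitely many windows for every index -/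
theorem win_fin2 (hA : ∀ n, MeasurableSet[ℱ n] (A n)) {lam : ℕ → ℝ} (h1 : ∀ n, lam n ≤ 1)
    (hge : ∀ᵐ ω ∂μ, ∀ᶠ n in atTop, lam n ≤ dens μ ℱ A n ω) {m : ℕ → ℕ} {t g : ℕ → ℕ → ℕ}
    {t0 : ℕ → ℕ} (ht0 : Tendsto t0 atTop atTop) (ht : ∀ᶠ j in atTop, ∀ i < m j, t0 j ≤ t j i)
    (hsum : Summable fun j => ∑ i ∈ Finset.range (m j), ∏ r ∈ Finset.range (g j i), (1 - lam (t j i + r))) :
    ∀ᵐ ω ∂μ, ∀ᶠ j in atTop, ∀ i < m j, ∃ r, t j i < r ∧ r ≤ t j i + g j i ∧ ω ∈ A r := by
  set V : ℕ → Set Ω := fun n => {ω | ¬ lam n ≤ dens μ ℱ A n ω} with hVd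
  have hV : ∀ n, MeasurableSet[ℱ n] (V n) := by
    intro n
    have : MeasurableSet {x : ℝ | ¬ lam n ≤ x} := measurableSet_Ici.compl
    exact (dens_meas (μ := μ) n).measurable this
  set B : ℕ → Set Ω := fun j => ⋃ i ∈ Finset.range (m j), (NE A (t j i) (g j i) \ VX V (t j i) (g j i)) with hB
  have hb : ∀ j, μ.real (B j) ≤ ∑ i ∈ Finset.range (m j), ∏ r ∈ Finset.range (g j i), (1 - lam (t j i + r)) := by
    intro j
    refine (measureReal_biUnion_finset_le _ _).trans (Finset.sum_le_sum fun i _ => ?_)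
    have h2 := ne_le (μ := μ) hA h1 hV (fun n ω h => not_not.1 h) (t j i) (g j i) (C := univ) (@MeasurableSet.univ _ (ℱ (t j i)))
    rw [univ_inter] at h2
    simpa using h2
  have h2 : Summable (fun j => μ.real (B j)) :=
    Summable.of_nonneg_of_le (fun k => measureReal_nonneg) hb hsum
  have h3 : ∑' j, μ (B j) ≠ ∞ := by
    have h4 : ∀ j, μ (B j) = ENNReal.ofReal (μ.real (B j)) := fun j => by
      rw [ofReal_measureReal (measure_ne_top _ _)]
    simp_rw [h4]
    exact h2.tsum_ofReal_ne_top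
  filter_upwards [ae_eventually_notMem h3, hge] with ω h4 h5
  obtain ⟨n₀, hn₀⟩ := eventually_atTop.1 h5
  filter_upwards [h4, ht, ht0.eventually_ge_atTop n₀] with j hj1 hj2 hj3 i hi
  by_contra hcon
  push Not at hcon
  apply hj1
  simp only [hB, mem_iUnion]
  refine ⟨i, Finset.mem_range.2 hi, fun r hr1 hr2 => hcon r hr1 hr2, ?_⟩
  rintro ⟨n, hn1, _, hn3⟩
  have := hj2 i hi
  exact hn3 (hn₀ n (by omega))

/-- the comparison sequence -/
noncomputable def la (c : ℝ) (n : ℕ) : ℝ := min 1 (max 0 ((Real.log n + c * Real.log (Real.log n)) / (4 * √(n : ℝ))))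

lemma la1 (c : ℝ) (n : ℕ) : la c n ≤ 1 := min_le_left _ _

/-- **above the threshold**: short gaps after every integer -/
theorem and_up (hA : ∀ n, MeasurableSet[ℱ n] (A n)) {c : ℝ} (hc : 4 < c)
    (hge : ∀ᵐ ω ∂μ, ∀ᶠ n : ℕ in atTop, (Real.log n + c * Real.log (Real.log n)) / (4 * √(n : ℝ)) ≤ dens μ ℱ A n ω) :
    ∀ᵐ ω ∂μ, ∀ᶠ x : ℕ in atTop, ∃ r : ℕ, x < r ∧ √(r : ℝ) < √(x : ℝ) + 1 ∧ ω ∈ A r := by
  have h01 : ∀ᵐ ω ∂μ, ∀ n, 0 ≤ dens μ ℱ A n ω ∧ dens μ ℱ A n ω ≤ 1 := ae_all_iff.2 fun n => dens01 hA n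
  have hge' : ∀ᵐ ω ∂μ, ∀ᶠ n in atTop, la c n ≤ dens μ ℱ A n ω := by
    filter_upwards [hge, h01] with ω hω h2
    filter_upwards [hω] with n hn
    exact (min_le_right _ _).trans (max_le (h2 n).1 hn)
  set M : ℕ → ℕ := fun j => ⌈Real.log j⌉₊ with hM
  set a : ℕ → ℕ → ℝ := fun j i => j + (i : ℝ) / M j with ha
  set t : ℕ → ℕ → ℕ := fun j i => ⌈a j i ^ 2⌉₊ with ht
  set s : ℕ → ℕ → ℕ := fun j i => ⌊(a j i + (1 - 1 / (M j : ℝ))) ^ 2⌋₊ with hs
  set g : ℕ → ℕ → ℕ := fun j i => s j i - t j i with hg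
  have hl1 : Tendsto (fun x : ℕ => Real.log x / x) atTop (𝓝 0) :=
    (Real.isLittleO_log_id_atTop.tendsto_div_nhds_zero).comp tendsto_natCast_atTop_atTop
  have hbd : ∀ᶠ j : ℕ in atTop, ∀ i < M j + 1,
      ∏ r ∈ Finset.range (g j i), (1 - la c (t j i + r)) ≤ Real.exp (2 + c) * (1 / ((j : ℝ) * Real.log j ^ (c / 2))) := by
    filter_upwards [hl1.eventually_le_const (show 0 < 1 / (6 * (c + 1)) by positivity),
      tendsto_logN.eventually_ge_atTop 2, eventually_ge_atTop 8] with j hj1 hL hj8 i hi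
    have hj' : (8 : ℝ) ≤ j := by exact_mod_cast hj8
    have hj0 : (0 : ℝ) < j := by linarith
    obtain ⟨L, hLd⟩ : ∃ L, L = Real.log (j : ℝ) := ⟨_, rfl⟩
    have hMj : L ≤ M j := by rw [hLd]; exact Nat.le_ceil _
    rw [← hLd] at hj1 hL ⊢
    have hM0 : (0 : ℝ) < M j := by linarith
    have hLL0 : 0 < Real.log L := Real.log_pos (by linarith)
    have hLL : Real.log L ≤ L := (Real.log_le_sub_one_of_pos (by linarith)).trans (by linarith)
    rw [div_le_iff₀ hj0, div_mul_eq_mul_div, one_mul, le_div_iff₀ (by positivity)] at hj1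
    have hi' : (i : ℝ) ≤ M j := by exact_mod_cast Nat.lt_succ_iff.1 hi
    have ha0 : (j : ℝ) ≤ a j i := by
      simp only [ha]
      have : 0 ≤ (i : ℝ) / M j := by positivity
      linarith
    have ha1 : a j i ≤ j + 1 := by
      simp only [ha]
      have : (i : ℝ) / M j ≤ 1 := by rw [div_le_one hM0]; exact hi'
      linarith
    obtain ⟨ρ, hρ⟩ : ∃ ρ : ℝ, ρ = 1 / (M j : ℝ) := ⟨_, rfl⟩
    have hρ0 : 0 < ρ := by rw [hρ]; positivity
    have hρ1 : ρ * L ≤ 1 := by
      rw [hρ, div_mul_eq_mul_div, one_mul, div_le_one hM0]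
      exact hMj
    have hρ2 : ρ ≤ 1 / 2 := by nlinarith
    have hsa : (a j i + (1 - ρ)) ^ 2 - 1 ≤ s j i := by
      simp only [hs]
      rw [← hρ]
      exact (Nat.sub_one_lt_floor _).le
    have hsb : (s j i : ℝ) ≤ (a j i + (1 - ρ)) ^ 2 := by
      simp only [hs]
      rw [← hρ]
      exact Nat.floor_le (sq_nonneg _)
    have hta : a j i ^ 2 ≤ t j i := Nat.le_ceil _
    have htb : (t j i : ℝ) ≤ a j i ^ 2 + 1 := (Nat.ceil_lt_add_one (sq_nonneg _)).le
    have hgl : 2 * j * (1 - ρ) - 2 ≤ g j i := by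
      have h1 : s j i ≤ g j i + t j i := by simp only [hg]; omega
      have h2 : (s j i : ℝ) ≤ g j i + t j i := by exact_mod_cast h1
      nlinarith [mul_le_mul_of_nonneg_right ha0 (show 0 ≤ 1 - ρ by linarith), sq_nonneg (1 - ρ)]
    set v : ℝ := (2 * L + c * Real.log L) / (4 * ((j : ℝ) + 2)) with hv
    have hcL0 : 0 < c * Real.log L := by positivity
    have hcL : c * Real.log L ≤ c * L := mul_le_mul_of_nonneg_left hLL (by linarith)
    have hv0 : 0 ≤ v := by
      rw [hv]
      positivity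
    have hv1 : v ≤ 1 := by
      rw [hv, div_le_one (by positivity)]
      nlinarith
    have h4 : ∏ r ∈ Finset.range (g j i), (1 - la c (t j i + r)) ≤ ∏ _r ∈ Finset.range (g j i), Real.exp (-v) := by
      refine Finset.prod_le_prod (fun r _ => by linarith [la1 c (t j i + r)]) fun r hr => ?_
      have hr' := Finset.mem_range.1 hr
      obtain ⟨n, hn⟩ : ∃ n, n = t j i + r := ⟨_, rfl⟩
      rw [← hn]
      have hn1 : (j : ℝ) ^ 2 ≤ n := by
        have h1 : t j i ≤ n := by omega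
        have h2 : (t j i : ℝ) ≤ n := by exact_mod_cast h1
        nlinarith
      have hn2 : (n : ℝ) ≤ ((j : ℝ) + 2) ^ 2 := by
        have h1 : n ≤ s j i := by simp only [hg] at hr'; omega
        have h2 : (n : ℝ) ≤ s j i := by exact_mod_cast h1
        have h3 : (a j i + (1 - ρ)) ^ 2 ≤ ((j : ℝ) + 2) ^ 2 := pow_le_pow_left₀ (by linarith) (by linarith) 2
        linarith
      have hlogn : 2 * L ≤ Real.log n := by
        have h1 := Real.log_le_log (by positivity) hn1
        rw [Real.log_pow, ← hLd] at h1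
        push_cast at h1
        exact h1
      have hllog : Real.log L ≤ Real.log (Real.log n) := Real.log_le_log (by linarith) (by linarith)
      have hsq : √(n : ℝ) ≤ (j : ℝ) + 2 := by
        rw [Real.sqrt_le_left (by positivity)]
        exact hn2
      have hsq0 : 0 < √(n : ℝ) := Real.sqrt_pos.2 (by nlinarith)
      have h5 : v ≤ la c n := by
        refine le_min hv1 (le_max_of_le_right ?_)
        rw [hv]
        have a1 : 2 * L + c * Real.log L ≤ Real.log n + c * Real.log (Real.log n) := by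
          have := mul_le_mul_of_nonneg_left hllog (show 0 ≤ c by linarith)
          linarith
        exact div_le_div₀ (by linarith) a1 (by positivity) (by linarith)
      have h6 := Real.add_one_le_exp (-v)
      linarith
    refine h4.trans ?_
    rw [Finset.prod_const, Finset.card_range, ← Real.exp_nat_mul]
    have e1 : Real.exp (2 + c) * (1 / ((j : ℝ) * L ^ (c / 2))) = Real.exp (2 + c - L - c / 2 * Real.log L) := by
      rw [sub_sub, Real.exp_sub, Real.exp_add L, mul_comm (c / 2), Real.exp_mul, Real.exp_log (by linarith : 0 < L), hLd,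
        Real.exp_log hj0]
      ring
    rw [e1]
    apply Real.exp_le_exp.2
    have h5 : (2 * j * (1 - ρ) - 2) * v ≤ g j i * v := mul_le_mul_of_nonneg_right hgl hv0
    have e2 : (2 * j * (1 - ρ) - 2) * v = (L + c / 2 * Real.log L) - (ρ + (3 - 2 * ρ) / ((j : ℝ) + 2)) * (L + c / 2 * Real.log L) := by
      rw [hv]
      field_simp
      ring
    have h6 : (ρ + (3 - 2 * ρ) / ((j : ℝ) + 2)) * (L + c / 2 * Real.log L) ≤ 2 + c := by
      have h7 : (3 - 2 * ρ) / ((j : ℝ) + 2) * (L + c / 2 * Real.log L) ≤ 1 := by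
        rw [div_mul_eq_mul_div, div_le_one (by positivity)]
        nlinarith
      have h8 : ρ * (L + c / 2 * Real.log L) ≤ 1 + c / 2 := by
        have : ρ * Real.log L ≤ 1 := (mul_le_mul_of_nonneg_left hLL hρ0.le).trans hρ1
        nlinarith
      rw [add_mul]
      linarith
    have : (g j i : ℝ) * -v = -(g j i * v) := by ring
    rw [this]
    linarith
  have hsum : Summable fun j => ∑ i ∈ Finset.range (M j + 1), ∏ r ∈ Finset.range (g j i), (1 - la c (t j i + r)) := by
    have h1 : Summable (fun n : ℕ => 3 * Real.exp (2 + c) * 2 ^ (c / 2 - 1) *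
        (1 / ((n : ℝ) * Real.log ((n : ℝ) + 1) ^ (c / 2 - 1)))) :=
      (ser_conv (show 1 < c / 2 - 1 by linarith)).mul_left _
    refine Summable.of_norm_bounded_eventually_nat h1 ?_
    filter_upwards [hbd, eventually_ge_atTop 8, tendsto_logN.eventually_ge_atTop 2] with j hj hj3 hL2
    have hj' : (8 : ℝ) ≤ j := by exact_mod_cast hj3
    have hj0 : (0 : ℝ) < j := by linarith
    rw [Real.norm_of_nonneg (Finset.sum_nonneg fun i _ => Finset.prod_nonneg fun r _ => by linarith [la1 c (t j i + r)])]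
    refine (Finset.sum_le_sum fun i hi => hj i (Finset.mem_range.1 hi)).trans ?_
    rw [Finset.sum_const, Finset.card_range, nsmul_eq_mul]
    have hL : 0 < Real.log j := by linarith
    have h2 : Real.log ((j : ℝ) + 1) ≤ 2 * Real.log j := by
      have : Real.log ((j : ℝ) + 1) ≤ Real.log ((j : ℝ) ^ 2) := Real.log_le_log (by linarith) (by nlinarith)
      rw [Real.log_pow] at this
      push_cast at this
      exact this
    have h3 : 0 < Real.log ((j : ℝ) + 1) := Real.log_pos (by linarith)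
    have h4 : Real.log ((j : ℝ) + 1) ^ (c / 2 - 1) ≤ 2 ^ (c / 2 - 1) * Real.log j ^ (c / 2 - 1) := by
      rw [← Real.mul_rpow (by norm_num) hL.le]
      exact Real.rpow_le_rpow h3.le h2 (by linarith)
    have h5 : ((M j + 1 : ℕ) : ℝ) ≤ 3 * Real.log j := by
      have := (Nat.ceil_lt_add_one hL.le).le
      push_cast
      linarith
    have h6 : Real.log j ^ (c / 2) = Real.log j ^ (c / 2 - 1) * Real.log j := by
      rw [← Real.rpow_add_one hL.ne']
      congr 1
      ring
    rw [h6]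
    have h7 : 0 < Real.log j ^ (c / 2 - 1) := Real.rpow_pos_of_pos hL _
    have h8 : 0 < Real.log ((j : ℝ) + 1) ^ (c / 2 - 1) := Real.rpow_pos_of_pos h3 _
    calc ((M j + 1 : ℕ) : ℝ) * (Real.exp (2 + c) * (1 / ((j : ℝ) * (Real.log j ^ (c / 2 - 1) * Real.log j))))
        ≤ (3 * Real.log j) * (Real.exp (2 + c) * (1 / ((j : ℝ) * (Real.log j ^ (c / 2 - 1) * Real.log j)))) :=
          mul_le_mul_of_nonneg_right h5 (by positivity)
      _ = 3 * Real.exp (2 + c) * (1 / ((j : ℝ) * Real.log j ^ (c / 2 - 1))) := by field_simp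
      _ ≤ 3 * Real.exp (2 + c) * (2 ^ (c / 2 - 1) * (1 / ((j : ℝ) * Real.log ((j : ℝ) + 1) ^ (c / 2 - 1)))) := by
          apply mul_le_mul_of_nonneg_left _ (by positivity)
          rw [mul_one_div, div_le_div_iff₀ (by positivity) (by positivity)]
          nlinarith [mul_le_mul_of_nonneg_left h4 hj0.le]
      _ = _ := by ring
  have hmain := win_fin2 (μ := μ) hA (la1 c) hge' (m := fun j => M j + 1) (t := t) (g := g) (t0 := fun j => j)
    tendsto_id (by
      filter_upwards [eventually_ge_atTop 1] with j hj i hi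
      have hj' : (1 : ℝ) ≤ j := by exact_mod_cast hj
      have h1 : (j : ℝ) ≤ t j i := by
        refine le_trans ?_ (Nat.le_ceil (a j i ^ 2))
        have : (j : ℝ) ≤ a j i := by
          simp only [ha]
          have : 0 ≤ (i : ℝ) / M j := by positivity
          linarith
        nlinarith
      exact_mod_cast h1) hsum
  filter_upwards [hmain] with ω hω
  have hjx : Tendsto (fun x : ℕ => ⌊√(x : ℝ)⌋₊) atTop atTop :=
    tendsto_nat_floor_atTop.comp (Real.tendsto_sqrt_atTop.comp tendsto_natCast_atTop_atTop)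
  filter_upwards [hjx.eventually hω, (tendsto_logN.comp hjx).eventually_ge_atTop 2] with x hx hLx
  set j : ℕ := ⌊√(x : ℝ)⌋₊ with hj
  simp only [Function.comp] at hLx
  have hMj : (0 : ℝ) < M j := lt_of_lt_of_le (by linarith : (0 : ℝ) < Real.log j) (Nat.le_ceil _)
  have b1 : (j : ℝ) ≤ √(x : ℝ) := Nat.floor_le (Real.sqrt_nonneg _)
  have b2 : √(x : ℝ) < j + 1 := Nat.lt_floor_add_one _
  set i : ℕ := ⌈(√(x : ℝ) - j) * M j⌉₊ with hi
  have b3 : (√(x : ℝ) - j) * M j ≤ i := Nat.le_ceil _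
  have b4 : (i : ℝ) < (√(x : ℝ) - j) * M j + 1 := Nat.ceil_lt_add_one (mul_nonneg (by linarith) hMj.le)
  have b5 : i < M j + 1 := by
    have h1 : (√(x : ℝ) - j) * M j ≤ M j := by nlinarith
    have h2 : i ≤ M j := Nat.ceil_le.2 h1
    omega
  obtain ⟨r, h1, h2, h3⟩ := hx i b5
  have c1 : √(x : ℝ) ≤ a j i := by
    simp only [ha]
    rw [← sub_le_iff_le_add', le_div_iff₀ hMj]
    exact b3
  have c2 : a j i < √(x : ℝ) + 1 / M j := by
    simp only [ha]
    rw [← lt_sub_iff_add_lt', div_lt_iff₀ hMj]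
    have e : (√(x : ℝ) + 1 / M j - j) * M j = (√(x : ℝ) - j) * M j + 1 := by field_simp; ring
    rw [e]
    exact b4
  have c3 : x ≤ t j i := by
    have h := Nat.le_ceil (a j i ^ 2)
    have h' : (x : ℝ) ≤ a j i ^ 2 := by
      calc (x : ℝ) = √(x : ℝ) ^ 2 := (Real.sq_sqrt (Nat.cast_nonneg x)).symm
        _ ≤ a j i ^ 2 := pow_le_pow_left₀ (Real.sqrt_nonneg _) c1 2
    exact_mod_cast h'.trans h
  have c4 : r ≤ s j i := by
    simp only [hg] at h2
    omega
  have hM1 : 1 / (M j : ℝ) ≤ 1 := by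
    rw [div_le_one hMj]
    have : Real.log j ≤ M j := Nat.le_ceil _
    linarith
  have c0 : 0 ≤ a j i := (Real.sqrt_nonneg _).trans c1
  have c5 : √(r : ℝ) ≤ a j i + (1 - 1 / M j) := by
    rw [Real.sqrt_le_left (by linarith)]
    calc (r : ℝ) ≤ s j i := by exact_mod_cast c4
      _ ≤ _ := Nat.floor_le (sq_nonneg _)
  refine ⟨r, by omega, by linarith, h3⟩

end Pool.Agent.N417.SM
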