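import Mathlib
import Pool.Agent.N417.SM.Opp
import Pool.Agent.N417.SM.Sq

/-!
# Failure of the inequality of Andrica at the threshold
-/

set_option autoImplicit false
set_option linter.unusedSectionVars false

open MeasureTheory Filter Set
open scoped Topology ENNReal

namespace Pool.Agent.N417.SM

open Pool.Agent.R528.RM Pool.Agent.N740.HK

variable {Ω : Type} {m0 : MeasurableSpace Ω} {μ : Measure Ω} [IsProbabilityMeasure μ]
  {ℱ : Filtration ℕ m0} {A : ℕ → Set Ω}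

/-- the parameters of the block number `k` -/
noncomputable def lo (δ : ℝ) (k : ℕ) : ℝ := δ * (2 * Real.log k) / (3 * k + 4)

noncomputable def hi (k : ℕ) : ℝ := (2 * Real.log k + 4 * Real.log (Real.log k) + 11) / (12 * k)

lemma blk_ana {δ : ℝ} (hδ : 0 < δ) : ∀ᶠ k : ℕ in atTop, 0 ≤ lo δ k ∧ 0 ≤ hi k ∧ hi k ≤ 1 ∧
    ((6 * k + 10 : ℕ) : ℝ) * (lo δ k * (1 - hi k) ^ (6 * k + 10)) ≤ 1 ∧
    δ * Real.exp (-8) * (1 / ((k : ℝ) * Real.log k)) ≤ ((6 * k + 10 : ℕ) : ℝ) * (lo δ k * (1 - hi k) ^ (6 * k + 10)) / 2 := by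
  have hl1 : Tendsto (fun x : ℕ => Real.log x / x) atTop (𝓝 0) :=
    (Real.isLittleO_log_id_atTop.tendsto_div_nhds_zero).comp tendsto_natCast_atTop_atTop
  filter_upwards [(log_pow_small 6 11).eventually_le_const (show (0 : ℝ) < 1 / 16 by norm_num),
    tendsto_logN.eventually_ge_atTop 2, eventually_ge_atTop 40,
    hl1.eventually_le_const (show 0 < 1 / (8 * δ) by positivity),
    (log_pow_small 0 (6 * 10 + 100)).eventually_le_const (show (0 : ℝ) < 1 by norm_num)]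
    with k hx2 hL hk40 hx4 _
  have hk' : (40 : ℝ) ≤ k := by exact_mod_cast hk40
  have hk0 : (0 : ℝ) < k := by linarith
  obtain ⟨L, hLd⟩ : ∃ L, L = Real.log (k : ℝ) := ⟨_, rfl⟩
  obtain ⟨l, hl⟩ : ∃ l, l = lo δ k := ⟨_, rfl⟩
  obtain ⟨u, hu⟩ : ∃ u, u = hi k := ⟨_, rfl⟩
  have hl' : l = δ * (2 * L) / (3 * k + 4) := by rw [hl, lo, hLd]
  have hu' : u = (2 * L + 4 * Real.log L + 11) / (12 * k) := by rw [hu, hi, hLd]
  rw [← hl, ← hu]
  rw [← hLd] at hx2 hL hx4 ⊢
  have hLL0 : 0 < Real.log L := Real.log_pos (by linarith)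
  have hLL : Real.log L ≤ L := (Real.log_le_sub_one_of_pos (by linarith)).trans (by linarith)
  rw [div_le_iff₀ hk0] at hx2
  rw [div_le_iff₀ hk0, div_mul_eq_mul_div, one_mul, le_div_iff₀ (by positivity)] at hx4
  have hl0 : 0 ≤ l := by rw [hl']; positivity
  have hu0 : 0 ≤ u := by rw [hu']; positivity
  have hku : (k : ℝ) * u = (2 * L + 4 * Real.log L + 11) / 12 := by
    rw [hu']
    field_simp
  have hku2 : (k : ℝ) * u ^ 2 ≤ 1 / 2000 := by
    have e : (k : ℝ) * u ^ 2 = (2 * L + 4 * Real.log L + 11) ^ 2 / (144 * k) := by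
      rw [hu']
      field_simp
      ring
    rw [e, div_le_iff₀ (by positivity)]
    have : (2 * L + 4 * Real.log L + 11) ^ 2 ≤ (6 * L + 11) ^ 2 := pow_le_pow_left₀ (by positivity) (by linarith) 2
    linarith
  have hu1 : u ≤ 1 / 200 := by
    have h1 : u ^ 2 ≤ (1 / 200) ^ 2 := by
      have : 40 * u ^ 2 ≤ (k : ℝ) * u ^ 2 := mul_le_mul_of_nonneg_right (by linarith) (sq_nonneg _)
      nlinarith
    exact (pow_le_pow_iff_left₀ hu0 (by norm_num) (by norm_num)).1 h1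
  have hG : ((6 * k + 10 : ℕ) : ℝ) = 6 * k + 10 := by push_cast; ring
  have hpos : 0 < 1 - u := by linarith
  have hpw0 : 0 ≤ (1 - u) ^ (6 * k + 10) := by positivity
  -- upper bound for the power
  have hpow_up : (1 - u) ^ (6 * k + 10) ≤ 1 / k := by
    have h1 : 1 - u ≤ Real.exp (-u) := by have := Real.add_one_le_exp (-u); linarith
    refine (pow_le_pow_left₀ hpos.le h1 _).trans ?_
    rw [← Real.exp_nat_mul, hG]
    have h2 : 1 / (k : ℝ) = Real.exp (-L) := by rw [hLd, Real.exp_neg, Real.exp_log hk0, one_div]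
    rw [h2]
    apply Real.exp_le_exp.2
    have : (6 * (k : ℝ) + 10) * -u = -(6 * (k * u)) - 10 * u := by ring
    rw [this, hku]
    linarith
  -- lower bound for the power
  have hpow_low : Real.exp (-(L + 2 * Real.log L + 7)) ≤ (1 - u) ^ (6 * k + 10) := by
    have h6 : 1 - (1 - u)⁻¹ ≤ Real.log (1 - u) := Real.one_sub_inv_le_log_of_pos hpos
    have h7 : (1 - u)⁻¹ ≤ 1 + u + 2 * u ^ 2 := by
      rw [inv_le_iff_one_le_mul₀ hpos]
      nlinarith [mul_nonneg hu0 hu0, mul_nonneg (mul_nonneg hu0 hu0) hu0]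
    have h8 : Real.exp (-(u + 2 * u ^ 2)) ≤ 1 - u := by
      calc Real.exp (-(u + 2 * u ^ 2)) ≤ Real.exp (Real.log (1 - u)) := Real.exp_le_exp.2 (by linarith)
        _ = 1 - u := Real.exp_log hpos
    refine le_trans ?_ (pow_le_pow_left₀ (Real.exp_pos _).le h8 _)
    rw [← Real.exp_nat_mul, hG]
    apply Real.exp_le_exp.2
    have e : (6 * (k : ℝ) + 10) * -(u + 2 * u ^ 2) = -(6 * (k * u) + 12 * (k * u ^ 2) + 10 * u + 20 * u ^ 2) := by ring
    rw [e, hku, neg_le_neg_iff]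
    nlinarith
  refine ⟨hl0, hu0, by linarith, ?_, ?_⟩
  · rw [hG]
    have h1 : (6 * (k : ℝ) + 10) * l ≤ k := by
      rw [hl', ← mul_div_assoc, div_le_iff₀ (by positivity)]
      have h2 : δ * L ≤ k / 8 := by linarith
      have h3 := mul_le_mul_of_nonneg_left h2 (show 0 ≤ 2 * (6 * (k : ℝ) + 10) by positivity)
      nlinarith
    calc (6 * (k : ℝ) + 10) * (l * (1 - u) ^ (6 * k + 10)) = ((6 * (k : ℝ) + 10) * l) * (1 - u) ^ (6 * k + 10) := by ring
      _ ≤ k * (1 / k) := mul_le_mul h1 hpow_up hpw0 hk0.le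
      _ = 1 := by field_simp
  · rw [hG]
    have h1 : 2 * δ * L ≤ (6 * (k : ℝ) + 10) * l := by
      rw [hl', ← mul_div_assoc, le_div_iff₀ (by positivity)]
      have : 0 ≤ δ * L := by positivity
      nlinarith
    have e1 : Real.exp (-(L + 2 * Real.log L + 7)) = Real.exp (-7) * (1 / (k * L ^ 2)) := by
      rw [show -(L + 2 * Real.log L + 7) = -7 - L - 2 * Real.log L by ring, Real.exp_sub, Real.exp_sub,
        mul_comm 2 (Real.log L), Real.exp_mul, Real.exp_log (by linarith : 0 < L), hLd, Real.exp_log hk0]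
      rw [show (2 : ℝ) = ((2 : ℕ) : ℝ) by norm_num, Real.rpow_natCast]
      field_simp
    have h2 : δ * Real.exp (-8) * (1 / ((k : ℝ) * L)) ≤ (2 * δ * L) * (Real.exp (-7) * (1 / (k * L ^ 2))) / 2 := by
      have e2 : (2 * δ * L) * (Real.exp (-7) * (1 / (k * L ^ 2))) / 2 = δ * Real.exp (-7) * (1 / ((k : ℝ) * L)) := by
        field_simp
      rw [e2]
      apply mul_le_mul_of_nonneg_right _ (by positivity)
      apply mul_le_mul_of_nonneg_left _ hδ.le
      exact Real.exp_le_exp.2 (by norm_num)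
    refine h2.trans ?_
    rw [← e1]
    have h3 := mul_le_mul h1 hpow_low (Real.exp_pos _).le (by positivity)
    have e3 : (6 * (k : ℝ) + 10) * (l * (1 - u) ^ (6 * k + 10)) = ((6 * (k : ℝ) + 10) * l) * (1 - u) ^ (6 * k + 10) := by ring
    rw [e3]
    linarith

/-- the densities in the block number `k` -/
lemma blk_dens {δ : ℝ} (hδ : 0 < δ) : ∀ᶠ k : ℕ in atTop, ∀ n : ℕ, 9 * k ^ 2 ≤ n → n < 9 * k ^ 2 + 2 * (6 * k + 10) →
    lo δ k ≤ δ * (Real.log n / √(n : ℝ)) ∧ (Real.log n + 4 * Real.log (Real.log n)) / (4 * √(n : ℝ)) ≤ hi k := by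
  filter_upwards [tendsto_logN.eventually_ge_atTop 3, eventually_ge_atTop 40] with k hL hk40 n hn1 hn2
  have hk' : (40 : ℝ) ≤ k := by exact_mod_cast hk40
  have hk0 : (0 : ℝ) < k := by linarith
  have hn1' : 9 * (k : ℝ) ^ 2 ≤ n := by exact_mod_cast hn1
  have hn2' : (n : ℝ) ≤ (3 * k + 4) ^ 2 := by
    have h1 : n ≤ 9 * k ^ 2 + 2 * (6 * k + 10) := hn2.le
    have h2 : (n : ℝ) ≤ ((9 * k ^ 2 + 2 * (6 * k + 10) : ℕ) : ℝ) := by exact_mod_cast h1
    push_cast at h2
    nlinarith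
  have hn0 : (0 : ℝ) < n := by nlinarith
  obtain ⟨L, hLd⟩ : ∃ L, L = Real.log (k : ℝ) := ⟨_, rfl⟩
  rw [← hLd] at hL
  have hlog1 : 2 * L ≤ Real.log n := by
    have h1 : (k : ℝ) ^ 2 ≤ n := by nlinarith
    have h2 := Real.log_le_log (by positivity) h1
    rw [Real.log_pow, ← hLd] at h2
    push_cast at h2
    exact h2
  have hlog2 : Real.log n ≤ 2 * L + 3 := by
    have h1 : (n : ℝ) ≤ (k : ℝ) ^ 2 * Real.exp 3 := by
      have : 16 ≤ Real.exp 3 := by
        have h := Real.exp_one_gt_d9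
        have e : Real.exp 3 = Real.exp 1 ^ 3 := by rw [← Real.exp_nat_mul]; norm_num
        rw [e]
        have : (2.7 : ℝ) ^ 3 ≤ Real.exp 1 ^ 3 := pow_le_pow_left₀ (by norm_num) (by linarith) 3
        linarith
      have h2 : (k : ℝ) ^ 2 * 16 ≤ (k : ℝ) ^ 2 * Real.exp 3 := mul_le_mul_of_nonneg_left this (by positivity)
      nlinarith
    have h2 := Real.log_le_log hn0 h1
    rw [Real.log_mul (by positivity) (by positivity), Real.log_exp, Real.log_pow, ← hLd] at h2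
    push_cast at h2
    exact h2
  have hs1 : 3 * (k : ℝ) ≤ √(n : ℝ) := by
    apply Real.le_sqrt_of_sq_le
    nlinarith
  have hs2 : √(n : ℝ) ≤ 3 * k + 4 := by
    rw [Real.sqrt_le_left (by positivity)]
    exact hn2'
  have hs0 : 0 < √(n : ℝ) := by linarith
  constructor
  · unfold lo
    rw [← hLd, mul_div_assoc]
    apply mul_le_mul_of_nonneg_left _ hδ.le
    exact div_le_div₀ (by linarith) hlog1 hs0 hs2
  · unfold hi
    rw [← hLd]
    have hllog : Real.log (Real.log n) ≤ Real.log L + 2 := by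
      have h1 : Real.log n ≤ L * Real.exp 2 := by
        have : 3 ≤ Real.exp 2 := by have := Real.add_one_le_exp (2 : ℝ); linarith
        nlinarith
      have h2 := Real.log_le_log (by linarith) h1
      rw [Real.log_mul (by linarith) (by positivity), Real.log_exp] at h2
      exact h2
    have hLL0 : 0 < Real.log L := Real.log_pos (by linarith)
    exact div_le_div₀ (by positivity) (by linarith) (by positivity) (by linarith)

/-- **at and below the threshold**: infinitely many long gaps -/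
theorem and_low (hA : ∀ n, MeasurableSet[ℱ n] (A n)) {δ : ℝ} (hδ : 0 < δ)
    (hge : ∀ᵐ ω ∂μ, ∀ᶠ n : ℕ in atTop, δ * (Real.log n / √(n : ℝ)) ≤ dens μ ℱ A n ω)
    (hle : ∀ᵐ ω ∂μ, ∀ᶠ n : ℕ in atTop, dens μ ℱ A n ω ≤ (Real.log n + 4 * Real.log (Real.log n)) / (4 * √(n : ℝ))) :
    ∀ᵐ ω ∂μ, {k | ω ∈ A k}.Infinite ∧
      ∃ᶠ n : ℕ in atTop, 1 < √(pn {k | ω ∈ A k} (n + 1) : ℝ) - √(pn {k | ω ∈ A k} n : ℝ) := by
  classical
  obtain ⟨k₀, hk₀⟩ := eventually_atTop.1 ((blk_ana hδ).and ((blk_dens hδ).and (eventually_ge_atTop 2)))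
  set V : ℕ → Set Ω := fun n => {ω | ¬ (δ * (Real.log n / √(n : ℝ)) ≤ dens μ ℱ A n ω ∧
    dens μ ℱ A n ω ≤ (Real.log n + 4 * Real.log (Real.log n)) / (4 * √(n : ℝ)))} with hVd
  have hV : ∀ n, MeasurableSet[ℱ n] (V n) := by
    intro n
    have : MeasurableSet {x : ℝ | ¬ (δ * (Real.log n / √(n : ℝ)) ≤ x ∧
        x ≤ (Real.log n + 4 * Real.log (Real.log n)) / (4 * √(n : ℝ)))} := by
      have h1 : MeasurableSet (Icc (δ * (Real.log n / √(n : ℝ)))
        ((Real.log n + 4 * Real.log (Real.log n)) / (4 * √(n : ℝ)))) := measurableSet_Icc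
      exact h1.compl
    exact (dens_meas (μ := μ) n).measurable this
  set t : ℕ → ℕ := fun k => 9 * (k + 2) ^ 2 with ht
  set D : ℕ → Set Ω := fun k => DD A (t k) (6 * (k + 2) + 10) ∪ WW V (t k) (6 * (k + 2) + 10) with hD
  have hmono : Monotone t := by
    intro a b hab
    simp only [ht]
    gcongr
  have hDm : ∀ k, MeasurableSet[ℱ (t (k + 1))] (D k) := by
    intro k
    have h1 : t k + 2 * (6 * (k + 2) + 10) ≤ t (k + 1) := by
      simp only [ht]
      nlinarith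
    exact ℱ.mono h1 _ (@MeasurableSet.union _ (ℱ (t k + 2 * (6 * (k + 2) + 10))) _ _ (DD_meas hA _ _) (WW_meas hV _ _))
  set p : ℕ → ℝ := fun k => δ * Real.exp (-8) * (1 / (((k + 2 : ℕ) : ℝ) * Real.log ((k + 2 : ℕ) : ℝ))) with hp
  have hpr : ∀ k, k₀ ≤ k → ∀ C, MeasurableSet[ℱ (t k)] C → p k * μ.real C ≤ μ.real (C ∩ D k) := by
    intro k hk C hC
    obtain ⟨⟨a1, a2, a3, a4, a5⟩, a6, a7⟩ := hk₀ (k + 2) (by omega)
    have h1 := block (μ := μ) hA hV hC (l := lo δ (k + 2)) (u := hi (k + 2)) a1 a2 a3 (6 * (k + 2) + 10)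
      (fun n hn1 hn2 ω hω => by
        obtain ⟨b1, b2⟩ := a6 n hn1 hn2
        have hω' := not_not.1 hω
        exact ⟨b1.trans hω'.1, hω'.2.trans b2⟩) a4
    have h2 := measureReal_inter_add_sdiff (μ := μ) (s := C) (ℱ.le _ _ (hDm k))
    have h3 : 0 ≤ μ.real C := measureReal_nonneg
    have h4 := mul_le_mul_of_nonneg_right a5 h3
    show δ * Real.exp (-8) * (1 / (((k + 2 : ℕ) : ℝ) * Real.log ((k + 2 : ℕ) : ℝ))) * μ.real C ≤ μ.real (C ∩ D k)
    have h5 : μ.real (C \ D k) ≤ (1 - ((6 * (k + 2) + 10 : ℕ) : ℝ) *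
      (lo δ (k + 2) * (1 - hi (k + 2)) ^ (6 * (k + 2) + 10)) / 2) * μ.real C := h1
    linarith
  have hp0 : ∀ k, 0 ≤ p k := by
    intro k
    have : 0 < Real.log ((k + 2 : ℕ) : ℝ) := Real.log_pos (by
      push_cast
      have : (0 : ℝ) ≤ k := Nat.cast_nonneg k
      linarith)
    positivity
  have hsum : Tendsto (fun N => ∑ k ∈ Finset.range N, p k) atTop atTop := by
    rw [← not_summable_iff_tendsto_nat_atTop_of_nonneg hp0]
    intro hcon
    have h1 : Summable (fun k : ℕ => 1 / (((k + 2 : ℕ) : ℝ) * Real.log (((k + 2 : ℕ) : ℝ) + 1))) := by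
      refine Summable.of_nonneg_of_le (fun k => ?_) (fun k => ?_) (hcon.mul_left (1 / (δ * Real.exp (-8))))
      · have : 0 < Real.log (((k + 2 : ℕ) : ℝ) + 1) := Real.log_pos (by
          push_cast
          have : (0 : ℝ) ≤ k := Nat.cast_nonneg k
          linarith)
        positivity
      · have h2 : 0 < Real.log ((k + 2 : ℕ) : ℝ) := Real.log_pos (by
          push_cast
          have : (0 : ℝ) ≤ k := Nat.cast_nonneg k
          linarith)
        have h3 : Real.log ((k + 2 : ℕ) : ℝ) ≤ Real.log (((k + 2 : ℕ) : ℝ) + 1) := Real.log_le_log (by positivity) (by linarith)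
        have e : 1 / (δ * Real.exp (-8)) * p k = 1 / (((k + 2 : ℕ) : ℝ) * Real.log ((k + 2 : ℕ) : ℝ)) := by
          simp only [hp]
          field_simp
        rw [e]
        apply one_div_le_one_div_of_le (by positivity)
        exact mul_le_mul_of_nonneg_left h3 (by positivity)
    exact ser_div ((summable_nat_add_iff (f := fun n : ℕ => 1 / ((n : ℝ) * Real.log ((n : ℝ) + 1))) 2).1 h1)
  have hio := trials_io (μ := μ) (ℱ := ℱ) hmono hDm hpr hsum
  filter_upwards [hio, hge, hle] with ω h1 h2 h3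
  obtain ⟨n₀, hn₀⟩ := eventually_atTop.1 (h2.and h3)
  set S : Set ℕ := {k | ω ∈ A k} with hS'
  have key : ∀ K, ∃ P ∈ S, K ≤ P ∧ ∀ r, P < r → √(r : ℝ) ≤ √(P : ℝ) + 1 → r ∉ S := by
    intro K
    obtain ⟨k, hk, h4⟩ := h1 (max K n₀)
    have hkt : k ≤ t k := by simp only [ht]; nlinarith
    rcases h4 with ⟨i, hi, h5, h6⟩ | ⟨n, hn1, _, hn3⟩
    · refine ⟨t k + i + 1, h5, by have := (le_max_left K n₀).trans hk; omega, fun r hr1 hr2 hr3 => ?_⟩
      rcases Nat.lt_or_ge (t k + i + 1 + (6 * (k + 2) + 10)) r with h7 | h7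
      · -- r is too large
        have h8 : (((t k + i + 1 : ℕ) : ℝ)) ≤ (3 * ((k : ℝ) + 2) + 4) ^ 2 := by
          have : t k + i + 1 ≤ 9 * (k + 2) ^ 2 + (6 * (k + 2) + 10) := by simp only [ht]; omega
          have : ((t k + i + 1 : ℕ) : ℝ) ≤ ((9 * (k + 2) ^ 2 + (6 * (k + 2) + 10) : ℕ) : ℝ) := by exact_mod_cast this
          push_cast at this ⊢
          have hk0 : (0 : ℝ) ≤ k := Nat.cast_nonneg k
          nlinarith
        have h9 : √(((t k + i + 1 : ℕ) : ℝ)) ≤ 3 * ((k : ℝ) + 2) + 4 := by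
          rw [Real.sqrt_le_left (by positivity)]
          exact h8
        have h10 : (r : ℝ) ≤ (√(((t k + i + 1 : ℕ) : ℝ)) + 1) ^ 2 := by
          have : √(r : ℝ) ^ 2 ≤ (√(((t k + i + 1 : ℕ) : ℝ)) + 1) ^ 2 := pow_le_pow_left₀ (Real.sqrt_nonneg _) hr2 2
          rwa [Real.sq_sqrt (Nat.cast_nonneg r)] at this
        have h11 : (((t k + i + 1 : ℕ) : ℝ)) + (6 * ((k : ℝ) + 2) + 10) < r := by
          have : ((t k + i + 1 + (6 * (k + 2) + 10) : ℕ) : ℝ) < r := by exact_mod_cast h7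
          push_cast at this ⊢
          linarith
        have h12 : √(((t k + i + 1 : ℕ) : ℝ)) ^ 2 = ((t k + i + 1 : ℕ) : ℝ) := Real.sq_sqrt (Nat.cast_nonneg _)
        nlinarith
      · apply h6 (r - (t k + i + 1) - 1) (by omega)
        rw [show t k + i + 1 + (r - (t k + i + 1) - 1) + 1 = r by omega]
        exact hr3
    · exact absurd (hn₀ n (((le_max_right K n₀).trans hk).trans (hkt.trans hn1))) hn3
  have hS : S.Infinite := by
    rw [Set.infinite_iff_exists_gt]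
    intro a
    obtain ⟨P, hP1, hP2, _⟩ := key (a + 1)
    exact ⟨P, hP1, by omega⟩
  refine ⟨hS, ?_⟩
  have hm : StrictMono (pn S) := Nat.nth_strictMono hS
  rw [frequently_atTop]
  intro N
  obtain ⟨P, hP1, hP2, hP3⟩ := key (pn S N)
  obtain ⟨n, hn⟩ : ∃ n, pn S n = P := ⟨Nat.count (· ∈ S) P, Nat.nth_count (p := (· ∈ S)) hP1⟩
  refine ⟨n, hm.le_iff_le.1 (by rw [hn]; exact hP2), ?_⟩
  by_contra hcon
  have h4 : pn S n < pn S (n + 1) := hm (Nat.lt_succ_self n)
  rw [hn] at h4 hcon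
  refine hP3 (pn S (n + 1)) h4 (by linarith [not_lt.1 hcon]) (Nat.nth_mem_of_infinite hS (n + 1))

end Pool.Agent.N417.SM
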